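import Pool.Agent.Helper81.RT.DStack

/-!
# Tidy machines and stack machines with look-ahead (MP_eaa19d_lc)
-/

set_option autoImplicit false

namespace Pool.Agent.Helper81.RT

/-- one step of a machine with `k` pushdown stores: it sees the top symbol of each store and replaces it by a word -/
def pstep {Q A Γ : Type} {k : ℕ} (δ : Q → A → (Fin k → Option Γ) → Q × (Fin k → List Γ))
    (x : Q × (Fin k → List Γ)) (a : A) : Q × (Fin k → List Γ) :=
  ((δ x.1 a (fun i => (x.2 i).head?)).1, fun i => (δ x.1 a (fun i => (x.2 i).head?)).2 i ++ (x.2 i).tail)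

/-- `L` is accepted in real time by a machine with `k` pushdown stores which are all empty once a word has been
accepted; in one step the top symbol of a store is replaced by at most two symbols -/
def TidyK (k : ℕ) (A : Type) (L : Set (List A)) : Prop :=
  ∃ (n m : ℕ) (q0 : Fin n) (F : Set (Fin n))
    (δ : Fin n → A → (Fin k → Option (Fin m)) → Fin n × (Fin k → List (Fin m))),
    (∀ q a t i, ((δ q a t).2 i).length ≤ 2) ∧
    ∀ w : List A, (w ∈ L ↔ (w.foldl (pstep δ) (q0, fun _ => [])).1 ∈ F) ∧
      (w ∈ L → ∀ i, (w.foldl (pstep δ) (q0, fun _ => [])).2 i = [])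

/-- the word problem of `G` for some finite generating family is tidy real-time -/
def TidyGroup (G : Type) [Group G] : Prop :=
  ∃ (k : ℕ) (α : Type), Finite α ∧ ∃ f : α → G, Subgroup.closure (Set.range f) = ⊤ ∧
    TidyK k (α ⊕ α) {w | (w.map (Sum.elim f (fun a => (f a)⁻¹))).prod = 1}

/-- a tidy machine with `k` pushdown stores gives a real-time machine with `k` work tapes -/
theorem TidyK.realTime {k : ℕ} {A : Type} {L : Set (List A)} (h : TidyK k A L) : RealTimeK k A L := by
  obtain ⟨n, m, q0, F, δ, hδ, hL⟩ := h
  refine realTime_of_stack (k := k) (Γ := Fin m) 1 L q0 (fun _ => []) {x | x.1 ∈ F}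
    (fun q a t => δ q a (fun i => (t i).head?)) (fun q a t i => hδ _ _ _ _) (fun i => by simp) ?_
  intro w
  have key : ∀ (w : List A) (x : Fin n × (Fin k → List (Fin m))),
      w.foldl (sstep 1 (fun q a t => δ q a (fun i => (t i).head?))) x = w.foldl (pstep δ) x := by
    intro w
    induction w with
    | nil => intro x; rfl
    | cons a w ih =>
      intro x
      rw [List.foldl_cons, List.foldl_cons, ih]
      congr 1
      have e : (fun i => ((x.2 i).take 1).head?) = fun i => (x.2 i).head? := by
        funext i
        cases x.2 i <;> rfl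
      simp only [sstep, pstep, e, List.drop_one]
  rw [key, (hL w).1]
  rfl

theorem TidyGroup.realTime {G : Type} [Group G] (h : TidyGroup G) : ∃ k, RealTimeGroupK k G := by
  obtain ⟨k, α, hα, f, hf, hT⟩ := h
  exact ⟨k, α, hα, f, hf, hT.realTime⟩

/-- a machine with `k` pushdown stores over arbitrary finite types which is tidy -/
theorem tidy_of {Q A C : Type} [Finite Q] [Finite C] (k : ℕ) (L : Set (List A)) (q0 : Q) (F : Set Q)
    (δ : Q → A → (Fin k → Option C) → Q × (Fin k → List C)) (hδ : ∀ q a t i, ((δ q a t).2 i).length ≤ 2)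
    (hL : ∀ w : List A, (w ∈ L ↔ (w.foldl (pstep δ) (q0, fun _ => [])).1 ∈ F) ∧
      (w ∈ L → ∀ i, (w.foldl (pstep δ) (q0, fun _ => [])).2 i = [])) : TidyK k A L := by
  classical
  obtain ⟨n, ⟨eQ⟩⟩ := Finite.exists_equiv_fin Q
  obtain ⟨m, ⟨eC⟩⟩ := Finite.exists_equiv_fin C
  let δ' : Fin n → A → (Fin k → Option (Fin m)) → Fin n × (Fin k → List (Fin m)) :=
    fun q a t => (eQ (δ (eQ.symm q) a (fun i => (t i).map eC.symm)).1,
      fun i => ((δ (eQ.symm q) a (fun i => (t i).map eC.symm)).2 i).map eC)
  have key : ∀ (w : List A) (x : Q × (Fin k → List C)),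
      w.foldl (pstep δ') (eQ x.1, fun i => (x.2 i).map eC) =
        (eQ (w.foldl (pstep δ) x).1, fun i => ((w.foldl (pstep δ) x).2 i).map eC) := by
    intro w
    induction w with
    | nil => intro x; rfl
    | cons a w ih =>
      intro x
      rw [List.foldl_cons, List.foldl_cons, ← ih]
      congr 1
      have e : (fun i => (((x.2 i).map eC).head?).map eC.symm) = fun i => (x.2 i).head? := by
        funext i
        rw [List.head?_map, Option.map_map]
        cases (x.2 i).head? <;> simp
      simp only [pstep, δ', Equiv.symm_apply_apply, e, List.map_append, List.map_tail]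
  refine ⟨n, m, eQ q0, eQ '' F, δ', ?_, ?_⟩
  · intro q a t i
    simp only [δ', List.length_map]
    exact hδ _ _ _ _
  · intro w
    have h := key w (q0, fun _ => [])
    simp only [List.map_nil] at h
    rw [h]
    refine ⟨?_, ?_⟩
    · rw [(hL w).1]
      simp
    · intro hw i
      simp only
      rw [(hL w).2 hw i, List.map_nil]

section block

variable {Γ : Type}

/-- the new buffer and the new top of the store (`b` is the buffer after the replacement of its top) -/
def bopT (c : ℕ) (b : List Γ) (x : Option (Fin c → Γ)) : List Γ × List (Fin c → Γ) :=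
  if h : 2 * c ≤ b.length then
    (b.take (b.length - c),
      (fun i : Fin c => (b.drop (b.length - c)).get ⟨i, by rw [List.length_drop]; omega⟩) :: x.toList)
  else if b.length < c then
    match x with
    | some t => (b ++ List.ofFn t, [])
    | none => (b, [])
  else (b, x.toList)

structure TInvB (c : ℕ) (s b : List Γ) (bs : List (Fin c → Γ)) : Prop where
  hs : s = b ++ bs.flatMap List.ofFn
  hlen : b.length < 2 * c
  hlow : bs = [] ∨ c ≤ b.length

theorem TInvB.take {c : ℕ} {s b : List Γ} {bs : List (Fin c → Γ)} (h : TInvB c s b bs) : s.take c = b.take c := by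
  rcases h.hlow with h1 | h1
  · rw [h.hs, h1]; simp
  · rw [h.hs, List.take_append_of_le_length h1]

theorem TInvB.drop {c : ℕ} {s b : List Γ} {bs : List (Fin c → Γ)} (h : TInvB c s b bs) :
    s.drop c = b.drop c ++ bs.flatMap List.ofFn := by
  rcases h.hlow with h1 | h1
  · rw [h.hs, h1]; simp
  · rw [h.hs, List.drop_append_of_le_length h1]

theorem head_tail_toList {T : Type} (l : List T) : l.head?.toList ++ l.tail = l := by
  cases l <;> rfl

theorem TInvB.step {c : ℕ} (hc : 0 < c) {s b : List Γ} {bs : List (Fin c → Γ)} (h : TInvB c s b bs) (r : List Γ)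
    (hr : r.length ≤ 2 * c) :
    TInvB c (r ++ s.drop c) (bopT c (r ++ b.drop c) bs.head?).1 ((bopT c (r ++ b.drop c) bs.head?).2 ++ bs.tail) := by
  have hdrop := h.drop
  obtain ⟨hs, hlen, hlow⟩ := h
  rw [hdrop, ← List.append_assoc]
  have hl2 : (r ++ b.drop c).length < 3 * c := by
    simp only [List.length_append, List.length_drop]
    omega
  generalize r ++ b.drop c = b' at *
  unfold bopT
  split_ifs with h1 h2
  · refine ⟨?_, ?_, ?_⟩
    · simp only
      rw [List.cons_append, head_tail_toList, List.flatMap_cons, ← List.append_assoc]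
      congr 1
      have e : List.ofFn (fun i : Fin c => (b'.drop (b'.length - c)).get ⟨i, by rw [List.length_drop]; omega⟩)
          = b'.drop (b'.length - c) := by
        apply List.ext_get
        · simp only [List.length_ofFn, List.length_drop]; omega
        · intro j h1 h2
          simp
      rw [e, List.take_append_drop]
    · simp only [List.length_take]; omega
    · right
      simp only [List.length_take]; omega
  · rcases bs with _ | ⟨t, bs⟩
    · refine ⟨by simp, ?_, Or.inl rfl⟩
      simp only [List.head?_nil]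
      omega
    · refine ⟨?_, ?_, ?_⟩
      · simp only [List.head?_cons, List.nil_append, List.tail_cons, List.flatMap_cons, List.append_assoc]
      · simp only [List.head?_cons, List.length_append, List.length_ofFn]
        omega
      · right
        simp only [List.head?_cons, List.length_append, List.length_ofFn]
        omega
  · refine ⟨?_, ?_, ?_⟩
    · simp only
      rw [head_tail_toList]
    · simp only; omega
    · right
      simp only; omega

theorem bopT_length (c : ℕ) (b : List Γ) (x : Option (Fin c → Γ)) : (bopT c b x).2.length ≤ 2 := by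
  unfold bopT
  split_ifs
  · cases x <;> simp
  · cases x <;> simp
  · cases x <;> simp

end block

/-- a machine with `k` stacks and bounded look-ahead which is tidy -/
theorem tidy_of_stack {Q A Γ : Type} {k : ℕ} [Finite Q] [Finite Γ] (c : ℕ) (hc : 0 < c) (L : Set (List A)) (q0 : Q)
    (F : Set (Q × (Fin k → List Γ))) (δ : Q → A → (Fin k → List Γ) → Q × (Fin k → List Γ))
    (hδ : ∀ q a t i, ((δ q a t).2 i).length ≤ 2 * c)
    (hL : ∀ w : List A, (w ∈ L ↔ ((w.foldl (sstep c δ) (q0, fun _ => [])).1,
      fun i => ((w.foldl (sstep c δ) (q0, fun _ => [])).2 i).take c) ∈ F) ∧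
      (w ∈ L → ∀ i, (w.foldl (sstep c δ) (q0, fun _ => [])).2 i = [])) : TidyK k A L := by
  classical
  let mk : List Γ → {l : List Γ // l.length ≤ 2 * c} := fun l =>
    if h : l.length ≤ 2 * c then ⟨l, h⟩ else ⟨[], by simp⟩
  have hmk : ∀ l : List Γ, l.length ≤ 2 * c → (mk l).1 = l := by
    intro l hl
    simp only [mk, dif_pos hl]
  let δ' : (Q × (Fin k → {l : List Γ // l.length ≤ 2 * c})) → A → (Fin k → Option (Fin c → Γ)) →
      (Q × (Fin k → {l : List Γ // l.length ≤ 2 * c})) × (Fin k → List (Fin c → Γ)) :=
    fun q a x => (((δ q.1 a (fun i => (q.2 i).1.take c)).1,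
      fun i => mk (bopT c ((δ q.1 a (fun i => (q.2 i).1.take c)).2 i ++ (q.2 i).1.drop c) (x i)).1),
      fun i => (bopT c ((δ q.1 a (fun i => (q.2 i).1.take c)).2 i ++ (q.2 i).1.drop c) (x i)).2)
  refine tidy_of k L (q0, fun _ => mk []) {q | (q.1, fun i => (q.2 i).1.take c) ∈ F} δ'
    (fun q a t i => bopT_length _ _ _) ?_
  intro w
  have key : ∀ (w : List A) (y : (Q × (Fin k → {l : List Γ // l.length ≤ 2 * c})) × (Fin k → List (Fin c → Γ)))
      (x : Q × (Fin k → List Γ)), y.1.1 = x.1 → (∀ i, TInvB c (x.2 i) (y.1.2 i).1 (y.2 i)) →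
      (w.foldl (pstep δ') y).1.1 = (w.foldl (sstep c δ) x).1 ∧
      ∀ i, TInvB c ((w.foldl (sstep c δ) x).2 i) ((w.foldl (pstep δ') y).1.2 i).1 ((w.foldl (pstep δ') y).2 i) := by
    intro w
    induction w with
    | nil => intro y x h1 h2; exact ⟨h1, h2⟩
    | cons a w ih =>
      intro y x h1 h2
      rw [List.foldl_cons, List.foldl_cons]
      have e : (fun i => (y.1.2 i).1.take c) = fun i => (x.2 i).take c := by
        funext i
        exact (h2 i).take.symm
      apply ih
      · show (δ y.1.1 a (fun i => (y.1.2 i).1.take c)).1 = (δ x.1 a (fun i => (x.2 i).take c)).1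
        rw [e, h1]
      · intro i
        have h3 := (h2 i).step hc ((δ x.1 a (fun i => (x.2 i).take c)).2 i) (hδ _ _ _ _)
        show TInvB c ((δ x.1 a (fun i => (x.2 i).take c)).2 i ++ (x.2 i).drop c)
          (mk (bopT c ((δ y.1.1 a (fun i => (y.1.2 i).1.take c)).2 i ++ (y.1.2 i).1.drop c) ((y.2 i).head?)).1).1
          ((bopT c ((δ y.1.1 a (fun i => (y.1.2 i).1.take c)).2 i ++ (y.1.2 i).1.drop c) ((y.2 i).head?)).2 ++
            (y.2 i).tail)
        rw [e, h1, hmk _ h3.hlen.le]
        exact h3
  have h := key w ((q0, fun _ => mk []), fun _ => []) (q0, fun _ => []) rfl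
    (by
      intro i
      refine ⟨?_, ?_, Or.inl rfl⟩
      · simp only
        rw [hmk [] (by simp)]
        simp
      · simp only
        rw [hmk [] (by simp)]
        simpa using hc)
  obtain ⟨h1, h2⟩ := h
  have e : (fun i => ((w.foldl (pstep δ') ((q0, fun _ => mk []), fun _ => [])).1.2 i).1.take c) =
      fun i => ((w.foldl (sstep c δ) (q0, fun _ => [])).2 i).take c := by
    funext i
    exact (h2 i).take.symm
  refine ⟨?_, ?_⟩
  · show _ ↔ (_, (fun i => ((w.foldl (pstep δ') ((q0, fun _ => mk []), fun _ => [])).1.2 i).1.take c)) ∈ F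
    rw [h1, e]
    exact (hL w).1
  · intro hw i
    have h3 := (h2 i).hs
    rw [(hL w).2 hw i] at h3
    have h4 := (h2 i).hlow
    have h5 := List.append_eq_nil_iff.1 h3.symm
    rcases h4 with h4 | h4
    · exact h4
    · rw [h5.1] at h4
      simp only [List.length_nil, Nat.le_zero] at h4
      omega

/-- a machine with a finite family of stacks and bounded look-ahead which is tidy -/
theorem tidy_of_dstack {Q A I : Type} {Γ : I → Type} [Finite Q] [Finite I] [∀ i, Finite (Γ i)] (c : ℕ) (hc : 0 < c)
    (L : Set (List A)) (q0 : Q)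
    (F : Set (Q × ((i : I) → List (Γ i)))) (δ : Q → A → ((i : I) → List (Γ i)) → Q × ((i : I) → List (Γ i)))
    (hδ : ∀ q a t i, ((δ q a t).2 i).length ≤ 2 * c)
    (hL : ∀ w : List A, (w ∈ L ↔ ((w.foldl (dstep c δ) (q0, fun _ => [])).1,
      fun i => ((w.foldl (dstep c δ) (q0, fun _ => [])).2 i).take c) ∈ F) ∧
      (w ∈ L → ∀ i, (w.foldl (dstep c δ) (q0, fun _ => [])).2 i = [])) : TidyK (Nat.card I) A L := by
  classical
  let e : I ≃ Fin (Nat.card I) := Finite.equivFin I
  let δu : Q → A → (Fin (Nat.card I) → List (Σ i, Γ i)) → Q × (Fin (Nat.card I) → List (Σ i, Γ i)) :=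
    fun q a t => ((δ q a (fun i => dec (t (e i)) i)).1,
      fun j => ((δ q a (fun i => dec (t (e i)) i)).2 (e.symm j)).map (Sigma.mk (e.symm j)))
  refine tidy_of_stack (k := Nat.card I) (Γ := Σ i, Γ i) c hc L q0
    {x | (x.1, fun i => dec (x.2 (e i)) i) ∈ F} δu ?_ ?_
  · intro q a t j
    simp only [δu, List.length_map]
    exact hδ _ _ _ _
  · intro w
    have key : ∀ (w : List A) (x : Q × ((i : I) → List (Γ i))),
        w.foldl (sstep c δu) (x.1, fun j => (x.2 (e.symm j)).map (Sigma.mk (e.symm j))) =
        ((w.foldl (dstep c δ) x).1, fun j => ((w.foldl (dstep c δ) x).2 (e.symm j)).map (Sigma.mk (e.symm j))) := by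
      intro w
      induction w with
      | nil => intro x; rfl
      | cons a w ih =>
        intro x
        rw [List.foldl_cons, List.foldl_cons, ← ih]
        congr 1
        have e1 : (fun i => dec (((x.2 (e.symm (e i))).map (Sigma.mk (e.symm (e i)))).take c) i) =
            fun i => (x.2 i).take c := by
          funext i
          rw [← List.map_take]
          exact dec_map' (e.symm_apply_apply i) (fun i => (x.2 i).take c)
        show ((δ x.1 a (fun i => dec (((x.2 (e.symm (e i))).map (Sigma.mk (e.symm (e i)))).take c) i)).1, _) = _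
        refine Prod.ext ?_ ?_
        · simp only
          rw [e1]
          rfl
        · funext j
          show ((δ x.1 a (fun i => dec (((x.2 (e.symm (e i))).map (Sigma.mk (e.symm (e i)))).take c) i)).2
            (e.symm j)).map (Sigma.mk (e.symm j)) ++ ((x.2 (e.symm j)).map (Sigma.mk (e.symm j))).drop c = _
          rw [e1, ← List.map_drop, ← List.map_append]
          rfl
    have h := key w (q0, fun _ => [])
    simp only [List.map_nil] at h
    rw [h]
    have e2 : (fun i => dec ((((w.foldl (dstep c δ) (q0, fun _ => [])).2 (e.symm (e i))).map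
        (Sigma.mk (e.symm (e i)))).take c) i) = fun i => ((w.foldl (dstep c δ) (q0, fun _ => [])).2 i).take c := by
      funext i
      rw [← List.map_take]
      exact dec_map' (e.symm_apply_apply i) (fun i => ((w.foldl (dstep c δ) (q0, fun _ => [])).2 i).take c)
    refine ⟨?_, ?_⟩
    · show _ ↔ (_, (fun i => dec ((((w.foldl (dstep c δ) (q0, fun _ => [])).2 (e.symm (e i))).map
        (Sigma.mk (e.symm (e i)))).take c) i)) ∈ F
      rw [e2]
      exact (hL w).1
    · intro hw j
      simp only
      rw [(hL w).2 hw, List.map_nil]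

end Pool.Agent.Helper81.RT
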