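import Pool.Agent.Helper81.RT.Tidy
import Pool.Agent.Helper22.EA.Pile

/-!
# Graph products of tidy real-time groups are real-time (MP_eaa19d_lc)
-/

set_option autoImplicit false

namespace Pool.Agent.Helper81.RT

open Pool.Agent.Helper22.EA

namespace GPM

variable {V : Type} [DecidableEq V] (Gr : SimpleGraph V) [DecidableRel Gr.Adj]
  {A : V → Type} {Q S : V → Type} {k : V → ℕ} (q0 : ∀ v, Q v) (F : ∀ v, Set (Q v))
  (δ : ∀ v, Q v → A v → (Fin (k v) → Option (S v)) → Q v × (Fin (k v) → List (S v)))

/-- the configurations: the main stacks and the data stacks -/
abbrev Cfg (Q S : V → Type) (k : V → ℕ) : Type :=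
  ((v : V) → List (Option (Q v))) × ((v : V) → Fin (k v) → List (Option (S v)))

/-- the new data stack before a mark is removed -/
def newD {T : Type} (r : List T) (d : List (Option T)) : List (Option T) :=
  r.map some ++ (if d.head?.join = none then d else d.tail)

open Classical in
/-- the step of the machine for the graph product -/
noncomputable def mstep (x : Cfg Q S k) (v : V) (a : A v) : Cfg Q S k :=
  match (x.1 v).head?.join with
  | some q =>
    if (δ v q a (fun i => (x.2 v i).head?.join)).1 ∈ F v then
      (Function.update (fun u => if Gr.Adj u v then x.1 u else (x.1 u).tail) v (x.1 v).tail,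
        Function.update x.2 v
          (fun i => (newD ((δ v q a (fun i => (x.2 v i).head?.join)).2 i) (x.2 v i)).tail))
    else
      (Function.update x.1 v (some (δ v q a (fun i => (x.2 v i).head?.join)).1 :: (x.1 v).tail),
        Function.update x.2 v
          (fun i => newD ((δ v q a (fun i => (x.2 v i).head?.join)).2 i) (x.2 v i)))
  | none =>
    if (δ v (q0 v) a (fun _ => none)).1 ∈ F v then x
    else
      (Function.update (fun u => if Gr.Adj u v then x.1 u else none :: x.1 u) v
        (some (δ v (q0 v) a (fun _ => none)).1 :: x.1 v),
        Function.update x.2 v (fun i => ((δ v (q0 v) a (fun _ => none)).2 i).map some ++ none :: x.2 v i))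

/-! ### the machine looks only at the top two symbols -/

theorem take_tail_drop {T : Type} (l : List T) : (l.take 3).tail ++ l.drop 3 = l.tail := by
  match l with
  | [] => rfl
  | [_] => rfl
  | [_, _] => rfl
  | _ :: _ :: _ :: _ => rfl

theorem head_take {T : Type} (l : List T) : (l.take 3).head? = l.head? := by
  cases l <;> rfl

theorem newD_take {T : Type} (r : List T) (d : List (Option T)) :
    newD r (d.take 3) ++ d.drop 3 = newD r d := by
  unfold newD
  rw [head_take]
  split_ifs
  · rw [List.append_assoc, List.take_append_drop]
  · rw [List.append_assoc, take_tail_drop]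

theorem newD_take_tail {T : Type} (r : List T) (d : List (Option T)) :
    (newD r (d.take 3)).tail ++ d.drop 3 = (newD r d).tail := by
  match d with
  | [] => exact List.append_nil _
  | [_] => exact List.append_nil _
  | [_, _] => exact List.append_nil _
  | x :: y :: z :: d =>
    have h : newD r ((x :: y :: z :: d).take 3) ≠ [] := by
      unfold newD
      simp only [List.take_succ_cons, List.take_zero]
      split_ifs <;> simp
    rw [← newD_take r (x :: y :: z :: d), List.tail_append_of_ne_nil h]

theorem mstep_take (x : Cfg Q S k) (v : V) (a : A v) :
    (∀ u, (mstep Gr q0 F δ (fun u => (x.1 u).take 3, fun u i => (x.2 u i).take 3) v a).1 u ++ (x.1 u).drop 3 =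
      (mstep Gr q0 F δ x v a).1 u) ∧
    (∀ u i, (mstep Gr q0 F δ (fun u => (x.1 u).take 3, fun u i => (x.2 u i).take 3) v a).2 u i ++ (x.2 u i).drop 3 =
      (mstep Gr q0 F δ x v a).2 u i) := by
  classical
  have h1 : ((x.1 v).take 3).head?.join = (x.1 v).head?.join := by rw [head_take]
  have h2 : (fun i => ((x.2 v i).take 3).head?.join) = fun i => (x.2 v i).head?.join := by
    funext i; rw [head_take]
  unfold mstep
  simp only [h1, h2]
  rcases hq : (x.1 v).head?.join with _ | q
  · simp only
    split_ifs with hF
    · exact ⟨fun u => List.take_append_drop _ _, fun u i => List.take_append_drop _ _⟩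
    · constructor
      · intro u
        simp only
        by_cases hu : u = v
        · subst hu
          rw [Function.update_self, Function.update_self, List.cons_append, List.take_append_drop]
        · rw [Function.update_of_ne hu, Function.update_of_ne hu]
          split_ifs
          · exact List.take_append_drop _ _
          · rw [List.cons_append, List.take_append_drop]
      · intro u i
        simp only
        by_cases hu : u = v
        · subst hu
          rw [Function.update_self, Function.update_self, List.append_assoc, List.cons_append,
            List.take_append_drop]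
        · rw [Function.update_of_ne hu, Function.update_of_ne hu]
          exact List.take_append_drop _ _
  · simp only
    split_ifs with hF
    · constructor
      · intro u
        simp only
        by_cases hu : u = v
        · subst hu
          rw [Function.update_self, Function.update_self, take_tail_drop]
        · rw [Function.update_of_ne hu, Function.update_of_ne hu]
          split_ifs
          · exact List.take_append_drop _ _
          · exact take_tail_drop _
      · intro u i
        simp only
        by_cases hu : u = v
        · subst hu
          rw [Function.update_self, Function.update_self, newD_take_tail]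
        · rw [Function.update_of_ne hu, Function.update_of_ne hu]
          exact List.take_append_drop _ _
    · constructor
      · intro u
        simp only
        by_cases hu : u = v
        · subst hu
          rw [Function.update_self, Function.update_self, List.cons_append, take_tail_drop]
        · rw [Function.update_of_ne hu, Function.update_of_ne hu]
          exact List.take_append_drop _ _
      · intro u i
        simp only
        by_cases hu : u = v
        · subst hu
          rw [Function.update_self, Function.update_self, newD_take]
        · rw [Function.update_of_ne hu, Function.update_of_ne hu]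
          exact List.take_append_drop _ _

/-! ### the invariant -/

/-- the configuration of the machine of `v` after reading `w` -/
def cf (v : V) (w : List (A v)) : Q v × (Fin (k v) → List (S v)) := w.foldl (pstep (δ v)) (q0 v, fun _ => [])

variable {G : V → Type} [∀ v, Group (G v)] (ev : ∀ v, A v → G v)

/-- the stacks of `v` represent the pile of `v` -/
inductive RV (v : V) : List (Option (G v)) → List (Option (Q v)) → (Fin (k v) → List (Option (S v))) → Prop
  | nil : RV v [] [] (fun _ => [])
  | bead {l : List (Option (G v))} {s : List (Option (Q v))} {d : Fin (k v) → List (Option (S v))} (h : RV v l s d) :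
    RV v (none :: l) (none :: s) d
  | syl {l : List (Option (G v))} {s : List (Option (Q v))} {d : Fin (k v) → List (Option (S v))} (w : List (A v))
    (h : RV v l s d) :
    RV v (some (w.map (ev v)).prod :: l) (some (cf q0 δ v w).1 :: s)
      (fun i => ((cf q0 δ v w).2 i).map some ++ none :: d i)

omit [DecidableEq V] in
theorem rv_nil_iff {v : V} {l : List (Option (G v))} {s : List (Option (Q v))}
    {d : Fin (k v) → List (Option (S v))} (h : RV q0 δ ev v l s d) : l = [] ↔ s = [] := by
  cases h <;> simp

omit [DecidableEq V] in
theorem cf_snoc (v : V) (w : List (A v)) (a : A v) : cf q0 δ v (w ++ [a]) = pstep (δ v) (cf q0 δ v w) a := by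
  simp [cf, List.foldl_append]

theorem newD_data {T : Type} (r c : List T) (d : List (Option T)) :
    newD r (c.map some ++ none :: d) = (r ++ c.tail).map some ++ none :: d := by
  unfold newD
  cases c with
  | nil => simp
  | cons x c => simp

theorem join_data {T : Type} (c : List T) (d : List (Option T)) :
    (c.map some ++ none :: d).head?.join = c.head? := by
  cases c <;> simp

theorem mstep_inv [∀ v, DecidableEq (G v)]
    (hacc : ∀ v (w : List (A v)), ((w.map (ev v)).prod = 1 ↔ (cf q0 δ v w).1 ∈ F v))
    (htidy : ∀ v (w : List (A v)), (w.map (ev v)).prod = 1 → ∀ i, (cf q0 δ v w).2 i = [])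
    {p : Pile G} {x : Cfg Q S k} (h : ∀ v, RV q0 δ ev v (p v) (x.1 v) (x.2 v))
    (hQ : ∀ {u v : V} {g : G v} {l : List (Option (G v))}, p v = some g :: l → u ≠ v → ¬ Gr.Adj u v →
      ∃ l', p u = none :: l') (v : V) (a : A v) :
    ∀ u, RV q0 δ ev u (act Gr G v (ev v a) p u) ((mstep Gr q0 F δ x v a).1 u) ((mstep Gr q0 F δ x v a).2 u) := by
  classical
  have hv := h v
  -- the case of a new syllable
  have new : (∀ g l, p v ≠ some g :: l) → (x.1 v).head?.join = none →
      ∀ u, RV q0 δ ev u (act Gr G v (ev v a) p u) ((mstep Gr q0 F δ x v a).1 u)
        ((mstep Gr q0 F δ x v a).2 u) := by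
    intro hp hx u
    have e1 : act Gr G v (ev v a) p = if ev v a = 1 then p else push Gr G v (ev v a) p := by
      unfold act
      split
      · rename_i g l hgl
        exact absurd hgl (hp g l)
      · rfl
    have hone : ev v a = 1 ↔ (δ v (q0 v) a (fun _ => none)).1 ∈ F v := by
      have := hacc v [a]
      simpa [cf, pstep] using this
    unfold mstep
    rw [hx, e1]
    simp only
    by_cases hF : ev v a = 1
    · rw [if_pos hF, if_pos (hone.1 hF)]
      exact h u
    · rw [if_neg hF, if_neg (fun h' => hF (hone.2 h'))]
      unfold push
      by_cases hu : u = v
      · subst hu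
        simp only [Function.update_self]
        have := RV.syl [a] hv
        simpa [cf, pstep] using this
      · simp only [Function.update_of_ne hu]
        split_ifs
        · exact h u
        · exact RV.bead (h u)
  rcases hpv : p v with _ | ⟨_ | g, l⟩
  · rw [hpv] at hv
    refine new (by intro g l e; rw [hpv] at e; simp at e) ?_
    have : x.1 v = [] := (rv_nil_iff q0 δ ev hv).1 rfl
    rw [this]; rfl
  · refine new (by intro g l e; rw [hpv] at e; simp at e) ?_
    rw [hpv] at hv
    generalize x.1 v = s at hv
    generalize x.2 v = d at hv
    cases hv
    rfl
  · intro u
    rw [hpv] at hv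
    have e1 : act Gr G v (ev v a) p = if g * ev v a = 1 then
        Function.update (fun u => if Gr.Adj u v then p u else (p u).tail) v l
        else Function.update p v (some (g * ev v a) :: l) := by
      unfold act
      split
      · rename_i g' l' hgl
        rw [hpv] at hgl
        simp only [List.cons.injEq, Option.some.injEq] at hgl
        rw [hgl.1, hgl.2]
      · rename_i hgl
        exact absurd hpv (hgl g l)
    obtain ⟨w, s, d, hg, hs, hd, hr⟩ : ∃ (w : List (A v)) (s : List (Option (Q v)))
        (d : Fin (k v) → List (Option (S v))), g = (w.map (ev v)).prod ∧ x.1 v = some (cf q0 δ v w).1 :: s ∧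
        x.2 v = (fun i => ((cf q0 δ v w).2 i).map some ++ none :: d i) ∧ RV q0 δ ev v l s d := by
      generalize x.1 v = s' at hv
      generalize x.2 v = d' at hv
      cases hv with
      | syl w h => exact ⟨w, _, _, rfl, rfl, rfl, h⟩
    have hx : (x.1 v).head?.join = some (cf q0 δ v w).1 := by rw [hs]; rfl
    have hdd : (fun i => (x.2 v i).head?.join) = fun i => ((cf q0 δ v w).2 i).head? := by
      funext i
      rw [hd]
      exact join_data _ _
    have hcf : cf q0 δ v (w ++ [a]) = ((δ v (cf q0 δ v w).1 a (fun i => ((cf q0 δ v w).2 i).head?)).1,
        fun i => (δ v (cf q0 δ v w).1 a (fun i => ((cf q0 δ v w).2 i).head?)).2 i ++ ((cf q0 δ v w).2 i).tail) := by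
      rw [cf_snoc]; rfl
    have hga : g * ev v a = ((w ++ [a]).map (ev v)).prod := by
      rw [hg, List.map_append, List.prod_append]; simp
    have hone : g * ev v a = 1 ↔ (δ v (cf q0 δ v w).1 a (fun i => ((cf q0 δ v w).2 i).head?)).1 ∈ F v := by
      rw [hga, hacc, hcf]
    have hnew : ∀ i, newD ((δ v (cf q0 δ v w).1 a (fun i => ((cf q0 δ v w).2 i).head?)).2 i) (x.2 v i) =
        ((cf q0 δ v (w ++ [a])).2 i).map some ++ none :: d i := by
      intro i
      rw [hd, newD_data, hcf]
    unfold mstep
    rw [hx, e1]
    simp only [hdd]
    by_cases hF : g * ev v a = 1
    · rw [if_pos hF, if_pos (hone.1 hF)]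
      by_cases hu : u = v
      · subst hu
        simp only [Function.update_self, hnew]
        have ht : ∀ i, (cf q0 δ u (w ++ [a])).2 i = [] := htidy u _ (by rw [← hga]; exact hF)
        simp only [ht, List.map_nil, List.nil_append, List.tail_cons, hs]
        exact hr
      · simp only [Function.update_of_ne hu]
        by_cases hadj : Gr.Adj u v
        · rw [if_pos hadj, if_pos hadj]
          exact h u
        · rw [if_neg hadj, if_neg hadj]
          obtain ⟨l', hl'⟩ := hQ hpv hu hadj
          have hu' := h u
          rw [hl'] at hu' ⊢
          generalize x.1 u = s' at hu'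
          generalize x.2 u = d' at hu'
          cases hu' with
          | bead h => exact h
    · rw [if_neg hF, if_neg (fun h' => hF (hone.2 h'))]
      by_cases hu : u = v
      · subst hu
        simp only [Function.update_self, hnew, hs, List.tail_cons]
        rw [hga]
        have := RV.syl (q0 := q0) (δ := δ) (ev := ev) (w ++ [a]) hr
        rw [hcf] at this ⊢
        exact this
      · simp only [Function.update_of_ne hu]
        exact h u

/-! ### the family of stacks -/

/-- the symbols of the stacks -/
def Sy (Q S : V → Type) (k : V → ℕ) : (Σ v, Option (Fin (k v))) → Type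
  | ⟨v, none⟩ => Option (Q v)
  | ⟨v, some _⟩ => Option (S v)

instance [∀ v, Finite (Q v)] [∀ v, Finite (S v)] : ∀ i, Finite (Sy Q S k i)
  | ⟨v, none⟩ => inferInstanceAs (Finite (Option (Q v)))
  | ⟨v, some _⟩ => inferInstanceAs (Finite (Option (S v)))

def toI (x : Cfg Q S k) : (i : Σ v, Option (Fin (k v))) → List (Sy Q S k i)
  | ⟨v, none⟩ => x.1 v
  | ⟨v, some i⟩ => x.2 v i

def ofI (t : (i : Σ v, Option (Fin (k v))) → List (Sy Q S k i)) : Cfg Q S k :=
  (fun v => t ⟨v, none⟩, fun v i => t ⟨v, some i⟩)

/-- the top symbols -/
def top3 (x : Cfg Q S k) : Cfg Q S k := (fun u => (x.1 u).take 3, fun u i => (x.2 u i).take 3)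

theorem newD_length {T : Type} (r : List T) (d : List (Option T)) : (newD r d).length ≤ r.length + d.length := by
  unfold newD
  split_ifs
  · simp
  · simp

theorem mstep_length (hδ : ∀ v q a t i, ((δ v q a t).2 i).length ≤ 2) (x : Cfg Q S k)
    (h1 : ∀ u, (x.1 u).length ≤ 3) (h2 : ∀ u i, (x.2 u i).length ≤ 3) (v : V) (a : A v) :
    (∀ u, ((mstep Gr q0 F δ x v a).1 u).length ≤ 6) ∧ (∀ u i, ((mstep Gr q0 F δ x v a).2 u i).length ≤ 6) := by
  classical
  unfold mstep
  rcases hq : (x.1 v).head?.join with _ | q
  · simp only
    split_ifs with hF
    · exact ⟨fun u => by have := h1 u; omega, fun u i => by have := h2 u i; omega⟩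
    · constructor
      · intro u
        simp only
        by_cases hu : u = v
        · subst hu
          rw [Function.update_self, List.length_cons]
          have := h1 u; omega
        · rw [Function.update_of_ne hu]
          have := h1 u
          split_ifs
          · omega
          · rw [List.length_cons]; omega
      · intro u i
        simp only
        by_cases hu : u = v
        · subst hu
          rw [Function.update_self, List.length_append, List.length_map, List.length_cons]
          have := h2 u i
          have := hδ u (q0 u) a (fun _ => none) i
          omega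
        · rw [Function.update_of_ne hu]
          have := h2 u i; omega
  · simp only
    split_ifs with hF
    · constructor
      · intro u
        simp only
        by_cases hu : u = v
        · subst hu
          rw [Function.update_self, List.length_tail]
          have := h1 u; omega
        · rw [Function.update_of_ne hu]
          have := h1 u
          split_ifs
          · omega
          · rw [List.length_tail]; omega
      · intro u i
        simp only
        by_cases hu : u = v
        · subst hu
          rw [Function.update_self, List.length_tail]
          have := h2 u i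
          have := hδ u q a (fun i => (x.2 u i).head?.join) i
          have := newD_length ((δ u q a (fun i => (x.2 u i).head?.join)).2 i) (x.2 u i)
          omega
        · rw [Function.update_of_ne hu]
          have := h2 u i; omega
    · constructor
      · intro u
        simp only
        by_cases hu : u = v
        · subst hu
          rw [Function.update_self, List.length_cons, List.length_tail]
          have := h1 u; omega
        · rw [Function.update_of_ne hu]
          have := h1 u; omega
      · intro u i
        simp only
        by_cases hu : u = v
        · subst hu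
          rw [Function.update_self]
          have := h2 u i
          have := hδ u q a (fun i => (x.2 u i).head?.join) i
          have := newD_length ((δ u q a (fun i => (x.2 u i).head?.join)).2 i) (x.2 u i)
          omega
        · rw [Function.update_of_ne hu]
          have := h2 u i; omega

end GPM

end Pool.Agent.Helper81.RT
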