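import Pool.Agent.Helper81.RT.Stack

/-!
# Machines with `k` stacks and bounded look-ahead are real-time with `k` work tapes, II (MP_eaa19d_lc)
-/

set_option autoImplicit false

namespace Pool.Agent.Helper81.RT

variable {Q A Γ : Type} {k : ℕ}

/-- the buffer with its mode -/
abbrev Bfr (Γ : Type) (B : ℕ) : Type := {l : List Γ // l.length ≤ 4 * B} × Bool

instance (Γ : Type) [Finite Γ] (n : ℕ) : Finite {l : List Γ // l.length ≤ n} := List.finite_length_le Γ n

/-- a list as a buffer -/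
def mkB {B : ℕ} (l : List Γ) (h : Bool) : Bfr Γ B :=
  if hl : l.length ≤ 4 * B then (⟨l, hl⟩, h) else (⟨[], by simp⟩, h)

theorem mkB_fst {B : ℕ} (l : List Γ) (h : Bool) (hl : l.length ≤ 4 * B) : (mkB (B := B) l h).1.1 = l := by
  unfold mkB
  rw [dif_pos hl]

theorem mkB_snd {B : ℕ} (l : List Γ) (h : Bool) : (mkB (B := B) l h).2 = h := by
  unfold mkB
  split_ifs <;> rfl

/-- the simulating machine with `k` tapes -/
def sim (c B : ℕ) (δ : Q → A → (Fin k → List Γ) → Q × (Fin k → List Γ)) (q : Q × (Fin k → Bfr Γ B)) (a : A)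
    (x : Fin k → Option (Fin B → Γ)) :
    (Q × (Fin k → Bfr Γ B)) × (Fin k → Option (Fin B → Γ)) × (Fin k → ℤ) :=
  (((δ q.1 a (fun i => (q.2 i).1.1.take c)).1,
    fun i => mkB (bop B ((δ q.1 a (fun i => (q.2 i).1.1.take c)).2 i ++ (q.2 i).1.1.drop c) (q.2 i).2 (x i)).1
      (bop B ((δ q.1 a (fun i => (q.2 i).1.1.take c)).2 i ++ (q.2 i).1.1.drop c) (q.2 i).2 (x i)).2.1),
    fun i => (bop B ((δ q.1 a (fun i => (q.2 i).1.1.take c)).2 i ++ (q.2 i).1.1.drop c) (q.2 i).2 (x i)).2.2.1,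
    fun i => (bop B ((δ q.1 a (fun i => (q.2 i).1.1.take c)).2 i ++ (q.2 i).1.1.drop c) (q.2 i).2 (x i)).2.2.2)

theorem realTime_of_stack [Finite Q] [Finite Γ] (c : ℕ) (L : Set (List A)) (q0 : Q) (s0 : Fin k → List Γ)
    (F : Set (Q × (Fin k → List Γ))) (δ : Q → A → (Fin k → List Γ) → Q × (Fin k → List Γ))
    (hδ : ∀ q a t i, ((δ q a t).2 i).length ≤ 2 * c) (hs0 : ∀ i, (s0 i).length ≤ 2 * c)
    (hL : ∀ w : List A, w ∈ L ↔ ((w.foldl (sstep c δ) (q0, s0)).1,
      fun i => ((w.foldl (sstep c δ) (q0, s0)).2 i).take c) ∈ F) : RealTimeK k A L := by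
  classical
  refine realTime_of k L (q0, fun i => mkB (B := 4 * c) (s0 i) false) (none : Option (Fin (4 * c) → Γ))
    {q | (q.1, fun i => (q.2 i).1.1.take c) ∈ F} (sim c (4 * c) δ) (fun q a r i => bop_move _ _ _ _) ?_
  intro w
  rw [hL]
  have key : ∀ (w : List A) (y : (Q × (Fin k → Bfr Γ (4 * c))) × (Fin k → ℤ → Option (Fin (4 * c) → Γ)) × (Fin k → ℤ))
      (x : Q × (Fin k → List Γ)), y.1.1 = x.1 →
      (∀ i, ∃ bs, SInv c (4 * c) (x.2 i) (y.1.2 i).1.1 (y.1.2 i).2 (y.2.1 i) (y.2.2 i) bs) →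
      let y' := List.foldl
        (fun (c' : (Q × (Fin k → Bfr Γ (4 * c))) × (Fin k → ℤ → Option (Fin (4 * c) → Γ)) × (Fin k → ℤ)) (a : A) =>
          ((sim c (4 * c) δ c'.1 a (fun i => c'.2.1 i (c'.2.2 i))).1,
           fun i => Function.update (c'.2.1 i) (c'.2.2 i)
             ((sim c (4 * c) δ c'.1 a (fun j => c'.2.1 j (c'.2.2 j))).2.1 i),
           fun i => c'.2.2 i + (sim c (4 * c) δ c'.1 a (fun j => c'.2.1 j (c'.2.2 j))).2.2 i)) y w
      let x' := w.foldl (sstep c δ) x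
      y'.1.1 = x'.1 ∧
      (∀ i, ∃ bs, SInv c (4 * c) (x'.2 i) (y'.1.2 i).1.1 (y'.1.2 i).2 (y'.2.1 i) (y'.2.2 i) bs) := by
    intro w
    induction w with
    | nil => intro y x h1 h2; exact ⟨h1, h2⟩
    | cons a w ih =>
      intro y x h1 h2
      rw [List.foldl_cons, List.foldl_cons]
      apply ih
      · have e : (fun i => (y.1.2 i).1.1.take c) = fun i => (x.2 i).take c := by
          funext i
          obtain ⟨bs, hbs⟩ := h2 i
          exact (hbs.take le_rfl).symm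
        show (δ y.1.1 a (fun i => (y.1.2 i).1.1.take c)).1 = (δ x.1 a (fun i => (x.2 i).take c)).1
        rw [e, h1]
      · intro i
        have e : (fun i => (y.1.2 i).1.1.take c) = fun i => (x.2 i).take c := by
          funext i
          obtain ⟨bs, hbs⟩ := h2 i
          exact (hbs.take le_rfl).symm
        obtain ⟨bs, hbs⟩ := h2 i
        obtain ⟨g1, bs', g2⟩ := hbs.step le_rfl ((δ x.1 a (fun i => (x.2 i).take c)).2 i) (hδ _ _ _ _)
        refine ⟨bs', ?_⟩
        show SInv c (4 * c) ((δ x.1 a (fun i => (x.2 i).take c)).2 i ++ (x.2 i).drop c)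
          (mkB (bop (4 * c) ((δ y.1.1 a (fun i => (y.1.2 i).1.1.take c)).2 i ++ (y.1.2 i).1.1.drop c) (y.1.2 i).2
            (y.2.1 i (y.2.2 i))).1
          (bop (4 * c) ((δ y.1.1 a (fun i => (y.1.2 i).1.1.take c)).2 i ++ (y.1.2 i).1.1.drop c) (y.1.2 i).2
            (y.2.1 i (y.2.2 i))).2.1).1.1
          (mkB (bop (4 * c) ((δ y.1.1 a (fun i => (y.1.2 i).1.1.take c)).2 i ++ (y.1.2 i).1.1.drop c) (y.1.2 i).2
            (y.2.1 i (y.2.2 i))).1
          (bop (4 * c) ((δ y.1.1 a (fun i => (y.1.2 i).1.1.take c)).2 i ++ (y.1.2 i).1.1.drop c) (y.1.2 i).2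
            (y.2.1 i (y.2.2 i))).2.1).2
          (Function.update (y.2.1 i) (y.2.2 i) 
            (bop (4 * c) ((δ y.1.1 a (fun i => (y.1.2 i).1.1.take c)).2 i ++ (y.1.2 i).1.1.drop c) (y.1.2 i).2
            (y.2.1 i (y.2.2 i))).2.2.1)
          (y.2.2 i + (bop (4 * c) ((δ y.1.1 a (fun i => (y.1.2 i).1.1.take c)).2 i ++ (y.1.2 i).1.1.drop c) (y.1.2 i).2
            (y.2.1 i (y.2.2 i))).2.2.2) bs'
        rw [e, h1, mkB_snd, mkB_fst _ _ g1]
        exact g2
  have h := key w ((q0, fun i => mkB (B := 4 * c) (s0 i) false), fun _ _ => none, fun _ => 0) (q0, s0) rfl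
    (by
      intro i
      refine ⟨[], ?_⟩
      simp only
      rw [mkB_snd, mkB_fst _ _ (by have := hs0 i; omega)]
      refine ⟨by simp, by intro j; simp, by intro j _; rfl, by simp, ?_, Or.inl rfl, by simp⟩
      have := hs0 i
      omega)
  simp only at h
  obtain ⟨h1, h2⟩ := h
  rw [Set.mem_setOf_eq, h1]
  have e : (fun i => (((List.foldl
        (fun (c' : (Q × (Fin k → Bfr Γ (4 * c))) × (Fin k → ℤ → Option (Fin (4 * c) → Γ)) × (Fin k → ℤ)) (a : A) =>
          ((sim c (4 * c) δ c'.1 a (fun i => c'.2.1 i (c'.2.2 i))).1,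
           fun i => Function.update (c'.2.1 i) (c'.2.2 i)
             ((sim c (4 * c) δ c'.1 a (fun j => c'.2.1 j (c'.2.2 j))).2.1 i),
           fun i => c'.2.2 i + (sim c (4 * c) δ c'.1 a (fun j => c'.2.1 j (c'.2.2 j))).2.2 i))
        ((q0, fun i => mkB (B := 4 * c) (s0 i) false), fun _ _ => none, fun _ => 0) w).1.2 i).1.1.take c)) =
      fun i => ((w.foldl (sstep c δ) (q0, s0)).2 i).take c := by
    funext i
    obtain ⟨bs, hbs⟩ := h2 i
    exact (hbs.take le_rfl).symm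
  rw [e]

end Pool.Agent.Helper81.RT
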