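import Pool.Agent.Helper81.RT.Count

/-!
# The estimates (MP_eaa19d_lc)
-/

set_option autoImplicit false

namespace Pool.Agent.Helper81.RT

open Filter in
/-- exponentials beat polynomials -/
theorem exp_beats (a k : ℕ) : ∃ d0, ∀ d, d0 ≤ d → a * d ^ k ≤ 2 ^ d := by
  have h := tendsto_pow_const_div_const_pow_of_one_lt k (r := (2 : ℝ)) (by norm_num)
  have h2 : ∀ᶠ n : ℕ in atTop, (n : ℝ) ^ k / 2 ^ n < 1 / (a + 1) :=
    h.eventually_lt_const (by positivity)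
  obtain ⟨d0, hd0⟩ := h2.exists_forall_of_atTop
  refine ⟨d0, fun d hd => ?_⟩
  have h3 := hd0 d hd
  rw [div_lt_div_iff₀ (by positivity) (by positivity), one_mul] at h3
  have h4 : (a : ℝ) * d ^ k ≤ 2 ^ d := by
    have : (0 : ℝ) ≤ (d : ℝ) ^ k := by positivity
    nlinarith
  exact_mod_cast h4

/-- the number of keys is small -/
theorem keys_le (c q : ℕ) (hc : 1 ≤ c) (hq : 1 ≤ q) : ∃ d0, ∀ d, d0 ≤ d → 0 < d ∧ keys (c * d) d q ≤ 2 ^ (d - 1) := by
  obtain ⟨d0, hd0⟩ := exp_beats (2 * (2 * (3 * c * (4 * c ^ 2 * q) ^ c))) (1 + 2 * c)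
  refine ⟨max d0 1, fun d hd => ?_⟩
  have hd1 : 1 ≤ d := (le_max_right _ _).trans hd
  have hd2 := hd0 d ((le_max_left _ _).trans hd)
  refine ⟨hd1, ?_⟩
  have e1 : c * d / d = c := Nat.mul_div_cancel _ hd1
  have e2 : 2 * (c * d) + 1 ≤ 3 * c * d := by nlinarith [Nat.mul_le_mul hc hd1]
  have e3 : c * d * (q * (2 * (c * d) + 1)) + 1 ≤ 4 * c ^ 2 * q * d ^ 2 := by
    have h1 : c * d * (q * (2 * (c * d) + 1)) ≤ c * d * (q * (3 * c * d)) :=
      Nat.mul_le_mul_left _ (Nat.mul_le_mul_left _ e2)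
    have h2 : c * d * (q * (3 * c * d)) = 3 * c ^ 2 * q * d ^ 2 := by ring
    have h3 : 1 ≤ c ^ 2 * q * d ^ 2 := Nat.one_le_iff_ne_zero.2 (by positivity)
    have h4 : 4 * c ^ 2 * q * d ^ 2 = 3 * c ^ 2 * q * d ^ 2 + c ^ 2 * q * d ^ 2 := by ring
    omega
  have e4 : keys (c * d) d q ≤ 2 * (3 * c * d * (4 * c ^ 2 * q * d ^ 2) ^ c) := by
    unfold keys
    rw [e1]
    exact Nat.mul_le_mul_left _ (Nat.mul_le_mul e2 (Nat.pow_le_pow_left e3 _))
  have e5 : 2 * (2 * (3 * c * d * (4 * c ^ 2 * q * d ^ 2) ^ c)) =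
      2 * (2 * (3 * c * (4 * c ^ 2 * q) ^ c)) * d ^ (1 + 2 * c) := by
    rw [mul_pow (4 * c ^ 2 * q) (d ^ 2) c, ← pow_mul, pow_add, pow_one]
    ring
  have e6 : 2 * keys (c * d) d q ≤ 2 ^ d := by
    refine (Nat.mul_le_mul_left 2 e4).trans ?_
    rw [e5]
    exact hd2
  obtain ⟨d', rfl⟩ : ∃ d', d = d' + 1 := ⟨d - 1, by omega⟩
  rw [Nat.add_sub_cancel]
  rw [pow_succ] at e6
  omega

/-- the final inequality fails -/
theorem final_false (nQ cC C0 M d P : ℕ) (hd : 1 ≤ d) (hcC : 1 ≤ cC)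
    (hM : M = 2 * (nQ + (cC + 1) * (2 * C0 + 1)) + 2) (hP : P ≤ C0 * (M * d)) :
    ¬ ((2 ^ (M * d - 1)) ^ M ≤ nQ * (cC ^ (2 * P + 1) * (2 * P + 1))) := by
  intro h
  set C1 := nQ + (cC + 1) * (2 * C0 + 1) with hC1
  have hMd : 2 ≤ M * d := by
    have : 2 ≤ M := by omega
    calc 2 = 2 * 1 := rfl
      _ ≤ M * d := Nat.mul_le_mul this hd
  have h1 : nQ * (cC ^ (2 * P + 1) * (2 * P + 1)) ≤ 2 ^ (M * d * C1) := by
    have k1 : nQ ≤ 2 ^ nQ := Nat.lt_two_pow_self.le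
    have k2 : cC ^ (2 * P + 1) ≤ 2 ^ (cC * (2 * P + 1)) := by
      rw [pow_mul]
      exact Nat.pow_le_pow_left Nat.lt_two_pow_self.le _
    have k3 : 2 * P + 1 ≤ 2 ^ (2 * P + 1) := Nat.lt_two_pow_self.le
    calc nQ * (cC ^ (2 * P + 1) * (2 * P + 1)) ≤ 2 ^ nQ * (2 ^ (cC * (2 * P + 1)) * 2 ^ (2 * P + 1)) :=
          Nat.mul_le_mul k1 (Nat.mul_le_mul k2 k3)
      _ = 2 ^ (nQ + (cC + 1) * (2 * P + 1)) := by
          rw [← pow_add, ← pow_add]
          congr 1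
          ring
      _ ≤ 2 ^ (M * d * C1) := by
          refine Nat.pow_le_pow_right (by norm_num) ?_
          have k4 : 2 * P + 1 ≤ M * d * (2 * C0 + 1) := by
            calc 2 * P + 1 ≤ 2 * (C0 * (M * d)) + 1 := by omega
              _ ≤ 2 * (C0 * (M * d)) + M * d := by omega
              _ = M * d * (2 * C0 + 1) := by ring
          calc nQ + (cC + 1) * (2 * P + 1) ≤ M * d * nQ + (cC + 1) * (M * d * (2 * C0 + 1)) := by
                refine Nat.add_le_add ?_ (Nat.mul_le_mul_left _ k4)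
                calc nQ = 1 * nQ := (one_mul _).symm
                  _ ≤ M * d * nQ := Nat.mul_le_mul_right _ (by omega)
            _ = M * d * C1 := by rw [hC1]; ring
  have h2 : (2 ^ (M * d - 1)) ^ M ≤ 2 ^ (M * d * C1) := h.trans h1
  rw [← pow_mul] at h2
  have h3 : (M * d - 1) * M ≤ M * d * C1 := (Nat.pow_le_pow_iff_right (by norm_num)).1 h2
  have h4 : M * d * (C1 + 1) ≤ (M * d - 1) * M := by
    have e : M = 2 * (C1 + 1) := by omega
    calc M * d * (C1 + 1) ≤ (2 * (M * d - 1)) * (C1 + 1) := Nat.mul_le_mul_right _ (by omega)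
      _ = (M * d - 1) * (2 * (C1 + 1)) := by ring
      _ = (M * d - 1) * M := by rw [← e]
  have h5 : M * d * (C1 + 1) = M * d * C1 + M * d := by ring
  omega

end Pool.Agent.Helper81.RT
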