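import Mathlib

/-!
# Real-time machines with one work tape (MP_eaa19d_lc)

Definitions (the model of the frozen statement with the number of work tapes fixed), the passage to machines
with one tape in simple form, and the cut and paste lemma.
-/

set_option autoImplicit false

namespace Pool.Agent.Helper81.RT

/-- `L` is accepted by a real-time machine with exactly `k` work tapes -/
def RealTimeK (k : ℕ) (A : Type) (L : Set (List A)) : Prop :=
  ∃ (n m : ℕ) (q0 : Fin n) (F : Set (Fin n))
    (δ : Fin n → A → (Fin k → Fin (m + 1)) →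
      Fin n × (Fin k → Fin (m + 1)) × (Fin k → ℤ)),
    (∀ q a r i, |(δ q a r).2.2 i| ≤ 1) ∧
    ∀ w : List A, w ∈ L ↔
      (List.foldl
        (fun (c : Fin n × (Fin k → ℤ → Fin (m + 1)) × (Fin k → ℤ)) (a : A) =>
          ((δ c.1 a (fun i => c.2.1 i (c.2.2 i))).1,
           fun i => Function.update (c.2.1 i) (c.2.2 i)
             ((δ c.1 a (fun j => c.2.1 j (c.2.2 j))).2.1 i),
           fun i => c.2.2 i + (δ c.1 a (fun j => c.2.1 j (c.2.2 j))).2.2 i))
        (q0, fun _ _ => 0, fun _ => 0) w).1 ∈ F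

/-- the word problem of `G` for some finite generating family is accepted by a real-time machine with exactly
`k` work tapes -/
def RealTimeGroupK (k : ℕ) (G : Type) [Group G] : Prop :=
  ∃ (α : Type), Finite α ∧ ∃ f : α → G,
    Subgroup.closure (Set.range f) = ⊤ ∧
    RealTimeK k (α ⊕ α) {w | (w.map (Sum.elim f (fun a => (f a)⁻¹))).prod = 1}

/-! ### simple machines with one tape -/

section simple

variable {Q A C : Type}

/-- one step of a machine with one tape -/
def step (δ : Q → A → C → Q × C × ℤ) (c : Q × (ℤ → C) × ℤ) (a : A) : Q × (ℤ → C) × ℤ :=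
  ((δ c.1 a (c.2.1 c.2.2)).1, Function.update c.2.1 c.2.2 (δ c.1 a (c.2.1 c.2.2)).2.1,
    c.2.2 + (δ c.1 a (c.2.1 c.2.2)).2.2)

/-- the configuration after reading `w` -/
def conf (δ : Q → A → C → Q × C × ℤ) (q0 : Q) (c0 : C) (w : List A) : Q × (ℤ → C) × ℤ :=
  w.foldl (step δ) (q0, fun _ => c0, 0)

/-- the position of the head after reading `w` -/
def pos (δ : Q → A → C → Q × C × ℤ) (q0 : Q) (c0 : C) (w : List A) : ℤ := (conf δ q0 c0 w).2.2

theorem conf_nil (δ : Q → A → C → Q × C × ℤ) (q0 : Q) (c0 : C) :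
    conf δ q0 c0 [] = (q0, fun _ => c0, 0) := rfl

theorem conf_snoc (δ : Q → A → C → Q × C × ℤ) (q0 : Q) (c0 : C) (w : List A) (a : A) :
    conf δ q0 c0 (w ++ [a]) = step δ (conf δ q0 c0 w) a := by
  simp [conf, List.foldl_append]

theorem conf_append (δ : Q → A → C → Q × C × ℤ) (q0 : Q) (c0 : C) (w v : List A) :
    conf δ q0 c0 (w ++ v) = v.foldl (step δ) (conf δ q0 c0 w) := by
  simp [conf, List.foldl_append]

theorem conf_take_succ (δ : Q → A → C → Q × C × ℤ) (q0 : Q) (c0 : C) (w : List A) (t : ℕ) (h : t < w.length) :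
    conf δ q0 c0 (w.take (t + 1)) = step δ (conf δ q0 c0 (w.take t)) w[t] := by
  rw [← List.take_append_getElem h, conf_snoc]

end simple

/-- a simple machine with one tape is a machine with `1` tape -/
theorem realTime_one_of {Q A C : Type} [Finite Q] [Finite C] (L : Set (List A)) (q0 : Q) (c0 : C) (F : Set Q)
    (δ : Q → A → C → Q × C × ℤ) (hδ : ∀ q a r, |(δ q a r).2.2| ≤ 1)
    (hL : ∀ w : List A, w ∈ L ↔ (conf δ q0 c0 w).1 ∈ F) : RealTimeK 1 A L := by
  classical
  obtain ⟨n, ⟨eQ⟩⟩ := Finite.exists_equiv_fin Q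
  obtain ⟨m', ⟨eC'⟩⟩ := Finite.exists_equiv_fin C
  obtain ⟨m, rfl⟩ : ∃ m, m' = m + 1 := by
    cases m' with
    | zero => exact (eC' c0).elim0
    | succ m => exact ⟨m, rfl⟩
  -- the blank is `0`
  let eC : C ≃ Fin (m + 1) := eC'.trans (Equiv.swap (eC' c0) 0)
  have hc0 : eC c0 = 0 := by simp [eC]
  refine ⟨n, m, eQ q0, eQ '' F, fun q a r => (eQ (δ (eQ.symm q) a (eC.symm (r 0))).1,
    fun _ => eC (δ (eQ.symm q) a (eC.symm (r 0))).2.1, fun _ => (δ (eQ.symm q) a (eC.symm (r 0))).2.2), ?_, ?_⟩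
  · intro q a r i
    exact hδ _ _ _
  · intro w
    rw [hL]
    have key : ∀ (w : List A) (c : Q × (ℤ → C) × ℤ), List.foldl
        (fun (c : Fin n × (Fin 1 → ℤ → Fin (m + 1)) × (Fin 1 → ℤ)) (a : A) =>
          ((eQ (δ (eQ.symm c.1) a (eC.symm (c.2.1 0 (c.2.2 0)))).1,
           fun i => Function.update (c.2.1 i) (c.2.2 i)
             (eC (δ (eQ.symm c.1) a (eC.symm (c.2.1 0 (c.2.2 0)))).2.1),
           fun i => c.2.2 i + (δ (eQ.symm c.1) a (eC.symm (c.2.1 0 (c.2.2 0)))).2.2) :
             Fin n × (Fin 1 → ℤ → Fin (m + 1)) × (Fin 1 → ℤ)))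
        (eQ c.1, fun _ i => eC (c.2.1 i), fun _ => c.2.2) w =
        (eQ (w.foldl (step δ) c).1, fun _ i => eC ((w.foldl (step δ) c).2.1 i),
          fun _ => (w.foldl (step δ) c).2.2) := by
      intro w
      induction w with
      | nil => intro c; rfl
      | cons a w ih =>
        intro c
        rw [List.foldl_cons, List.foldl_cons, ← ih (step δ c a)]
        congr 1
        simp only [Equiv.symm_apply_apply, step]
        refine Prod.ext rfl (Prod.ext ?_ rfl)
        funext _ i
        simp only [Function.update_apply]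
        split_ifs <;> rfl
    have := key w (q0, fun _ => c0, 0)
    simp only [hc0] at this
    rw [this]
    simp [conf]

/-- a machine with `1` tape is a simple machine -/
theorem simple_of_realTime {A : Type} {L : Set (List A)} (h : RealTimeK 1 A L) :
    ∃ (n m : ℕ) (q0 : Fin n) (F : Set (Fin n)) (δ : Fin n → A → Fin (m + 1) → Fin n × Fin (m + 1) × ℤ),
      (∀ q a r, |(δ q a r).2.2| ≤ 1) ∧ ∀ w : List A, w ∈ L ↔ (conf δ q0 0 w).1 ∈ F := by
  obtain ⟨n, m, q0, F, δ, hδ, hL⟩ := h
  refine ⟨n, m, q0, F, fun q a r => ((δ q a (fun _ => r)).1, (δ q a (fun _ => r)).2.1 0,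
    (δ q a (fun _ => r)).2.2 0), fun q a r => hδ _ _ _ _, ?_⟩
  intro w
  rw [hL]
  have key : ∀ (w : List A) (c : Fin n × (ℤ → Fin (m + 1)) × ℤ), List.foldl
        (fun (c : Fin n × (Fin 1 → ℤ → Fin (m + 1)) × (Fin 1 → ℤ)) (a : A) =>
          ((δ c.1 a (fun i => c.2.1 i (c.2.2 i))).1,
           fun i => Function.update (c.2.1 i) (c.2.2 i)
             ((δ c.1 a (fun j => c.2.1 j (c.2.2 j))).2.1 i),
           fun i => c.2.2 i + (δ c.1 a (fun j => c.2.1 j (c.2.2 j))).2.2 i))
        (c.1, fun _ => c.2.1, fun _ => c.2.2) w =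
        ((w.foldl (step (fun q a r => ((δ q a (fun _ => r)).1, (δ q a (fun _ => r)).2.1 0,
          (δ q a (fun _ => r)).2.2 0))) c).1,
         fun _ => (w.foldl (step (fun q a r => ((δ q a (fun _ => r)).1, (δ q a (fun _ => r)).2.1 0,
          (δ q a (fun _ => r)).2.2 0))) c).2.1,
         fun _ => (w.foldl (step (fun q a r => ((δ q a (fun _ => r)).1, (δ q a (fun _ => r)).2.1 0,
          (δ q a (fun _ => r)).2.2 0))) c).2.2) := by
    intro w
    induction w with
    | nil => intro c; rfl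
    | cons a w ih =>
      intro c
      rw [List.foldl_cons, List.foldl_cons, ← ih]
      congr 1
      refine Prod.ext rfl (Prod.ext ?_ ?_)
      · funext i
        rw [Subsingleton.elim i 0]
        rfl
      · funext i
        rw [Subsingleton.elim i 0]
        rfl
  have := key w (q0, fun _ => 0, 0)
  rw [this]
  rfl

end Pool.Agent.Helper81.RT
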