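import Pool.Agent.Helper81.RT.Free
import Pool.Agent.Helper22.EA.Pile

/-!
# Free products of graph products are graph products (MP_eaa19d_lc)
-/

set_option autoImplicit false

namespace Pool.Agent.Helper81.RT

open Pool.Agent.Helper22.EA
open Monoid

/-! ### the universal property of the graph product -/

section lift

variable {V : Type} {Gr : SimpleGraph V} {G : V → Type} [∀ v, Group (G v)] {M : Type} [Group M]

/-- homomorphisms from a graph product -/
def gpLift (h : ∀ v, G v →* M) (hc : ∀ u v, Gr.Adj u v → ∀ (a : G u) (b : G v), h u a * h v b = h v b * h u a) :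
    GraphProduct Gr G →* M :=
  QuotientGroup.lift (Subgroup.normalClosure (commRels Gr G)) (CoprodI.lift h) (by
    intro x hx
    have h1 : Subgroup.normalClosure (commRels Gr G) ≤ (CoprodI.lift h).ker := by
      apply Subgroup.normalClosure_le_normal
      rintro y ⟨u, v, a, b, hadj, rfl⟩
      rw [SetLike.mem_coe, MonoidHom.mem_ker]
      simp only [map_mul, map_inv, CoprodI.lift_of]
      rw [hc u v hadj]
      group
    exact h1 hx)

theorem gpLift_of (h : ∀ v, G v →* M)
    (hc : ∀ u v, Gr.Adj u v → ∀ (a : G u) (b : G v), h u a * h v b = h v b * h u a) (v : V) (a : G v) :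
    gpLift h hc (GraphProduct.of Gr G v a) = h v a := by
  show QuotientGroup.lift _ _ _ (QuotientGroup.mk _) = _
  rw [QuotientGroup.lift_mk, CoprodI.lift_of]

theorem gp_hom_ext {f g : GraphProduct Gr G →* M}
    (h : ∀ v a, f (GraphProduct.of Gr G v a) = g (GraphProduct.of Gr G v a)) : f = g := by
  apply QuotientGroup.monoidHom_ext
  apply CoprodI.ext_hom
  intro v
  ext a
  exact h v a

theorem of_comm (u v : V) (hadj : Gr.Adj u v) (a : G u) (b : G v) :
    GraphProduct.of Gr G u a * GraphProduct.of Gr G v b = GraphProduct.of Gr G v b * GraphProduct.of Gr G u a := by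
  have h : (QuotientGroup.mk' (Subgroup.normalClosure (commRels Gr G)))
      (CoprodI.of a * CoprodI.of b * (CoprodI.of a)⁻¹ * (CoprodI.of b)⁻¹) = 1 := by
    rw [← MonoidHom.mem_ker, QuotientGroup.ker_mk']
    exact Subgroup.subset_normalClosure ⟨u, v, a, b, hadj, rfl⟩
  simp only [map_mul, map_inv] at h
  have h2 : GraphProduct.of Gr G u a * GraphProduct.of Gr G v b * (GraphProduct.of Gr G u a)⁻¹ *
      (GraphProduct.of Gr G v b)⁻¹ = 1 := h
  rw [mul_inv_eq_one, mul_inv_eq_iff_eq_mul] at h2
  exact h2

end lift

/-! ### the free product of two groups is a graph product -/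

section two

variable (G H : Type) [Group G] [Group H]

noncomputable def embFam : Coprod G H →* GraphProduct (⊥ : SimpleGraph Bool) (Fam G H) :=
  Coprod.lift (GraphProduct.of (⊥ : SimpleGraph Bool) (Fam G H) true : G →* _)
    (GraphProduct.of (⊥ : SimpleGraph Bool) (Fam G H) false : H →* _)

noncomputable def fromFam : ∀ b, Fam G H b →* Coprod G H
  | true => Coprod.inl
  | false => Coprod.inr

theorem fromFam_comm (u v : Bool) (hadj : (⊥ : SimpleGraph Bool).Adj u v) (a : Fam G H u) (b : Fam G H v) :
    fromFam G H u a * fromFam G H v b = fromFam G H v b * fromFam G H u a := absurd hadj (fun h => h)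

theorem embFam_injective : Function.Injective (embFam G H) := by
  apply Function.LeftInverse.injective (g := gpLift (fromFam G H) (fromFam_comm G H))
  intro x
  have : (gpLift (fromFam G H) (fromFam_comm G H)).comp (embFam G H) = MonoidHom.id _ := by
    apply Coprod.hom_ext
    · ext g
      show gpLift (fromFam G H) (fromFam_comm G H) (embFam G H (Coprod.inl g)) = Coprod.inl g
      rw [embFam, Coprod.lift_apply_inl]
      exact gpLift_of (fromFam G H) (fromFam_comm G H) true g
    · ext g
      show gpLift (fromFam G H) (fromFam_comm G H) (embFam G H (Coprod.inr g)) = Coprod.inr g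
      rw [embFam, Coprod.lift_apply_inr]
      exact gpLift_of (fromFam G H) (fromFam_comm G H) false g
  exact DFunLike.congr_fun this x

end two

/-- the free product of two finitely generated groups is finitely generated -/
theorem coprod_fg (G H : Type) [Group G] [Group H] [hG : Group.FG G] [hH : Group.FG H] : Group.FG (Coprod G H) := by
  classical
  obtain ⟨S, hS⟩ := hG.out
  obtain ⟨T, hT⟩ := hH.out
  refine ⟨⟨S.image Coprod.inl ∪ T.image Coprod.inr, ?_⟩⟩
  rw [Finset.coe_union, Finset.coe_image, Finset.coe_image, Subgroup.closure_union, ← MonoidHom.map_closure,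
    ← MonoidHom.map_closure, hS, hT, ← MonoidHom.range_eq_map, ← MonoidHom.range_eq_map,
    Coprod.range_inl_sup_range_inr]

end Pool.Agent.Helper81.RT
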