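import Pool.Agent.Helper81.RT.Cut

/-!
# Counting: few blocks can be carried far away (MP_eaa19d_lc)
-/

set_option autoImplicit false

namespace Pool.Agent.Helper81.RT

variable {Q A C : Type}

/-- the number of small subsets -/
theorem small_subsets {T : Type} [DecidableEq T] (X : Finset T) (r : ℕ) :
    (X.powerset.filter (fun S => S.card ≤ r)).card ≤ (X.card + 1) ^ r := by
  induction r with
  | zero =>
    have : X.powerset.filter (fun S => S.card ≤ 0) ⊆ {∅} := by
      intro S hS
      rw [Finset.mem_filter] at hS
      rw [Finset.mem_singleton, ← Finset.card_eq_zero]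
      omega
    simpa using Finset.card_le_card this
  | succ r ih =>
    have hsub : X.powerset.filter (fun S => S.card ≤ r + 1) ⊆
        ((X.powerset.filter (fun S => S.card ≤ r)) ×ˢ (insert none (X.image some))).image
          (fun x : Finset T × Option T => x.1 ∪ x.2.toFinset) := by
      intro S hS
      rw [Finset.mem_filter, Finset.mem_powerset] at hS
      rw [Finset.mem_image]
      rcases S.eq_empty_or_nonempty with rfl | ⟨a, ha⟩
      · refine ⟨(∅, none), ?_, by simp⟩
        simp
      · refine ⟨(S.erase a, some a), ?_, ?_⟩
        · rw [Finset.mem_product, Finset.mem_filter, Finset.mem_powerset]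
          refine ⟨⟨(Finset.erase_subset _ _).trans hS.1, ?_⟩, ?_⟩
          · rw [Finset.card_erase_of_mem ha]
            omega
          · simp only [Finset.mem_insert, Finset.mem_image]
            exact Or.inr ⟨a, hS.1 ha, rfl⟩
        · ext x
          simp only [Finset.mem_union, Finset.mem_erase, Option.mem_toFinset, Option.mem_def, Option.some.injEq]
          constructor
          · rintro (h | h)
            · exact h.2
            · exact h ▸ ha
          · intro h
            by_cases hx : x = a
            · exact Or.inr hx.symm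
            · exact Or.inl ⟨hx, h⟩
    refine (Finset.card_le_card hsub).trans (Finset.card_image_le.trans ?_)
    rw [Finset.card_product, pow_succ]
    refine Nat.mul_le_mul ih ?_
    refine (Finset.card_insert_le _ _).trans ?_
    exact Nat.add_le_add_right Finset.card_image_le 1

section

variable (δ : Q → A → C → Q × C × ℤ) (q0 : Q) (c0 : C)

/-- some boundary among `D` consecutive ones is crossed at most `N / D` times -/
theorem exists_few_crossings (hδ : ∀ q a r, |(δ q a r).2.2| ≤ 1) (w : List A) (b0 : ℤ) (D : ℕ) (hD : 0 < D) :
    ∃ b, b0 ≤ b ∧ b < b0 + D ∧ (record δ q0 c0 w b).card ≤ w.length / D := by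
  classical
  by_contra hcon
  push Not at hcon
  have h1 : ∀ b ∈ Finset.Ico b0 (b0 + D), w.length / D + 1 ≤ (record δ q0 c0 w b).card := by
    intro b hb
    rw [Finset.mem_Ico] at hb
    have := hcon b hb.1 hb.2
    omega
  have h2 := Finset.card_nsmul_le_sum _ _ _ h1
  have h3 : (Finset.Ico b0 (b0 + D)).card = D := by simp
  rw [h3] at h2
  have h4 : ∑ b ∈ Finset.Ico b0 (b0 + D), (record δ q0 c0 w b).card ≤ w.length := by
    have h5 : ∀ b ∈ Finset.Ico b0 (b0 + D), (record δ q0 c0 w b).card ≤
        ∑ t ∈ Finset.range w.length,
          (if ¬ (pos δ q0 c0 (w.take t) ≤ b ↔ pos δ q0 c0 (w.take (t + 1)) ≤ b) then 1 else 0) := by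
      intro b _
      unfold record
      refine Finset.card_image_le.trans ?_
      rw [Finset.card_filter]
    refine (Finset.sum_le_sum h5).trans ?_
    rw [Finset.sum_comm]
    have h6 : ∀ t ∈ Finset.range w.length, ∑ b ∈ Finset.Ico b0 (b0 + D),
        (if ¬ (pos δ q0 c0 (w.take t) ≤ b ↔ pos δ q0 c0 (w.take (t + 1)) ≤ b) then 1 else 0) ≤ 1 := by
      intro t ht
      rw [Finset.mem_range] at ht
      rw [← Finset.card_filter, Finset.card_le_one]
      have h7 := abs_le.1 (pos_take_succ δ q0 c0 hδ w t ht)
      intro a ha b hb
      rw [Finset.mem_filter] at ha hb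
      have ha' := ha.2
      have hb' := hb.2
      by_cases k1 : pos δ q0 c0 (w.take t) ≤ a <;> by_cases k2 : pos δ q0 c0 (w.take (t + 1)) ≤ a <;>
        by_cases k3 : pos δ q0 c0 (w.take t) ≤ b <;> by_cases k4 : pos δ q0 c0 (w.take (t + 1)) ≤ b <;>
        simp only [k1, k2, k3, k4, iff_self, not_true_eq_false] at ha' hb' <;> omega
    refine (Finset.sum_le_sum h6).trans ?_
    simp
  have h8 : w.length < D * (w.length / D + 1) := by
    have := Nat.lt_mul_div_succ w.length hD
    exact this
  rw [smul_eq_mul] at h2
  omega

theorem getElem?_mid (p x x' r : List A) (hx : x.length = x'.length) (t : ℕ)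
    (h : t < p.length ∨ p.length + x.length ≤ t) : (p ++ x ++ r)[t]? = (p ++ x' ++ r)[t]? := by
  rw [List.append_assoc, List.append_assoc]
  rcases h with h | h
  · rw [List.getElem?_append_left h, List.getElem?_append_left h]
  · rw [List.getElem?_append_right (by omega), List.getElem?_append_right (by omega),
      List.getElem?_append_right (by omega), List.getElem?_append_right (by omega), hx]

/-- the number of keys -/
def keys (N D nQ : ℕ) : ℕ := 2 * ((2 * N + 1) * (N * (nQ * (2 * N + 1)) + 1) ^ (N / D))

/-- few blocks can be carried far away -/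
theorem few_bad [Fintype Q] (F : Set Q) (hδ : ∀ q a r, |(δ q a r).2.2| ≤ 1) {U : Type} [Fintype U]
    (blk : U → List A) (d : ℕ) (hblk : ∀ u, (blk u).length = d) (p q z : List A) (D N : ℕ) (hD : 0 < D)
    (hN : p.length + d + q.length + d + z.length ≤ N)
    (hacc : ∀ u, (conf δ q0 c0 (p ++ blk u ++ q ++ blk u ++ z)).1 ∈ F)
    (hrej : ∀ u u', u ≠ u' → (conf δ q0 c0 (p ++ blk u ++ q ++ blk u' ++ z)).1 ∉ F)
    (B : Finset U) (hB : ∀ u ∈ B, ((2 * d + D : ℕ) : ℤ) < |pos δ q0 c0 (p ++ blk u ++ q) - pos δ q0 c0 p|) :
    B.card ≤ keys N D (Fintype.card Q) := by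
  classical
  set W : U → List A := fun u => p ++ blk u ++ q ++ blk u ++ z with hW
  have hlen : ∀ u, (W u).length = p.length + d + q.length + d + z.length := by
    intro u
    simp only [hW, List.length_append, hblk]
  have hposp := pos_append δ q0 c0 hδ [] p
  rw [List.nil_append, pos_nil, sub_zero] at hposp
  -- the choice of the boundary
  have hex : ∀ u ∈ B, ∃ x : Bool × ℤ, x.2 ∈ Finset.Icc (-(N : ℤ)) N ∧
      (record δ q0 c0 (W u) x.2).card ≤ N / D ∧
      (∀ t < (W u).length, p.length ≤ t → t < p.length + d → (pos δ q0 c0 ((W u).take t) ≤ x.2 ↔ x.1 = true)) ∧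
      (∀ t < (W u).length, p.length + d + q.length ≤ t → t < p.length + d + q.length + d →
        ¬ (pos δ q0 c0 ((W u).take t) ≤ x.2 ↔ x.1 = true)) := by
    intro u hu
    have hbad := hB u hu
    -- positions during the first block
    have P1 : ∀ t, p.length ≤ t → t < p.length + d →
        |pos δ q0 c0 ((W u).take t) - pos δ q0 c0 p| ≤ d := by
      intro t ht1 ht2
      have h1 := pos_take_sub δ q0 c0 hδ (W u) p.length t ht1
      have h2 : (W u).take p.length = p := by
        simp only [hW, List.append_assoc]
        rw [List.take_left]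
      rw [h2] at h1
      refine h1.trans ?_
      have : t - p.length ≤ d := by omega
      exact_mod_cast this
    have P2 : ∀ t, p.length + d + q.length ≤ t → t < p.length + d + q.length + d →
        |pos δ q0 c0 ((W u).take t) - pos δ q0 c0 (p ++ blk u ++ q)| ≤ d := by
      intro t ht1 ht2
      have h1 := pos_take_sub δ q0 c0 hδ (W u) (p.length + d + q.length) t ht1
      have h2 : (W u).take (p.length + d + q.length) = p ++ blk u ++ q := by
        have h3 : p.length + d + q.length = (p ++ blk u ++ q).length := by
          simp only [List.length_append, hblk]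
        rw [h3]
        have h4 : W u = (p ++ blk u ++ q) ++ (blk u ++ z) := by
          simp only [hW, List.append_assoc]
        rw [h4, List.take_left]
      rw [h2] at h1
      refine h1.trans ?_
      have : t - (p.length + d + q.length) ≤ d := by omega
      exact_mod_cast this
    -- the displacement is at most `d + |q|`
    have hdisp : |pos δ q0 c0 (p ++ blk u ++ q) - pos δ q0 c0 p| ≤ (d + q.length : ℕ) := by
      have h1 := pos_append δ q0 c0 hδ p (blk u ++ q)
      rw [← List.append_assoc, List.length_append, hblk] at h1
      exact h1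
    have hlt : 2 * d + D < d + q.length := by
      have := hbad.trans_le hdisp
      exact_mod_cast this
    have hlenN : (W u).length / D ≤ N / D := Nat.div_le_div_right (by rw [hlen]; exact hN)
    have hp := abs_le.1 hposp
    push_cast at hbad
    rcases lt_or_ge (pos δ q0 c0 p) (pos δ q0 c0 (p ++ blk u ++ q)) with hlr | hlr
    · -- to the right
      rw [abs_of_pos (by linarith)] at hbad
      obtain ⟨b, hb1, hb2, hb3⟩ := exists_few_crossings δ q0 c0 hδ (W u) (pos δ q0 c0 p + d) D hD
      refine ⟨(true, b), ?_, hb3.trans hlenN, ?_, ?_⟩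
      · rw [Finset.mem_Icc]
        constructor
        · simp only
          omega
        · simp only
          omega
      · intro t _ ht1 ht2
        have := abs_le.1 (P1 t ht1 ht2)
        simp only [iff_true]
        linarith
      · intro t _ ht1 ht2
        have := abs_le.1 (P2 t ht1 ht2)
        simp only [iff_true, not_le]
        linarith
    · -- to the left
      rw [abs_of_nonpos (by linarith)] at hbad
      obtain ⟨b, hb1, hb2, hb3⟩ := exists_few_crossings δ q0 c0 hδ (W u) (pos δ q0 c0 p - d - D) D hD
      refine ⟨(false, b), ?_, hb3.trans hlenN, ?_, ?_⟩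
      · rw [Finset.mem_Icc]
        constructor
        · simp only
          omega
        · simp only
          omega
      · intro t _ ht1 ht2
        have := abs_le.1 (P1 t ht1 ht2)
        simp only [Bool.false_eq_true, iff_false, not_le]
        linarith
      · intro t _ ht1 ht2
        have := abs_le.1 (P2 t ht1 ht2)
        simp only [Bool.false_eq_true, iff_false, not_not]
        linarith
  choose! x hx1 hx2 hx3 hx4 using hex
  -- the key
  set X : Finset (ℕ × Q × ℤ) := (Finset.range N) ×ˢ ((Finset.univ : Finset Q) ×ˢ (Finset.Icc (-(N : ℤ)) N)) with hX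
  have hmaps : ∀ u ∈ B, ((x u).1, (x u).2, record δ q0 c0 (W u) (x u).2) ∈
      (Finset.univ : Finset Bool) ×ˢ ((Finset.Icc (-(N : ℤ)) N) ×ˢ
        (X.powerset.filter (fun S => S.card ≤ N / D))) := by
    intro u hu
    rw [Finset.mem_product, Finset.mem_product, Finset.mem_filter, Finset.mem_powerset]
    refine ⟨Finset.mem_univ _, hx1 u hu, ?_, hx2 u hu⟩
    intro y hy
    rw [mem_record] at hy
    rw [hX, Finset.mem_product, Finset.mem_product, Finset.mem_range, Finset.mem_Icc]
    have h1 := hy.1
    rw [hlen] at h1
    refine ⟨by omega, Finset.mem_univ _, ?_⟩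
    have h2 := pos_take_sub δ q0 c0 hδ (W u) 0 (y.1 + 1) (by omega)
    rw [List.take_zero, pos_nil, sub_zero, hy.2.2.2] at h2
    have h3 := abs_le.1 h2
    constructor
    · refine le_trans ?_ h3.1
      omega
    · refine h3.2.trans ?_
      omega
  have hinj : Set.InjOn (fun u => ((x u).1, (x u).2, record δ q0 c0 (W u) (x u).2)) B := by
    intro u hu u' hu' he
    simp only [Prod.mk.injEq] at he
    obtain ⟨e1, e2, e3⟩ := he
    by_contra hne
    have hrec : record δ q0 c0 (W u) (x u).2 = record δ q0 c0 (W u') (x u).2 := by
      rw [e3, e2]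
    have hl2 : (p ++ blk u ++ q ++ blk u' ++ z).length = (W u).length := by
      rw [hlen]
      simp only [List.length_append, hblk]
    have hf := fool δ q0 c0 (w := W u) (w' := W u') (w'' := p ++ blk u ++ q ++ blk u' ++ z)
      (by rw [hlen, hlen]) hl2 hrec (x u).1 ?_ ?_
    · rcases hf with hf | hf
      · exact hrej u u' hne (hf ▸ hacc u)
      · exact hrej u u' hne (hf ▸ hacc u')
    · intro t ht hc
      -- the two words differ only in the second block
      have h1 : t < (p ++ blk u ++ q).length ∨ (p ++ blk u ++ q).length + (blk u').length ≤ t := by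
        by_contra hh
        push Not at hh
        simp only [List.length_append, hblk] at hh
        exact hx4 u hu t ht (by omega) (by omega) hc
      exact getElem?_mid (p ++ blk u ++ q) (blk u') (blk u) z (by rw [hblk, hblk]) t h1
    · intro t ht hc
      have h1 : t < p.length ∨ p.length + (blk u).length ≤ t := by
        by_contra hh
        push Not at hh
        simp only [hblk] at hh
        exact hc (hx3 u hu t ht (by omega) (by omega))
      have := getElem?_mid p (blk u) (blk u') (q ++ blk u' ++ z) (by rw [hblk, hblk]) t h1
      simpa only [hW, List.append_assoc] using this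
  have hcard := Finset.card_le_card_of_injOn _ hmaps hinj
  refine hcard.trans ?_
  rw [Finset.card_product, Finset.card_product]
  have c1 : (Finset.Icc (-(N : ℤ)) N).card = 2 * N + 1 := by
    rw [Int.card_Icc]
    omega
  have c2 : X.card = N * (Fintype.card Q * (2 * N + 1)) := by
    rw [hX, Finset.card_product, Finset.card_product, c1, Finset.card_range, Finset.card_univ]
  have c3 := small_subsets X (N / D)
  rw [c2] at c3
  rw [c1, Finset.card_univ, Fintype.card_bool, keys]
  exact Nat.mul_le_mul_left _ (Nat.mul_le_mul_left _ c3)

end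

end Pool.Agent.Helper81.RT
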