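import Pool.Agent.Helper81.RT.Base

/-!
# Cut and paste for machines with one work tape (MP_eaa19d_lc)
-/

set_option autoImplicit false

namespace Pool.Agent.Helper81.RT

variable {Q A C : Type}

section runs

variable (δ : Q → A → C → Q × C × ℤ) (q0 : Q) (c0 : C)

theorem pos_nil : pos δ q0 c0 [] = 0 := rfl

variable (hδ : ∀ q a r, |(δ q a r).2.2| ≤ 1)

include hδ

theorem pos_take_succ (w : List A) (t : ℕ) (h : t < w.length) :
    |pos δ q0 c0 (w.take (t + 1)) - pos δ q0 c0 (w.take t)| ≤ 1 := by
  unfold pos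
  rw [conf_take_succ _ _ _ _ _ h]
  simp only [step, add_sub_cancel_left]
  exact hδ _ _ _

theorem foldl_pos (w : List A) : ∀ c : Q × (ℤ → C) × ℤ,
    |(w.foldl (step δ) c).2.2 - c.2.2| ≤ w.length := by
  induction w with
  | nil => intro c; simp
  | cons a w ih =>
    intro c
    rw [List.foldl_cons]
    have h1 := ih (step δ c a)
    have h2 : |(step δ c a).2.2 - c.2.2| ≤ 1 := by
      simp only [step, add_sub_cancel_left]
      exact hδ _ _ _
    have h3 := abs_sub_le ((w.foldl (step δ) (step δ c a)).2.2) ((step δ c a).2.2) c.2.2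
    push_cast [List.length_cons]
    linarith

theorem pos_append (w v : List A) : |pos δ q0 c0 (w ++ v) - pos δ q0 c0 w| ≤ v.length := by
  unfold pos
  rw [conf_append]
  exact foldl_pos δ hδ v _

/-- the head moves slowly -/
theorem pos_take_sub (w : List A) (t t' : ℕ) (h : t ≤ t') :
    |pos δ q0 c0 (w.take t') - pos δ q0 c0 (w.take t)| ≤ (t' - t : ℕ) := by
  have h1 : w.take t' = w.take t ++ (w.take t').drop t := by
    have : w.take t = (w.take t').take t := by rw [List.take_take, min_eq_left h]
    rw [this, List.take_append_drop]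
  rw [h1]
  refine (pos_append δ q0 c0 hδ _ _).trans ?_
  have h2 : ((w.take t').drop t).length ≤ t' - t := by
    rw [List.length_drop, List.length_take]
    omega
  exact_mod_cast h2

/-- cells which are never visited are blank -/
theorem tape_blank (w : List A) (i : ℤ) (h : ∀ t < w.length, pos δ q0 c0 (w.take t) ≠ i) :
    (conf δ q0 c0 w).2.1 i = c0 := by
  have key : ∀ t ≤ w.length, (conf δ q0 c0 (w.take t)).2.1 i = c0 := by
    intro t
    induction t with
    | zero => intro _; rfl
    | succ t ih =>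
      intro ht
      rw [conf_take_succ _ _ _ _ _ ht]
      simp only [step]
      have hne : i ≠ (conf δ q0 c0 (w.take t)).2.2 := Ne.symm (h t ht)
      rw [Function.update_of_ne hne]
      exact ih (by omega)
  have := key w.length le_rfl
  rwa [List.take_length] at this

end runs

/-- cut and paste -/
theorem cut (δ : Q → A → C → Q × C × ℤ) (q0 : Q) (c0 : C) (S : Set ℤ) (w w' w'' : List A)
    (hl' : w'.length = w.length) (hl'' : w''.length = w.length)
    (hside : ∀ t ≤ w.length, (pos δ q0 c0 (w.take t) ∈ S ↔ pos δ q0 c0 (w'.take t) ∈ S))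
    (hcross : ∀ t < w.length, ¬ (pos δ q0 c0 (w.take t) ∈ S ↔ pos δ q0 c0 (w.take (t + 1)) ∈ S) →
      (conf δ q0 c0 (w.take (t + 1))).1 = (conf δ q0 c0 (w'.take (t + 1))).1 ∧
      pos δ q0 c0 (w.take (t + 1)) = pos δ q0 c0 (w'.take (t + 1)))
    (h1 : ∀ t < w.length, pos δ q0 c0 (w.take t) ∈ S → w''[t]? = w[t]?)
    (h2 : ∀ t < w.length, pos δ q0 c0 (w.take t) ∉ S → w''[t]? = w'[t]?) :
    ∀ t ≤ w.length,
      (pos δ q0 c0 (w.take t) ∈ S → (conf δ q0 c0 (w''.take t)).1 = (conf δ q0 c0 (w.take t)).1 ∧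
        pos δ q0 c0 (w''.take t) = pos δ q0 c0 (w.take t)) ∧
      (pos δ q0 c0 (w.take t) ∉ S → (conf δ q0 c0 (w''.take t)).1 = (conf δ q0 c0 (w'.take t)).1 ∧
        pos δ q0 c0 (w''.take t) = pos δ q0 c0 (w'.take t)) ∧
      (∀ i ∈ S, (conf δ q0 c0 (w''.take t)).2.1 i = (conf δ q0 c0 (w.take t)).2.1 i) ∧
      (∀ i ∉ S, (conf δ q0 c0 (w''.take t)).2.1 i = (conf δ q0 c0 (w'.take t)).2.1 i) := by
  intro t
  induction t with
  | zero =>
    intro _
    refine ⟨fun _ => ⟨?_, ?_⟩, fun _ => ⟨?_, ?_⟩, fun _ _ => ?_, fun _ _ => ?_⟩ <;> simp only [List.take_zero]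
  | succ t ih =>
    intro ht
    obtain ⟨i1, i2, i3, i4⟩ := ih (by omega)
    have ht' : t < w'.length := by omega
    have ht'' : t < w''.length := by omega
    have e := conf_take_succ δ q0 c0 w t ht
    have e' := conf_take_succ δ q0 c0 w' t ht'
    have e'' := conf_take_succ δ q0 c0 w'' t ht''
    by_cases hS : pos δ q0 c0 (w.take t) ∈ S
    · -- the head is in `S` : as in `w`
      obtain ⟨j1, j2⟩ := i1 hS
      have hS' := (hside t (by omega)).1 hS
      have hlet : w''[t] = w[t] := by
        have := h1 t ht hS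
        rw [List.getElem?_eq_getElem ht'', List.getElem?_eq_getElem ht] at this
        exact Option.some.inj this
      have hread : (conf δ q0 c0 (w''.take t)).2.1 (conf δ q0 c0 (w''.take t)).2.2 =
          (conf δ q0 c0 (w.take t)).2.1 (conf δ q0 c0 (w.take t)).2.2 := by
        have j2' : (conf δ q0 c0 (w''.take t)).2.2 = (conf δ q0 c0 (w.take t)).2.2 := j2
        rw [j2']
        exact i3 _ hS
      have j2' : (conf δ q0 c0 (w''.take t)).2.2 = (conf δ q0 c0 (w.take t)).2.2 := j2
      have st : (conf δ q0 c0 (w''.take (t + 1))).1 = (conf δ q0 c0 (w.take (t + 1))).1 := by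
        rw [e'', e]
        simp only [step]
        rw [hread, hlet, j1]
      have ps : pos δ q0 c0 (w''.take (t + 1)) = pos δ q0 c0 (w.take (t + 1)) := by
        unfold pos
        rw [e'', e]
        simp only [step]
        rw [hread, hlet, j1, j2']
      refine ⟨fun _ => ⟨st, ps⟩, ?_, ?_, ?_⟩
      · intro hS1
        have hc := hcross t ht (by
          intro hh
          exact hS1 (hh.1 hS))
        exact ⟨st.trans hc.1, ps.trans hc.2⟩
      · intro i hi
        rw [e'', e]
        simp only [step]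
        rw [hread, hlet, j1, j2']
        simp only [Function.update_apply]
        split_ifs
        · rfl
        · exact i3 i hi
      · intro i hi
        rw [e'', e']
        simp only [step]
        have k1 : i ≠ (conf δ q0 c0 (w''.take t)).2.2 := by
          rw [j2']
          intro hh
          exact hi (hh ▸ hS)
        have k2 : i ≠ (conf δ q0 c0 (w'.take t)).2.2 := by
          intro hh
          exact hi (hh ▸ hS')
        rw [Function.update_of_ne k1, Function.update_of_ne k2]
        exact i4 i hi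
    · -- the head is outside `S` : as in `w'`
      obtain ⟨j1, j2⟩ := i2 hS
      have hS' : pos δ q0 c0 (w'.take t) ∉ S := fun hh => hS ((hside t (by omega)).2 hh)
      have hlet : w''[t] = w'[t] := by
        have := h2 t ht hS
        rw [List.getElem?_eq_getElem ht'', List.getElem?_eq_getElem ht'] at this
        exact Option.some.inj this
      have j2' : (conf δ q0 c0 (w''.take t)).2.2 = (conf δ q0 c0 (w'.take t)).2.2 := j2
      have hread : (conf δ q0 c0 (w''.take t)).2.1 (conf δ q0 c0 (w''.take t)).2.2 =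
          (conf δ q0 c0 (w'.take t)).2.1 (conf δ q0 c0 (w'.take t)).2.2 := by
        rw [j2']
        exact i4 _ hS'
      have st : (conf δ q0 c0 (w''.take (t + 1))).1 = (conf δ q0 c0 (w'.take (t + 1))).1 := by
        rw [e'', e']
        simp only [step]
        rw [hread, hlet, j1]
      have ps : pos δ q0 c0 (w''.take (t + 1)) = pos δ q0 c0 (w'.take (t + 1)) := by
        unfold pos
        rw [e'', e']
        simp only [step]
        rw [hread, hlet, j1, j2']
      refine ⟨?_, fun _ => ⟨st, ps⟩, ?_, ?_⟩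
      · intro hS1
        have hc := hcross t ht (by
          intro hh
          exact hS (hh.2 hS1))
        exact ⟨st.trans hc.1.symm, ps.trans hc.2.symm⟩
      · intro i hi
        rw [e'', e]
        simp only [step]
        have k1 : i ≠ (conf δ q0 c0 (w''.take t)).2.2 := by
          rw [j2']
          rintro rfl
          exact hS' hi
        have k2 : i ≠ (conf δ q0 c0 (w.take t)).2.2 := by
          rintro rfl
          exact hS hi
        rw [Function.update_of_ne k1, Function.update_of_ne k2]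
        exact i3 i hi
      · intro i hi
        rw [e'', e']
        simp only [step]
        rw [hread, hlet, j1, j2']
        simp only [Function.update_apply]
        split_ifs
        · rfl
        · exact i4 i hi

/-! ### crossing records -/

section record

variable (δ : Q → A → C → Q × C × ℤ) (q0 : Q) (c0 : C)

open Classical in
/-- the record of the crossings of the boundary between the cells `b` and `b + 1` -/
noncomputable def record (w : List A) (b : ℤ) : Finset (ℕ × Q × ℤ) :=
  ((Finset.range w.length).filter (fun t => ¬ (pos δ q0 c0 (w.take t) ≤ b ↔ pos δ q0 c0 (w.take (t + 1)) ≤ b))).image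
    (fun t => (t, (conf δ q0 c0 (w.take (t + 1))).1, pos δ q0 c0 (w.take (t + 1))))

open Classical in
theorem mem_record {w : List A} {b : ℤ} {x : ℕ × Q × ℤ} : x ∈ record δ q0 c0 w b ↔
    x.1 < w.length ∧ ¬ (pos δ q0 c0 (w.take x.1) ≤ b ↔ pos δ q0 c0 (w.take (x.1 + 1)) ≤ b) ∧
      (conf δ q0 c0 (w.take (x.1 + 1))).1 = x.2.1 ∧ pos δ q0 c0 (w.take (x.1 + 1)) = x.2.2 := by
  unfold record
  rw [Finset.mem_image]
  constructor
  · rintro ⟨t, ht, rfl⟩
    rw [Finset.mem_filter, Finset.mem_range] at ht
    exact ⟨ht.1, ht.2, rfl, rfl⟩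
  · rintro ⟨h1, h2, h3, h4⟩
    refine ⟨x.1, by rw [Finset.mem_filter, Finset.mem_range]; exact ⟨h1, h2⟩, ?_⟩
    rw [h3, h4]

/-- equal records: equal sides -/
theorem side_of_record {w w' : List A} (hl : w'.length = w.length) {b : ℤ}
    (h : record δ q0 c0 w b = record δ q0 c0 w' b) :
    ∀ t ≤ w.length, (pos δ q0 c0 (w.take t) ≤ b ↔ pos δ q0 c0 (w'.take t) ≤ b) := by
  intro t
  induction t with
  | zero => intro _; simp only [List.take_zero]
  | succ t ih =>
    intro ht
    have i := ih (by omega)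
    by_cases hc : (pos δ q0 c0 (w.take t) ≤ b ↔ pos δ q0 c0 (w.take (t + 1)) ≤ b)
    · by_cases hc' : (pos δ q0 c0 (w'.take t) ≤ b ↔ pos δ q0 c0 (w'.take (t + 1)) ≤ b)
      · rw [← hc, ← hc']
        exact i
      · exfalso
        have hm : ((t, (conf δ q0 c0 (w'.take (t + 1))).1, pos δ q0 c0 (w'.take (t + 1))) : ℕ × Q × ℤ) ∈
            record δ q0 c0 w' b := (mem_record δ q0 c0).2 ⟨by simp only; omega, hc', rfl, rfl⟩
        rw [← h] at hm
        exact ((mem_record δ q0 c0).1 hm).2.1 hc
    · by_cases hc' : (pos δ q0 c0 (w'.take t) ≤ b ↔ pos δ q0 c0 (w'.take (t + 1)) ≤ b)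
      · exfalso
        have hm : ((t, (conf δ q0 c0 (w.take (t + 1))).1, pos δ q0 c0 (w.take (t + 1))) : ℕ × Q × ℤ) ∈
            record δ q0 c0 w b := (mem_record δ q0 c0).2 ⟨by simp only; omega, hc, rfl, rfl⟩
        rw [h] at hm
        exact ((mem_record δ q0 c0).1 hm).2.1 hc'
      · tauto

theorem cross_of_record {w w' : List A} {b : ℤ}
    (h : record δ q0 c0 w b = record δ q0 c0 w' b) (t : ℕ) (ht : t < w.length)
    (hc : ¬ (pos δ q0 c0 (w.take t) ≤ b ↔ pos δ q0 c0 (w.take (t + 1)) ≤ b)) :
    (conf δ q0 c0 (w.take (t + 1))).1 = (conf δ q0 c0 (w'.take (t + 1))).1 ∧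
      pos δ q0 c0 (w.take (t + 1)) = pos δ q0 c0 (w'.take (t + 1)) := by
  have hm : ((t, (conf δ q0 c0 (w.take (t + 1))).1, pos δ q0 c0 (w.take (t + 1))) : ℕ × Q × ℤ) ∈
      record δ q0 c0 w b := (mem_record δ q0 c0).2 ⟨ht, hc, rfl, rfl⟩
  rw [h] at hm
  have := (mem_record δ q0 c0).1 hm
  exact ⟨this.2.2.1.symm, this.2.2.2.symm⟩

/-- the fooling lemma: two inputs with equal records of a boundary which separates the two blocks -/
theorem fool {w w' w'' : List A} (hl' : w'.length = w.length) (hl'' : w''.length = w.length) {b : ℤ}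
    (h : record δ q0 c0 w b = record δ q0 c0 w' b) (left : Bool)
    (h1 : ∀ t < w.length, (pos δ q0 c0 (w.take t) ≤ b ↔ left = true) → w''[t]? = w[t]?)
    (h2 : ∀ t < w.length, ¬ (pos δ q0 c0 (w.take t) ≤ b ↔ left = true) → w''[t]? = w'[t]?) :
    (conf δ q0 c0 w'').1 = (conf δ q0 c0 w).1 ∨ (conf δ q0 c0 w'').1 = (conf δ q0 c0 w').1 := by
  have key := cut δ q0 c0 {i | i ≤ b ↔ left = true} w w' w'' hl' hl'' ?_ ?_ ?_ ?_ w.length le_rfl
  · rw [List.take_length, ← hl'', List.take_length, hl'', ← hl', List.take_length] at key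
    by_cases hS : pos δ q0 c0 w ∈ {i | i ≤ b ↔ left = true}
    · exact Or.inl (key.1 hS).1
    · exact Or.inr (key.2.1 hS).1
  · intro t ht
    have := side_of_record δ q0 c0 hl' h t ht
    show (_ ↔ _) ↔ (_ ↔ _)
    tauto
  · intro t ht hc
    refine cross_of_record δ q0 c0 h t ht ?_
    change ¬ ((_ ↔ _) ↔ (_ ↔ _)) at hc
    tauto
  · exact h1
  · exact h2

end record

end Pool.Agent.Helper81.RT
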