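import Pool.Agent.Helper81.RT.Stack2

/-!
# Machines with a finite family of stacks with their own symbols (MP_eaa19d_lc)
-/

set_option autoImplicit false

namespace Pool.Agent.Helper81.RT

variable {Q A I : Type} {Γ : I → Type}

/-- one step of a machine with a family of stacks which sees and replaces the top `c` symbols of each stack -/
def dstep (c : ℕ) (δ : Q → A → ((i : I) → List (Γ i)) → Q × ((i : I) → List (Γ i)))
    (x : Q × ((i : I) → List (Γ i))) (a : A) : Q × ((i : I) → List (Γ i)) :=
  ((δ x.1 a (fun i => (x.2 i).take c)).1,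
    fun i => (δ x.1 a (fun i => (x.2 i).take c)).2 i ++ (x.2 i).drop c)

open Classical in
/-- the part of a list with index `i` -/
noncomputable def dec (l : List (Σ i, Γ i)) (i : I) : List (Γ i) :=
  l.filterMap (fun x => if h : x.1 = i then some (h ▸ x.2) else none)

theorem dec_map (i : I) (l : List (Γ i)) : dec (l.map (Sigma.mk i)) i = l := by
  classical
  unfold dec
  rw [List.filterMap_map]
  have : ((fun x : Σ i, Γ i => if h : x.1 = i then some (h ▸ x.2 : Γ i) else none) ∘ Sigma.mk i) = some := by
    funext x
    simp
  rw [this, List.filterMap_some]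

theorem dec_map' {i j : I} (h : j = i) (s : (i : I) → List (Γ i)) : dec ((s j).map (Sigma.mk j)) i = s i := by
  subst h
  exact dec_map j (s j)

theorem realTime_of_dstack [Finite Q] [Finite I] [∀ i, Finite (Γ i)] (c : ℕ) (L : Set (List A)) (q0 : Q)
    (F : Set (Q × ((i : I) → List (Γ i)))) (δ : Q → A → ((i : I) → List (Γ i)) → Q × ((i : I) → List (Γ i)))
    (hδ : ∀ q a t i, ((δ q a t).2 i).length ≤ 2 * c)
    (hL : ∀ w : List A, w ∈ L ↔ ((w.foldl (dstep c δ) (q0, fun _ => [])).1,
      fun i => ((w.foldl (dstep c δ) (q0, fun _ => [])).2 i).take c) ∈ F) : RealTimeK (Nat.card I) A L := by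
  classical
  let e : I ≃ Fin (Nat.card I) := Finite.equivFin I
  let δu : Q → A → (Fin (Nat.card I) → List (Σ i, Γ i)) → Q × (Fin (Nat.card I) → List (Σ i, Γ i)) :=
    fun q a t => ((δ q a (fun i => dec (t (e i)) i)).1,
      fun j => ((δ q a (fun i => dec (t (e i)) i)).2 (e.symm j)).map (Sigma.mk (e.symm j)))
  refine realTime_of_stack (k := Nat.card I) (Γ := Σ i, Γ i) c L q0 (fun _ => [])
    {x | (x.1, fun i => dec (x.2 (e i)) i) ∈ F} δu ?_ ?_ ?_
  · intro q a t j
    simp only [δu, List.length_map]
    exact hδ _ _ _ _
  · intro i; simp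
  · intro w
    rw [hL]
    have key : ∀ (w : List A) (x : Q × ((i : I) → List (Γ i))),
        w.foldl (sstep c δu) (x.1, fun j => (x.2 (e.symm j)).map (Sigma.mk (e.symm j))) =
        ((w.foldl (dstep c δ) x).1, fun j => ((w.foldl (dstep c δ) x).2 (e.symm j)).map (Sigma.mk (e.symm j))) := by
      intro w
      induction w with
      | nil => intro x; rfl
      | cons a w ih =>
        intro x
        rw [List.foldl_cons, List.foldl_cons, ← ih]
        congr 1
        have e1 : (fun i => dec (((x.2 (e.symm (e i))).map (Sigma.mk (e.symm (e i)))).take c) i) =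
            fun i => (x.2 i).take c := by
          funext i
          rw [← List.map_take]
          exact dec_map' (e.symm_apply_apply i) (fun i => (x.2 i).take c)
        show ((δ x.1 a (fun i => dec (((x.2 (e.symm (e i))).map (Sigma.mk (e.symm (e i)))).take c) i)).1, _) = _
        refine Prod.ext ?_ ?_
        · simp only
          rw [e1]
          rfl
        · funext j
          show ((δ x.1 a (fun i => dec (((x.2 (e.symm (e i))).map (Sigma.mk (e.symm (e i)))).take c) i)).2
            (e.symm j)).map (Sigma.mk (e.symm j)) ++ ((x.2 (e.symm j)).map (Sigma.mk (e.symm j))).drop c = _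
          rw [e1, ← List.map_drop, ← List.map_append]
          rfl
    have h := key w (q0, fun _ => [])
    simp only [List.map_nil] at h
    rw [h]
    have e2 : (fun i => dec ((((w.foldl (dstep c δ) (q0, fun _ => [])).2 (e.symm (e i))).map
        (Sigma.mk (e.symm (e i)))).take c) i) = fun i => ((w.foldl (dstep c δ) (q0, fun _ => [])).2 i).take c := by
      funext i
      rw [← List.map_take]
      exact dec_map' (e.symm_apply_apply i) (fun i => ((w.foldl (dstep c δ) (q0, fun _ => [])).2 i).take c)
    show _ ↔ (_, (fun i => dec ((((w.foldl (dstep c δ) (q0, fun _ => [])).2 (e.symm (e i))).map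
        (Sigma.mk (e.symm (e i)))).take c) i)) ∈ F
    rw [e2]

end Pool.Agent.Helper81.RT
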