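import Mathlib

/-!
# Alternating products in a free product of two groups (MP_eaa19d_lc)
-/

set_option autoImplicit false

namespace Pool.Agent.Helper81.RT

open Monoid

/-- the family of the two groups -/
def Fam (G H : Type) : Bool → Type
  | true => G
  | false => H

noncomputable instance famGroup (G H : Type) [Group G] [Group H] : ∀ b, Group (Fam G H b)
  | true => inferInstanceAs (Group G)
  | false => inferInstanceAs (Group H)

variable {G H : Type} [Group G] [Group H]

/-- the inclusions into the indexed free product -/
noncomputable def ofG : G →* CoprodI (Fam G H) := CoprodI.of (M := Fam G H) (i := true)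

noncomputable def ofH : H →* CoprodI (Fam G H) := CoprodI.of (M := Fam G H) (i := false)

/-- the product `g_1 h g_2 h ... g_k h` -/
noncomputable def alt (h : H) (l : List G) : Coprod G H := (l.map (fun g => Coprod.inl g * Coprod.inr h)).prod

/-- the reduced word of the alternating product -/
def code (h : H) : List G → List (Σ i, Fam G H i)
  | [] => []
  | g :: l => ⟨true, g⟩ :: ⟨false, h⟩ :: code h l

theorem code_injective (h : H) : ∀ l l' : List G, code h l = code h l' → l = l'
  | [], [] => fun _ => rfl
  | [], g :: l' => fun e => by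
    have := congrArg List.length e
    simp [code] at this
  | g :: l, [] => fun e => by
    have := congrArg List.length e
    simp [code] at this
  | g :: l, g' :: l' => fun e => by
    have e1 : (⟨true, g⟩ : Σ i, Fam G H i) = ⟨true, g'⟩ := (List.cons.inj e).1
    have e2 := (List.cons.inj (List.cons.inj e).2).2
    have e3 : g = g' := eq_of_heq (Sigma.mk.inj e1).2
    rw [e3, code_injective h l l' e2]

theorem alt_word (h : H) (hh : h ≠ 1) (l : List G) (hl : ∀ g ∈ l, g ≠ 1) :
    ∃ W : CoprodI.Word (Fam G H), W.fstIdx ≠ some false ∧ W.toList = code h l ∧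
      W.prod = (l.map (fun g => ofG g * ofH h)).prod := by
  induction l with
  | nil => exact ⟨CoprodI.Word.empty, by simp [CoprodI.Word.fstIdx], rfl, rfl⟩
  | cons g l ih =>
    obtain ⟨W, h1, h2, h3⟩ := ih (fun g' hg' => hl g' (List.mem_cons_of_mem _ hg'))
    have hg : g ≠ 1 := hl g List.mem_cons_self
    let W1 : CoprodI.Word (Fam G H) := CoprodI.Word.cons (i := false) h W h1 hh
    have hW1 : W1.fstIdx ≠ some true := by
      rw [CoprodI.Word.fstIdx_cons]
      simp
    let W2 : CoprodI.Word (Fam G H) := CoprodI.Word.cons (i := true) g W1 hW1 hg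
    refine ⟨W2, ?_, ?_, ?_⟩
    · rw [CoprodI.Word.fstIdx_cons]
      simp
    · show (⟨true, g⟩ : Σ i, Fam G H i) :: (⟨false, h⟩ : Σ i, Fam G H i) :: W.toList = _
      rw [h2]
      rfl
    · rw [CoprodI.Word.prod_cons, CoprodI.Word.prod_cons, h3, List.map_cons, List.prod_cons, mul_assoc]
      rfl

/-- the alternating product determines the list -/
theorem alt_injective (h : H) (hh : h ≠ 1) {l l' : List G} (hl : ∀ g ∈ l, g ≠ 1) (hl' : ∀ g ∈ l', g ≠ 1)
    (e : alt h l = alt h l') : l = l' := by
  classical
  obtain ⟨W, -, h2, h3⟩ := alt_word h hh l hl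
  obtain ⟨W', -, h2', h3'⟩ := alt_word h hh l' hl'
  have key : ∀ l : List G, Coprod.lift ofG ofH (alt h l) = (l.map (fun g => ofG g * ofH h)).prod := by
    intro l
    unfold alt
    rw [map_list_prod, List.map_map]
    congr 1
  have e1 : W.prod = W'.prod := by rw [h3, h3', ← key, ← key, e]
  have e2 : W = W' := CoprodI.Word.equiv.symm.injective e1
  exact code_injective h l l' (by rw [← h2, ← h2', e2])

end Pool.Agent.Helper81.RT
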