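import Pool.Agent.Helper81.RT.Free

/-!
# Alternating products in a free product of two groups, II (MP_eaa19d_lc)
-/

set_option autoImplicit false

namespace Pool.Agent.Helper81.RT

open Monoid

variable {G H : Type} [Group G] [Group H]

/-- the product of the levels below the top; the list starts with the highest level -/
noncomputable def low (zs : List (G × H)) : Coprod G H :=
  (zs.reverse.map (fun e => Coprod.inl e.1 * Coprod.inr e.2)).prod

theorem low_nil : low ([] : List (G × H)) = 1 := rfl

theorem low_cons (e : G × H) (zs : List (G × H)) : low (e :: zs) = low zs * (Coprod.inl e.1 * Coprod.inr e.2) := by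
  unfold low
  rw [List.reverse_cons, List.map_append, List.prod_append]
  simp

theorem tail_word (g : G) (l : List (G × H)) (h1 : ∀ e ∈ l, e.1 ≠ 1) (h2 : ∀ e ∈ l, e.2 ≠ 1) :
    ∃ W : CoprodI.Word (Fam G H), W.fstIdx ≠ some false ∧
      W.prod = (l.map (fun e => ofG e.1 * ofH e.2)).prod * ofG g := by
  classical
  induction l with
  | nil =>
    by_cases hg : g = 1
    · subst hg
      refine ⟨CoprodI.Word.empty, by simp [CoprodI.Word.fstIdx], ?_⟩
      rw [map_one]
      simp
    · refine ⟨CoprodI.Word.cons (i := true) g CoprodI.Word.empty (by simp [CoprodI.Word.fstIdx]) hg, ?_, ?_⟩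
      · rw [CoprodI.Word.fstIdx_cons]
        simp
      · rw [CoprodI.Word.prod_cons, CoprodI.Word.prod_empty, mul_one]
        simp only [List.map_nil, List.prod_nil, one_mul]
        rfl
  | cons e l ih =>
    obtain ⟨W, w1, w2⟩ := ih (fun e' he' => h1 e' (List.mem_cons_of_mem _ he'))
      (fun e' he' => h2 e' (List.mem_cons_of_mem _ he'))
    let W1 : CoprodI.Word (Fam G H) := CoprodI.Word.cons (i := false) e.2 W w1 (h2 e List.mem_cons_self)
    have hW1 : W1.fstIdx ≠ some true := by
      rw [CoprodI.Word.fstIdx_cons]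
      simp
    let W2 : CoprodI.Word (Fam G H) := CoprodI.Word.cons (i := true) e.1 W1 hW1 (h1 e List.mem_cons_self)
    refine ⟨W2, ?_, ?_⟩
    · rw [CoprodI.Word.fstIdx_cons]
      simp
    · rw [CoprodI.Word.prod_cons, CoprodI.Word.prod_cons, w2, List.map_cons, List.prod_cons]
      simp only [mul_assoc]
      rfl

theorem low_mul_ne_one (zs : List (G × H)) (hz : zs ≠ []) (h2 : ∀ e ∈ zs, e.2 ≠ 1)
    (h1 : ∀ e ∈ zs.dropLast, e.1 ≠ 1) (g : G) : low zs * Coprod.inl g ≠ 1 := by
  classical
  rcases List.eq_nil_or_concat zs with e | ⟨l, b, e⟩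
  · exact absurd e hz
  · rw [List.concat_eq_append] at e
    subst e
    rw [List.dropLast_concat] at h1
    obtain ⟨W, w1, w2⟩ := tail_word g l.reverse (fun e he => h1 e (List.mem_reverse.1 he))
      (fun e he => h2 e (List.mem_append_left _ (List.mem_reverse.1 he)))
    let W1 : CoprodI.Word (Fam G H) := CoprodI.Word.cons (i := false) b.2 W w1 (h2 b (by simp))
    have hW1 : W1.fstIdx ≠ some true := by
      rw [CoprodI.Word.fstIdx_cons]
      simp
    have hp1 : W1.prod = ofH b.2 * ((l.reverse.map (fun e => ofG e.1 * ofH e.2)).prod * ofG g) := by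
      rw [CoprodI.Word.prod_cons, w2]
      rfl
    obtain ⟨W2, hW2, hp2⟩ : ∃ W2 : CoprodI.Word (Fam G H), W2.toList ≠ [] ∧
        W2.prod = ofG b.1 * (ofH b.2 * ((l.reverse.map (fun e => ofG e.1 * ofH e.2)).prod * ofG g)) := by
      by_cases hb : b.1 = 1
      · refine ⟨W1, List.cons_ne_nil _ _, ?_⟩
        rw [hp1, hb, map_one, one_mul]
      · refine ⟨CoprodI.Word.cons (i := true) b.1 W1 hW1 hb, List.cons_ne_nil _ _, ?_⟩
        rw [CoprodI.Word.prod_cons, hp1]
        rfl
    intro e
    have e1 := congrArg (Coprod.lift (ofG (G := G) (H := H)) ofH) e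
    have key : Coprod.lift (ofG (G := G) (H := H)) ofH (low (l ++ [b]) * Coprod.inl g) = W2.prod := by
      rw [hp2, low, List.reverse_append, List.reverse_singleton, List.singleton_append, List.map_cons,
        List.prod_cons, map_mul, map_mul, map_list_prod, List.map_map, map_mul, Coprod.lift_apply_inl,
        Coprod.lift_apply_inr, Coprod.lift_apply_inl]
      simp only [mul_assoc]
      congr 4
    rw [key, map_one] at e1
    have e2 : W2 = CoprodI.Word.empty := by
      apply CoprodI.Word.equiv.symm.injective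
      show W2.prod = CoprodI.Word.prod CoprodI.Word.empty
      rw [e1, CoprodI.Word.prod_empty]
    exact hW2 (by rw [e2]; rfl)

theorem low_eq_one_iff (zs : List (G × H)) (h2 : ∀ e ∈ zs, e.2 ≠ 1)
    (h1 : ∀ e ∈ zs.dropLast, e.1 ≠ 1) (g : G) : low zs * Coprod.inl g = 1 ↔ zs = [] ∧ g = 1 := by
  constructor
  · intro e
    by_cases hz : zs = []
    · refine ⟨hz, ?_⟩
      subst hz
      rw [low_nil, one_mul] at e
      exact Coprod.inl_injective (by rw [e, map_one])
    · exact absurd e (low_mul_ne_one zs hz h2 h1 g)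
  · rintro ⟨rfl, rfl⟩
    rw [low_nil, map_one, one_mul]

end Pool.Agent.Helper81.RT
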