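import Pool.Agent.Helper81.RT.Tidy

/-!
# Stack machines: several steps at once, finitely generated subgroups (MP_eaa19d_lc)
-/

set_option autoImplicit false

namespace Pool.Agent.Helper81.RT

section loc

variable {Q A I : Type} {Γ : I → Type}

theorem foldl_dstep_append (c : ℕ) (δ : Q → A → ((i : I) → List (Γ i)) → Q × ((i : I) → List (Γ i))) :
    ∀ (u : List A) (q : Q) (S D : (i : I) → List (Γ i)), (∀ i, c * u.length ≤ (S i).length ∨ D i = []) →
      u.foldl (dstep c δ) (q, fun i => S i ++ D i) =
        ((u.foldl (dstep c δ) (q, S)).1, fun i => (u.foldl (dstep c δ) (q, S)).2 i ++ D i) := by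
  intro u
  induction u with
  | nil => intro q S D _; rfl
  | cons a u ih =>
    intro q S D h
    have h1 : ∀ i, (S i ++ D i).take c = (S i).take c := by
      intro i
      rcases h i with h2 | h2
      · rw [List.take_append_of_le_length]
        rw [List.length_cons] at h2
        nlinarith
      · rw [h2, List.append_nil]
    have h1' : ∀ i, (S i ++ D i).drop c = (S i).drop c ++ D i := by
      intro i
      rcases h i with h2 | h2
      · rw [List.drop_append_of_le_length]
        rw [List.length_cons] at h2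
        nlinarith
      · rw [h2, List.append_nil, List.append_nil]
    rw [List.foldl_cons, List.foldl_cons]
    have e : dstep c δ (q, fun i => S i ++ D i) a =
        ((dstep c δ (q, S) a).1, fun i => (dstep c δ (q, S) a).2 i ++ D i) := by
      simp only [dstep, h1, h1', List.append_assoc]
    rw [e]
    have := ih (dstep c δ (q, S) a).1 (dstep c δ (q, S) a).2 D (by
      intro i
      rcases h i with h2 | h2
      · left
        simp only [dstep, List.length_append, List.length_drop]
        rw [List.length_cons, Nat.mul_add, mul_one] at h2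
        omega
      · exact Or.inr h2)
    rw [this]

theorem foldl_dstep_length (c : ℕ) (δ : Q → A → ((i : I) → List (Γ i)) → Q × ((i : I) → List (Γ i)))
    (hδ : ∀ q a t i, ((δ q a t).2 i).length ≤ 2 * c) :
    ∀ (u : List A) (x : Q × ((i : I) → List (Γ i))) (i : I),
      ((u.foldl (dstep c δ) x).2 i).length ≤ (x.2 i).length + 2 * c * u.length := by
  intro u
  induction u with
  | nil => intro x i; simp
  | cons a u ih =>
    intro x i
    rw [List.foldl_cons]
    have h1 := ih (dstep c δ x a) i
    have h2 : ((dstep c δ x a).2 i).length ≤ (x.2 i).length + 2 * c := by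
      simp only [dstep, List.length_append, List.length_drop]
      have := hδ x.1 a (fun i => (x.2 i).take c) i
      omega
    rw [List.length_cons, Nat.mul_add, mul_one]
    omega

/-- the machine which does several steps at once -/
def multi {A' : Type} (c C : ℕ) (δ : Q → A → ((i : I) → List (Γ i)) → Q × ((i : I) → List (Γ i)))
    (τ : A' → List A) (q : Q) (x : A') (t : (i : I) → List (Γ i)) : Q × ((i : I) → List (Γ i)) :=
  (τ x).foldl (dstep c δ) (q, fun i => (t i).take C)

theorem dstep_multi {A' : Type} (c C : ℕ) (δ : Q → A → ((i : I) → List (Γ i)) → Q × ((i : I) → List (Γ i)))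
    (τ : A' → List A) (hC : ∀ x, c * (τ x).length ≤ C) (y : Q × ((i : I) → List (Γ i))) (x : A') :
    dstep C (multi c C δ τ) y x = (τ x).foldl (dstep c δ) y := by
  have e : y = (y.1, fun i => (y.2 i).take C ++ (y.2 i).drop C) := by
    refine Prod.ext rfl ?_
    funext i
    exact (List.take_append_drop _ _).symm
  conv_rhs => rw [e]
  rw [foldl_dstep_append c δ (τ x) y.1 (fun i => (y.2 i).take C) (fun i => (y.2 i).drop C)]
  · have h2 : (fun i => ((y.2 i).take C).take C) = fun i => (y.2 i).take C := by
      funext i; simp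
    simp only [dstep, multi, h2]
  · intro i
    by_cases h : C ≤ (y.2 i).length
    · left
      simp only [List.length_take]
      have := hC x
      omega
    · right
      exact List.drop_eq_nil_of_le (by omega)

end loc

/-- the word problem of `G` for some finite generating family is accepted by a tidy machine with a finite family of stacks
and bounded look-ahead -/
def StackGroup (G : Type) [Group G] : Prop :=
  ∃ (α : Type) (_ : Finite α) (f : α → G), Subgroup.closure (Set.range f) = ⊤ ∧
    ∃ (I : Type) (_ : Finite I) (Γ : I → Type) (_ : ∀ i, Finite (Γ i)) (Q : Type) (_ : Finite Q) (c : ℕ) (q0 : Q)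
      (F : Set (Q × ((i : I) → List (Γ i))))
      (δ : Q → (α ⊕ α) → ((i : I) → List (Γ i)) → Q × ((i : I) → List (Γ i))),
      0 < c ∧ (∀ q a t i, ((δ q a t).2 i).length ≤ 2 * c) ∧
      ∀ w : List (α ⊕ α), ((w.map (Sum.elim f (fun a => (f a)⁻¹))).prod = 1 ↔
        ((w.foldl (dstep c δ) (q0, fun _ => [])).1,
          fun i => ((w.foldl (dstep c δ) (q0, fun _ => [])).2 i).take c) ∈ F) ∧
        ((w.map (Sum.elim f (fun a => (f a)⁻¹))).prod = 1 →
          ∀ i, (w.foldl (dstep c δ) (q0, fun _ => [])).2 i = [])

/-- every element is the product of a word in the generators and their inverses -/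
theorem exists_word {G α : Type} [Group G] (f : α → G) (hf : Subgroup.closure (Set.range f) = ⊤) (g : G) :
    ∃ u : List (α ⊕ α), (u.map (Sum.elim f (fun a => (f a)⁻¹))).prod = g := by
  have hg : g ∈ Subgroup.closure (Set.range f) := by rw [hf]; trivial
  induction hg using Subgroup.closure_induction'' with
  | one => exact ⟨[], rfl⟩
  | mem x hx =>
    obtain ⟨a, rfl⟩ := hx
    exact ⟨[Sum.inl a], by simp⟩
  | inv_mem x hx =>
    obtain ⟨a, rfl⟩ := hx
    exact ⟨[Sum.inr a], by simp⟩
  | mul x y _ _ hx hy =>
    obtain ⟨u, rfl⟩ := hx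
    obtain ⟨v, rfl⟩ := hy
    exact ⟨u ++ v, by simp⟩

section gsm

variable {Q A A' R I : Type} {Γ : I → Type}

/-- the output of a finite transducer -/
def gsmOut (σ : R → A' → R) (τ : R → A' → List A) : R → List A' → List A
  | _, [] => []
  | ρ, x :: w => τ ρ x ++ gsmOut σ τ (σ ρ x) w

/-- the machine reading the output of a finite transducer -/
def multiG (c C : ℕ) (δ : Q → A → ((i : I) → List (Γ i)) → Q × ((i : I) → List (Γ i)))
    (σ : R → A' → R) (τ : R → A' → List A) (q : R × Q) (x : A') (t : (i : I) → List (Γ i)) :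
    (R × Q) × ((i : I) → List (Γ i)) :=
  ((σ q.1 x, ((τ q.1 x).foldl (dstep c δ) (q.2, fun i => (t i).take C)).1),
    ((τ q.1 x).foldl (dstep c δ) (q.2, fun i => (t i).take C)).2)

theorem dstep_multiG (c C : ℕ) (δ : Q → A → ((i : I) → List (Γ i)) → Q × ((i : I) → List (Γ i)))
    (σ : R → A' → R) (τ : R → A' → List A) (hC : ∀ ρ x, c * (τ ρ x).length ≤ C) (ρ : R) (q : Q)
    (S : (i : I) → List (Γ i)) (x : A') :
    dstep C (multiG c C δ σ τ) ((ρ, q), S) x =
      ((σ ρ x, ((τ ρ x).foldl (dstep c δ) (q, S)).1), ((τ ρ x).foldl (dstep c δ) (q, S)).2) := by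
  have h := dstep_multi c C δ (fun _ : Unit => τ ρ x) (fun _ => hC ρ x) (q, S) ()
  rw [← h]
  rfl

theorem foldl_multiG (c C : ℕ) (δ : Q → A → ((i : I) → List (Γ i)) → Q × ((i : I) → List (Γ i)))
    (σ : R → A' → R) (τ : R → A' → List A) (hC : ∀ ρ x, c * (τ ρ x).length ≤ C) :
    ∀ (w : List A') (ρ : R) (q : Q) (S : (i : I) → List (Γ i)),
      w.foldl (dstep C (multiG c C δ σ τ)) ((ρ, q), S) =
        ((w.foldl σ ρ, ((gsmOut σ τ ρ w).foldl (dstep c δ) (q, S)).1),
          ((gsmOut σ τ ρ w).foldl (dstep c δ) (q, S)).2) := by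
  intro w
  induction w with
  | nil => intro ρ q S; rfl
  | cons x w ih =>
    intro ρ q S
    rw [List.foldl_cons, dstep_multiG c C δ σ τ hC, ih, List.foldl_cons, gsmOut, List.foldl_append]

end gsm

section coset

variable {G P α : Type} [Group G] [Group P] (K : Subgroup G)

/-- the right coset of an element -/
def co (g : G) : Quotient (QuotientGroup.rightRel K) := Quotient.mk _ g

theorem co_eq_iff (a b : G) : co K a = co K b ↔ b * a⁻¹ ∈ K := by
  unfold co
  rw [Quotient.eq, QuotientGroup.rightRel_apply]

open Classical in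
/-- the representatives of the right cosets; the representative of `K` is `1` -/
noncomputable def rq (ρ : Quotient (QuotientGroup.rightRel K)) : G := if ρ = co K 1 then 1 else ρ.out

theorem co_rq (ρ : Quotient (QuotientGroup.rightRel K)) : co K (rq K ρ) = ρ := by
  unfold rq
  split_ifs with h
  · exact h.symm
  · exact Quotient.out_eq ρ

theorem rq_one : rq K (co K 1) = 1 := by
  unfold rq
  rw [if_pos rfl]

theorem kappa_mem (ρ : Quotient (QuotientGroup.rightRel K)) (x : G) :
    rq K ρ * x * (rq K (co K (rq K ρ * x)))⁻¹ ∈ K := by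
  have h := co_rq K (co K (rq K ρ * x))
  exact (co_eq_iff K _ _).1 h

end coset

/-- a finitely generated group with a subgroup of finite index which embeds in a stack group is tidy real-time -/
theorem StackGroup.overgroup {P G : Type} [Group P] [Group G] (hP : StackGroup P) [hG : Group.FG G]
    (K : Subgroup G) [hK : K.FiniteIndex] (φ : K →* P) (hφ : Function.Injective φ) : TidyGroup G := by
  obtain ⟨α, _, f, hf, I, _, Γ, _, Q, _, c, q0, F, δ, hc, hδ, hw⟩ := hP
  obtain ⟨S, hS⟩ := hG.out
  haveI : Finite (Quotient (QuotientGroup.rightRel K)) :=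
    Finite.of_equiv _ (QuotientGroup.quotientRightRelEquivQuotientLeftRel K).symm
  choose τ0 hτ0 using fun g : K => exists_word f hf (φ g)
  let gen : S → G := fun s => s.1
  let val : S ⊕ S → G := Sum.elim gen (fun a => (gen a)⁻¹)
  let σ : Quotient (QuotientGroup.rightRel K) → S ⊕ S → Quotient (QuotientGroup.rightRel K) :=
    fun ρ x => co K (rq K ρ * val x)
  let τ : Quotient (QuotientGroup.rightRel K) → S ⊕ S → List (α ⊕ α) :=
    fun ρ x => τ0 ⟨_, kappa_mem K ρ (val x)⟩
  obtain ⟨L, hL⟩ : ∃ L, ∀ ρ x, (τ ρ x).length ≤ L := by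
    obtain ⟨L, hL⟩ := (Set.finite_range (fun y : Quotient (QuotientGroup.rightRel K) × (S ⊕ S) =>
      (τ y.1 y.2).length)).bddAbove
    exact ⟨L, fun ρ x => hL ⟨(ρ, x), rfl⟩⟩
  have hC : ∀ ρ x, c * (τ ρ x).length ≤ 2 * c * (L + 1) := by
    intro ρ x
    have := hL ρ x
    nlinarith
  have out : ∀ (w : List (S ⊕ S)) (ρ : Quotient (QuotientGroup.rightRel K)),
      w.foldl σ ρ = co K (rq K ρ * (w.map val).prod) ∧
      ∃ h : rq K ρ * (w.map val).prod * (rq K (w.foldl σ ρ))⁻¹ ∈ K,
        ((gsmOut σ τ ρ w).map (Sum.elim f (fun a => (f a)⁻¹))).prod = φ ⟨_, h⟩ := by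
    intro w
    induction w with
    | nil =>
      intro ρ
      refine ⟨by simp [co_rq], ?_, ?_⟩
      · simp [K.one_mem]
      · simp only [gsmOut, List.map_nil, List.prod_nil, List.foldl_nil, mul_one, mul_inv_cancel]
        exact (map_one φ).symm
    | cons x w ih =>
      intro ρ
      obtain ⟨h1, h2, h3⟩ := ih (σ ρ x)
      have h4 : w.foldl σ (σ ρ x) = co K (rq K ρ * ((x :: w).map val).prod) := by
        rw [h1, co_eq_iff, List.map_cons, List.prod_cons]
        have := kappa_mem K ρ (val x)
        have e : rq K ρ * (val x * (w.map val).prod) * (rq K (σ ρ x) * (w.map val).prod)⁻¹ =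
            rq K ρ * val x * (rq K (co K (rq K ρ * val x)))⁻¹ := by
          show rq K ρ * (val x * (w.map val).prod) * (rq K (co K (rq K ρ * val x)) * (w.map val).prod)⁻¹ = _
          group
        rw [e]
        exact this
      have e2 : rq K ρ * ((x :: w).map val).prod * (rq K (w.foldl σ (σ ρ x)))⁻¹ =
          (rq K ρ * val x * (rq K (co K (rq K ρ * val x)))⁻¹) *
            (rq K (σ ρ x) * (w.map val).prod * (rq K (w.foldl σ (σ ρ x)))⁻¹) := by
        show _ = (rq K ρ * val x * (rq K (co K (rq K ρ * val x)))⁻¹) *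
            (rq K (co K (rq K ρ * val x)) * (w.map val).prod * (rq K (w.foldl σ (σ ρ x)))⁻¹)
        rw [List.map_cons, List.prod_cons]
        group
      refine ⟨h4, ?_, ?_⟩
      · rw [List.foldl_cons, e2]
        exact K.mul_mem (kappa_mem K ρ (val x)) h2
      · rw [gsmOut, List.map_append, List.prod_append, h3, hτ0, ← map_mul]
        congr 1
        apply Subtype.ext
        show (rq K ρ * val x * (rq K (co K (rq K ρ * val x)))⁻¹) *
            (rq K (σ ρ x) * (w.map val).prod * (rq K (w.foldl σ (σ ρ x)))⁻¹) = _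
        exact e2.symm
  have main : ∀ w : List (S ⊕ S), (w.map val).prod = 1 ↔ (w.foldl σ (co K 1) = co K 1 ∧
      ((gsmOut σ τ (co K 1) w).map (Sum.elim f (fun a => (f a)⁻¹))).prod = 1) := by
    intro w
    obtain ⟨h1, h2, h3⟩ := out w (co K 1)
    rw [rq_one, one_mul] at h1
    constructor
    · intro h
      rw [h] at h1
      refine ⟨h1, ?_⟩
      rw [h3, map_eq_one_iff φ hφ]
      apply Subtype.ext
      show rq K (co K 1) * (w.map val).prod * (rq K (w.foldl σ (co K 1)))⁻¹ = 1
      rw [h1, rq_one, h]
      group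
    · rintro ⟨h4, h5⟩
      rw [h3, map_eq_one_iff φ hφ] at h5
      have h6 := congrArg Subtype.val h5
      have h7 : rq K (co K 1) * (w.map val).prod * (rq K (w.foldl σ (co K 1)))⁻¹ = 1 := h6
      rw [h4, rq_one] at h7
      simpa using h7
  refine ⟨Nat.card I, S, inferInstance, gen, ?_, ?_⟩
  · have : Set.range gen = (S : Set G) := by
      ext x
      simp [gen]
    rw [this]
    exact hS
  · refine tidy_of_dstack (2 * c * (L + 1)) (by positivity) _ (co K 1, q0)
      {x | x.1.1 = co K 1 ∧ (x.1.2, fun i => (x.2 i).take c) ∈ F}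
      (multiG c (2 * c * (L + 1)) δ σ τ) ?_ ?_
    · intro q a t i
      have h1 := foldl_dstep_length c δ hδ (τ q.1 a) (q.2, fun i => (t i).take (2 * c * (L + 1))) i
      have h2 : ((t i).take (2 * c * (L + 1))).length ≤ 2 * c * (L + 1) := by simp
      have h3 : 2 * c * (τ q.1 a).length ≤ 2 * c * (L + 1) := Nat.mul_le_mul_left _ (by have := hL q.1 a; omega)
      simp only at h1
      unfold multiG
      simp only
      omega
    · intro w
      rw [foldl_multiG c (2 * c * (L + 1)) δ σ τ hC]
      have h := hw (gsmOut σ τ (co K 1) w)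
      have e2 : ∀ i, (((gsmOut σ τ (co K 1) w).foldl (dstep c δ) (q0, fun _ => [])).2 i).take c =
          ((((gsmOut σ τ (co K 1) w).foldl (dstep c δ) (q0, fun _ => [])).2 i).take (2 * c * (L + 1))).take c := by
        intro i
        rw [List.take_take]
        congr 1
        have : c ≤ 2 * c * (L + 1) := by nlinarith
        omega
      simp only [e2] at h
      refine ⟨?_, ?_⟩
      · show (w.map val).prod = 1 ↔ _
        rw [main w, h.1]
        rfl
      · intro hw1
        have hw2 : (w.map val).prod = 1 := hw1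
        exact h.2 ((main w).1 hw2).2

end Pool.Agent.Helper81.RT
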