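import Pool.Agent.Helper81.RT.GPMachine
import Pool.Agent.Helper81.RT.Sub

/-!
# Graph products of tidy real-time groups are real-time, II (MP_eaa19d_lc)
-/

set_option autoImplicit false

namespace Pool.Agent.Helper81.RT

open Pool.Agent.Helper22.EA

namespace GPM

variable {V : Type} [DecidableEq V] (Gr : SimpleGraph V) [DecidableRel Gr.Adj]
  {A : V → Type} {Q S : V → Type} {k : V → ℕ} (q0 : ∀ v, Q v) (F : ∀ v, Set (Q v))
  (δ : ∀ v, Q v → A v → (Fin (k v) → Option (S v)) → Q v × (Fin (k v) → List (S v)))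
  {G : V → Type} [∀ v, Group (G v)] (ev : ∀ v, A v → G v)

/-- the run of the machine -/
noncomputable def run (w : List (Σ v, A v)) : Cfg Q S k :=
  w.foldl (fun x e => mstep Gr q0 F δ x e.1 e.2) (fun _ => [], fun _ _ => [])

/-- the syllables of a word -/
def sylls (w : List (Σ v, A v)) : List (Σ v, G v) := w.map (fun e => ⟨e.1, ev e.1 e.2⟩)

theorem run_inv [∀ v, DecidableEq (G v)]
    (hacc : ∀ v (w : List (A v)), ((w.map (ev v)).prod = 1 ↔ (cf q0 δ v w).1 ∈ F v))
    (htidy : ∀ v (w : List (A v)), (w.map (ev v)).prod = 1 → ∀ i, (cf q0 δ v w).2 i = [])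
    (w : List (Σ v, A v)) : ∀ v, RV q0 δ ev v
      ((sylls ev w).foldl (fun p e => act Gr G e.1 e.2 p) (fun _ => []) v)
      ((run Gr q0 F δ w).1 v) ((run Gr q0 F δ w).2 v) := by
  induction w using List.reverseRecOn with
  | nil => intro v; exact RV.nil
  | append_singleton w a ih =>
    have e1 : run Gr q0 F δ (w ++ [a]) = mstep Gr q0 F δ (run Gr q0 F δ w) a.1 a.2 := by
      simp [run, List.foldl_append]
    have e2 : (sylls ev (w ++ [a])).foldl (fun p e => act Gr G e.1 e.2 p) (fun _ => []) =
        act Gr G a.1 (ev a.1 a.2) ((sylls ev w).foldl (fun p e => act Gr G e.1 e.2 p) (fun _ => [])) := by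
      simp [sylls, List.map_append, List.foldl_append]
    rw [e1, e2]
    exact mstep_inv Gr q0 F δ ev hacc htidy ih (fun hv hu hadj => top_bead Gr G (sylls ev w) hv hu hadj) a.1 a.2

theorem run_accept [∀ v, DecidableEq (G v)]
    (hacc : ∀ v (w : List (A v)), ((w.map (ev v)).prod = 1 ↔ (cf q0 δ v w).1 ∈ F v))
    (htidy : ∀ v (w : List (A v)), (w.map (ev v)).prod = 1 → ∀ i, (cf q0 δ v w).2 i = [])
    (w : List (Σ v, A v)) :
    (w.map (fun e => GraphProduct.of Gr G e.1 (ev e.1 e.2))).prod = 1 ↔ ∀ v, (run Gr q0 F δ w).1 v = [] := by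
  have h := run_inv Gr q0 F δ ev hacc htidy w
  have h2 := prod_eq_one_iff Gr G (sylls ev w)
  have e : ((sylls ev w).map fun e => GraphProduct.of Gr G e.1 e.2) =
      w.map (fun e => GraphProduct.of Gr G e.1 (ev e.1 e.2)) := by
    simp [sylls, List.map_map]
  rw [e] at h2
  rw [h2]
  constructor
  · intro h3 v
    rw [← rv_nil_iff q0 δ ev (h v), h3]
  · intro h3
    funext v
    exact (rv_nil_iff q0 δ ev (h v)).2 (h3 v)

theorem run_tidy [∀ v, DecidableEq (G v)]
    (hacc : ∀ v (w : List (A v)), ((w.map (ev v)).prod = 1 ↔ (cf q0 δ v w).1 ∈ F v))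
    (htidy : ∀ v (w : List (A v)), (w.map (ev v)).prod = 1 → ∀ i, (cf q0 δ v w).2 i = [])
    (w : List (Σ v, A v)) (hw : ∀ v, (run Gr q0 F δ w).1 v = []) (v : V) (i : Fin (k v)) :
    (run Gr q0 F δ w).2 v i = [] := by
  have h := run_inv Gr q0 F δ ev hacc htidy w v
  rw [hw v] at h
  generalize (sylls ev w).foldl (fun p e => act Gr G e.1 e.2 p) (fun _ => []) v = l at h
  generalize (run Gr q0 F δ w).2 v = d at h
  cases h
  rfl

end GPM

theorem closure_of {V : Type} (Gr : SimpleGraph V) (G : V → Type) [∀ v, Group (G v)] (α : V → Type)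
    (f : ∀ v, α v → G v) (hf : ∀ v, Subgroup.closure (Set.range (f v)) = ⊤) :
    Subgroup.closure (Set.range (fun x : Σ v, α v => GraphProduct.of Gr G x.1 (f x.1 x.2))) = ⊤ := by
  rw [eq_top_iff]
  intro x _
  obtain ⟨y, rfl⟩ := QuotientGroup.mk'_surjective (Subgroup.normalClosure (commRels Gr G)) x
  induction y using Monoid.CoprodI.induction_on with
  | one => rw [map_one]; exact one_mem _
  | of v g =>
    have hg : g ∈ Subgroup.closure (Set.range (f v)) := by rw [hf]; trivial
    have h2 := Subgroup.mem_map_of_mem (GraphProduct.of Gr G v) hg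
    rw [MonoidHom.map_closure] at h2
    refine Subgroup.closure_mono ?_ h2
    rintro z ⟨_, ⟨a, rfl⟩, rfl⟩
    exact ⟨⟨v, a⟩, rfl⟩
  | mul x y hx hy =>
    rw [map_mul]
    exact mul_mem (hx trivial) (hy trivial)

open GPM in
/-- the word problems of graph products of tidy real-time groups over finite graphs are solved by stack machines -/
theorem graphProduct_stack {V : Type} [Finite V] (Gr : SimpleGraph V) (G : V → Type) [∀ v, Group (G v)]
    (hG : ∀ v, TidyGroup (G v)) : StackGroup (GraphProduct Gr G) := by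
  classical
  choose k α hα f hf hT using hG
  choose n m q0 F δ hδ hw using hT
  let ev : ∀ v, (α v ⊕ α v) → G v := fun v => Sum.elim (f v) (fun a => (f v a)⁻¹)
  have hacc : ∀ v (w : List (α v ⊕ α v)), ((w.map (ev v)).prod = 1 ↔ (cf q0 δ v w).1 ∈ F v) :=
    fun v w => (hw v w).1
  have htidy : ∀ v (w : List (α v ⊕ α v)), (w.map (ev v)).prod = 1 → ∀ i, (cf q0 δ v w).2 i = [] :=
    fun v w => (hw v w).2
  let letter : (Σ v, α v) ⊕ (Σ v, α v) → Σ v, (α v ⊕ α v) :=
    Sum.elim (fun x => ⟨x.1, Sum.inl x.2⟩) (fun x => ⟨x.1, Sum.inr x.2⟩)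
  let δ' : Unit → (Σ v, α v) ⊕ (Σ v, α v) →
      ((i : Σ v, Option (Fin (k v))) → List (Sy (fun v => Fin (n v)) (fun v => Fin (m v)) k i)) →
      Unit × ((i : Σ v, Option (Fin (k v))) → List (Sy (fun v => Fin (n v)) (fun v => Fin (m v)) k i)) :=
    fun _ a t => ((), toI (mstep Gr q0 F δ (top3 (ofI t)) (letter a).1 (letter a).2))
  refine ⟨(Σ v, α v), inferInstance, fun x => GraphProduct.of Gr G x.1 (f x.1 x.2), closure_of Gr G α f hf,
    (Σ v, Option (Fin (k v))), inferInstance, Sy (fun v => Fin (n v)) (fun v => Fin (m v)) k, inferInstance, Unit,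
    inferInstance, 3, (), {x | ∀ v, (ofI x.2).1 v = []}, δ', by norm_num, ?_, ?_⟩
  · intro q a t i
    have h := mstep_length Gr q0 F δ hδ (top3 (ofI t)) (fun u => by simp [top3]) (fun u i => by simp [top3])
      (letter a).1 (letter a).2
    match i with
    | ⟨v, none⟩ => exact h.1 v
    | ⟨v, some i⟩ => exact h.2 v i
  · intro w
    have key : ∀ (w : List ((Σ v, α v) ⊕ (Σ v, α v))) (x : Cfg (fun v => Fin (n v)) (fun v => Fin (m v)) k),
        w.foldl (dstep 3 δ') ((), toI x) =
          ((), toI ((w.map letter).foldl (fun x e => mstep Gr q0 F δ x e.1 e.2) x)) := by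
      intro w
      induction w with
      | nil => intro x; rfl
      | cons a w ih =>
        intro x
        rw [List.foldl_cons, List.map_cons, List.foldl_cons, ← ih]
        congr 1
        refine Prod.ext rfl ?_
        have h3 : top3 (ofI (fun i => (toI x i).take 3)) = ((fun u => (x.1 u).take 3, fun u i => (x.2 u i).take 3) :
            Cfg (fun v => Fin (n v)) (fun v => Fin (m v)) k) := by
          refine Prod.ext ?_ ?_
          · funext u
            show ((x.1 u).take 3).take 3 = (x.1 u).take 3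
            simp
          · funext u i
            show ((x.2 u i).take 3).take 3 = (x.2 u i).take 3
            simp
        have h4 := mstep_take Gr q0 F δ x (letter a).1 (letter a).2
        rw [← h3] at h4
        funext i
        match i with
        | ⟨v, none⟩ => exact h4.1 v
        | ⟨v, some i⟩ => exact h4.2 v i
    have h := key w (fun _ => [], fun _ _ => [])
    have h0 : toI ((fun _ => [], fun _ _ => []) : Cfg (fun v => Fin (n v)) (fun v => Fin (m v)) k) =
        fun _ => [] := by
      funext i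
      match i with
      | ⟨v, none⟩ => rfl
      | ⟨v, some i⟩ => rfl
    rw [h0] at h
    rw [h]
    have h1 := run_accept Gr q0 F δ ev hacc htidy (w.map letter)
    have e1 : (w.map letter).map (fun e => GraphProduct.of Gr G e.1 (ev e.1 e.2)) =
        w.map (Sum.elim (fun x : Σ v, α v => GraphProduct.of Gr G x.1 (f x.1 x.2))
          (fun x => (GraphProduct.of Gr G x.1 (f x.1 x.2))⁻¹)) := by
      rw [List.map_map]
      apply List.map_congr_left
      rintro (x | x) _
      · rfl
      · show GraphProduct.of Gr G x.1 (f x.1 x.2)⁻¹ = _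
        rw [map_inv]
        rfl
    rw [e1] at h1
    refine ⟨?_, ?_⟩
    · rw [h1]
      show _ ↔ ∀ v, ((run Gr q0 F δ (w.map letter)).1 v).take 3 = []
      refine forall_congr' fun v => ?_
      cases (run Gr q0 F δ (w.map letter)).1 v <;> simp
    · intro h2 i
      have h3 := h1.1 h2
      match i with
      | ⟨v, none⟩ => exact h3 v
      | ⟨v, some i⟩ => exact run_tidy Gr q0 F δ ev hacc htidy (w.map letter) h3 v i

end Pool.Agent.Helper81.RT
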