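import Mathlib

/-!
# The lamplighter group (MP_eaa19d_lc)
-/

set_option autoImplicit false

namespace Pool.Agent.Helper81.RT

/-- an element of the unrestricted wreath product of the group of order two by the integers: a lamp configuration
`f` and a position `p` -/
@[ext]
structure Wr where
  f : ℤ → ZMod 2
  p : ℤ

namespace Wr

instance : Mul Wr := ⟨fun x y => ⟨fun i => x.f i + y.f (i - x.p), x.p + y.p⟩⟩
instance : One Wr := ⟨⟨fun _ => 0, 0⟩⟩
instance : Inv Wr := ⟨fun x => ⟨fun i => x.f (i + x.p), -x.p⟩⟩

@[simp] theorem mul_f (x y : Wr) (i : ℤ) : (x * y).f i = x.f i + y.f (i - x.p) := rfl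
@[simp] theorem mul_p (x y : Wr) : (x * y).p = x.p + y.p := rfl
@[simp] theorem one_f (i : ℤ) : (1 : Wr).f i = 0 := rfl
@[simp] theorem one_p : (1 : Wr).p = 0 := rfl
@[simp] theorem inv_f (x : Wr) (i : ℤ) : (x⁻¹).f i = x.f (i + x.p) := rfl
@[simp] theorem inv_p (x : Wr) : (x⁻¹).p = -x.p := rfl

instance : Group Wr := Group.ofLeftAxioms
  (by
    intro x y z
    ext i
    · simp only [mul_f, mul_p, add_assoc]
      rw [sub_sub]
    · simp only [mul_p, add_assoc])
  (by
    intro x
    ext i
    · simp
    · simp)
  (by
    intro x
    ext i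
    · simp only [mul_f, inv_f, inv_p, one_f, sub_neg_eq_add]
      exact CharTwo.add_self_eq_zero _
    · simp)

/-- the switch of the lamp at the current position -/
def s : Wr := ⟨fun i => if i = 0 then 1 else 0, 0⟩

/-- the step to the right -/
def t : Wr := ⟨fun _ => 0, 1⟩

end Wr

/-- the lamplighter group: the subgroup generated by the switch and the step -/
def Lamplighter : Subgroup Wr := Subgroup.closure {Wr.s, Wr.t}

namespace Lamplighter

def s : Lamplighter := ⟨Wr.s, Subgroup.subset_closure (by simp)⟩
def t : Lamplighter := ⟨Wr.t, Subgroup.subset_closure (by simp)⟩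

/-- the code of one bit, two steps to the right -/
def bit (b : Bool) : Lamplighter := if b then s * t * t else t * s * t

/-- the lamps of a list of bits -/
def lam : List Bool → ℤ → ZMod 2
  | [], _ => 0
  | b :: l, i => (if i = (if b then 0 else 1) then 1 else 0) + lam l (i - 2)

theorem lam_neg (l : List Bool) : ∀ i < 0, lam l i = 0 := by
  induction l with
  | nil => intro i _; rfl
  | cons b l ih =>
    intro i hi
    rw [lam, ih (i - 2) (by omega), add_zero, if_neg]
    split_ifs <;> omega

theorem lam_zero (b : Bool) (l : List Bool) : lam (b :: l) 0 = if b then 1 else 0 := by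
  rw [lam, lam_neg l (0 - 2) (by omega), add_zero]
  cases b <;> simp

theorem lam_one (b : Bool) (l : List Bool) : lam (b :: l) 1 = if b then 0 else 1 := by
  rw [lam, lam_neg l (1 - 2) (by omega), add_zero]
  cases b <;> simp

theorem lam_injective : ∀ l l' : List Bool, lam l = lam l' → l = l'
  | [], [] => fun _ => rfl
  | [], b :: l' => fun e => by
    exfalso
    have e0 := congrFun e 0
    have e1 := congrFun e 1
    rw [lam_zero] at e0
    rw [lam_one] at e1
    cases b
    · rw [lam] at e1; simp at e1
    · rw [lam] at e0; simp at e0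
  | b :: l, [] => fun e => by
    exfalso
    have e0 := congrFun e 0
    have e1 := congrFun e 1
    rw [lam_zero] at e0
    rw [lam_one] at e1
    cases b
    · rw [lam] at e1; simp at e1
    · rw [lam] at e0; simp at e0
  | b :: l, b' :: l' => fun e => by
    have e0 := congrFun e 0
    rw [lam_zero, lam_zero] at e0
    have hb : b = b' := by
      cases b <;> cases b' <;> simp_all
    subst hb
    have : lam l = lam l' := by
      funext i
      have e1 := congrFun e (i + 2)
      simp only [lam, add_sub_cancel_right] at e1
      exact add_left_cancel e1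
    rw [lam_injective l l' this]

theorem lam_append (u v : List Bool) (i : ℤ) : lam (u ++ v) i = lam u i + lam v (i - 2 * u.length) := by
  induction u generalizing i with
  | nil => simp [lam]
  | cons b u ih =>
    rw [List.cons_append, lam, ih, lam, add_assoc]
    congr 3
    push_cast [List.length_cons]
    ring

theorem bit_val (b : Bool) : (bit b : Wr) = ⟨fun i => if i = (if b then 0 else 1) then 1 else 0, 2⟩ := by
  cases b
  · simp only [bit]
    ext i
    · simp only [Bool.false_eq_true, if_false, Subgroup.coe_mul, Wr.mul_f, Wr.mul_p, s, t, Wr.s, Wr.t, zero_add,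
        add_zero]
      congr 1
      exact propext ⟨fun h => by omega, fun h => by omega⟩
    · simp only [Bool.false_eq_true, if_false, Subgroup.coe_mul, Wr.mul_p, s, t, Wr.s, Wr.t]
      norm_num
  · simp only [bit]
    ext i
    · simp [s, t, Wr.s, Wr.t]
    · simp only [if_true, Subgroup.coe_mul, Wr.mul_p, s, t, Wr.s, Wr.t]
      norm_num

/-- the product of the codes -/
def P (l : List Bool) : Lamplighter := (l.map bit).prod

theorem P_val (l : List Bool) : (P l : Wr) = ⟨lam l, 2 * l.length⟩ := by
  induction l with
  | nil => rfl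
  | cons b l ih =>
    have : P (b :: l) = bit b * P l := by simp [P]
    rw [this, Subgroup.coe_mul, ih, bit_val]
    ext i
    · simp [lam]
    · simp only [Wr.mul_p, List.length_cons]
      push_cast
      ring

/-- two steps to the left -/
def r : Lamplighter := t⁻¹ * t⁻¹

theorem r_pow_val (n : ℕ) : ((r ^ n : Lamplighter) : Wr) = ⟨fun _ => 0, -2 * n⟩ := by
  induction n with
  | zero =>
    rw [pow_zero]
    ext i
    · rfl
    · simp
  | succ n ih =>
    rw [pow_succ, Subgroup.coe_mul, ih]
    ext i
    · simp [r, t, Wr.t]
    · simp only [r, t, Wr.t, Subgroup.coe_mul, Wr.mul_p, Subgroup.coe_inv, Wr.inv_p]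
      push_cast
      ring

theorem tt_pow_val (n : ℕ) : (((t * t) ^ n : Lamplighter) : Wr) = ⟨fun _ => 0, 2 * n⟩ := by
  induction n with
  | zero =>
    rw [pow_zero]
    ext i
    · rfl
    · simp
  | succ n ih =>
    rw [pow_succ, Subgroup.coe_mul, ih]
    ext i
    · simp [t, Wr.t]
    · simp only [t, Wr.t, Subgroup.coe_mul, Wr.mul_p]
      push_cast
      ring

/-- the level element -/
def E (u v : List Bool) : Lamplighter := P u * P v * r ^ (u.length + v.length)

theorem E_val (u v : List Bool) : (E u v : Wr) = ⟨lam (u ++ v), 0⟩ := by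
  rw [E, Subgroup.coe_mul, Subgroup.coe_mul, P_val, P_val, r_pow_val]
  ext i
  · simp only [Wr.mul_f, Wr.mul_p, add_zero]
    rw [lam_append]
  · simp only [Wr.mul_p]
    push_cast
    ring

theorem E_ne_one (u v : List Bool) (h : u ++ v ≠ []) : E u v ≠ 1 := by
  intro e
  have e1 := E_val u v
  rw [e] at e1
  have e2 : lam (u ++ v) = lam [] := by
    have := congrArg Wr.f e1
    simp only at this
    rw [← this]
    rfl
  exact h (lam_injective _ _ e2)

theorem E_injective (u v u' v' : List Bool) (hu : u.length = u'.length) (e : E u v = E u' v') :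
    u = u' ∧ v = v' := by
  have e1 := E_val u v
  rw [e, E_val] at e1
  have e2 := lam_injective _ _ (congrArg Wr.f e1)
  exact ⟨(List.append_inj e2 hu.symm).1.symm, (List.append_inj e2 hu.symm).2.symm⟩

/-- cancelling the first block -/
theorem cancel_iff (u u' v : List Bool) (h : u.length = u'.length) :
    E u v * (P u' * r ^ u'.length) = (t * t) ^ u.length * P v * r ^ (u.length + v.length) ↔ u = u' := by
  have key : ∀ u u' v : List Bool, u.length = u'.length →
      (E u v * (P u' * r ^ u'.length) = (t * t) ^ u.length * P v * r ^ (u.length + v.length) ↔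
        ∀ i, lam u i + lam u' i = 0) := by
    intro u u' v h
    rw [Subtype.ext_iff, Subgroup.coe_mul, Subgroup.coe_mul, Subgroup.coe_mul, Subgroup.coe_mul, E_val, P_val,
      P_val, r_pow_val, r_pow_val, tt_pow_val, Wr.ext_iff]
    simp only [Wr.mul_p]
    constructor
    · rintro ⟨h1, -⟩ i
      have := congrFun h1 i
      simp only [Wr.mul_f, Wr.mul_p, add_zero, sub_zero, zero_add, lam_append] at this
      have e2 : lam u i + lam v (i - 2 * u.length) + lam u' i = (lam u i + lam u' i) + lam v (i - 2 * u.length) := by
        ring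
      rw [e2] at this
      exact add_eq_right.1 this
    · intro h1
      refine ⟨?_, by push_cast [h]; ring⟩
      funext i
      simp only [Wr.mul_f, Wr.mul_p, add_zero, sub_zero, zero_add, lam_append]
      have e2 : lam u i + lam v (i - 2 * u.length) + lam u' i = (lam u i + lam u' i) + lam v (i - 2 * u.length) := by
        ring
      rw [e2, h1, zero_add]
  rw [key u u' v h]
  constructor
  · intro h1
    refine lam_injective _ _ ?_
    funext i
    exact CharTwo.add_eq_zero.1 (h1 i)
  · rintro rfl i
    exact CharTwo.add_self_eq_zero _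

end Lamplighter

end Pool.Agent.Helper81.RT
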