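import Pool.Agent.Helper81.RT.Lamp

/-!
# Words for the elements used in the lower bound (MP_eaa19d_lc)
-/

set_option autoImplicit false

namespace Pool.Agent.Helper81.RT

variable {α Γ : Type} [Group Γ] (f : α → Γ)

/-- the value of a word -/
def ev (w : List (α ⊕ α)) : Γ := (w.map (Sum.elim f (fun a => (f a)⁻¹))).prod

theorem ev_nil : ev f [] = 1 := rfl

theorem ev_append (w v : List (α ⊕ α)) : ev f (w ++ v) = ev f w * ev f v := by
  simp [ev]

/-- the inverse word -/
def winv (w : List (α ⊕ α)) : List (α ⊕ α) := (w.map Sum.swap).reverse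

theorem length_winv (w : List (α ⊕ α)) : (winv w).length = w.length := by simp [winv]

theorem ev_winv (w : List (α ⊕ α)) : ev f (winv w) = (ev f w)⁻¹ := by
  induction w with
  | nil => simp [ev, winv]
  | cons a w ih =>
    have h1 : winv (a :: w) = winv w ++ [a.swap] := by simp [winv]
    have h2 : ev f (a :: w) = Sum.elim f (fun a => (f a)⁻¹) a * ev f w := by simp [ev]
    rw [h1, ev_append, ih, h2, mul_inv_rev]
    congr 1
    cases a <;> simp [ev]

theorem exists_word (h : Subgroup.closure (Set.range f) = ⊤) (g : Γ) : ∃ w, ev f w = g := by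
  have hg : g ∈ Subgroup.closure (Set.range f) := by rw [h]; trivial
  induction hg using Subgroup.closure_induction with
  | mem x hx =>
    obtain ⟨a, rfl⟩ := hx
    exact ⟨[Sum.inl a], by simp [ev]⟩
  | one => exact ⟨[], rfl⟩
  | mul x y _ _ hx hy =>
    obtain ⟨w, rfl⟩ := hx
    obtain ⟨v, rfl⟩ := hy
    exact ⟨w ++ v, ev_append f w v⟩
  | inv x _ hx =>
    obtain ⟨w, rfl⟩ := hx
    exact ⟨winv w, ev_winv f w⟩

/-- powers -/
def wrep (x : List (α ⊕ α)) : ℕ → List (α ⊕ α)
  | 0 => []
  | n + 1 => wrep x n ++ x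

theorem length_wrep (x : List (α ⊕ α)) (n : ℕ) : (wrep x n).length = x.length * n := by
  induction n with
  | zero => rfl
  | succ n ih => rw [wrep, List.length_append, ih]; ring

theorem ev_wrep (x : List (α ⊕ α)) (n : ℕ) : ev f (wrep x n) = (ev f x) ^ n := by
  induction n with
  | zero => rw [pow_zero]; rfl
  | succ n ih => rw [wrep, ev_append, ih, pow_succ]

/-- the word of a bit -/
def wbit (σ τ : List (α ⊕ α)) (b : Bool) : List (α ⊕ α) := if b then σ ++ τ ++ τ else τ ++ σ ++ τ

/-- the word of a list of bits -/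
def wl (σ τ : List (α ⊕ α)) : List Bool → List (α ⊕ α)
  | [] => []
  | b :: l => wbit σ τ b ++ wl σ τ l

theorem length_wl (σ τ : List (α ⊕ α)) (l : List Bool) :
    (wl σ τ l).length = (σ.length + 2 * τ.length) * l.length := by
  induction l with
  | nil => rfl
  | cons b l ih =>
    rw [wl, List.length_append, ih, List.length_cons]
    cases b <;> simp only [wbit, Bool.false_eq_true, if_false, if_true, List.length_append] <;> ring

variable (ψ : Lamplighter →* Γ)

theorem ev_wl {σ τ : List (α ⊕ α)} (hσ : ev f σ = ψ Lamplighter.s) (hτ : ev f τ = ψ Lamplighter.t)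
    (l : List Bool) : ev f (wl σ τ l) = ψ (Lamplighter.P l) := by
  induction l with
  | nil => simp [wl, Lamplighter.P, ev]
  | cons b l ih =>
    have h1 : Lamplighter.P (b :: l) = Lamplighter.bit b * Lamplighter.P l := by simp [Lamplighter.P]
    rw [wl, ev_append, ih, h1, map_mul]
    congr 1
    cases b
    · simp only [wbit, Bool.false_eq_true, if_false, ev_append, hσ, hτ, Lamplighter.bit, map_mul]
    · simp only [wbit, if_true, ev_append, hσ, hτ, Lamplighter.bit, map_mul]

theorem ev_left {τ : List (α ⊕ α)} (hτ : ev f τ = ψ Lamplighter.t) (n : ℕ) :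
    ev f (wrep (winv τ ++ winv τ) n) = ψ (Lamplighter.r ^ n) := by
  rw [ev_wrep, ev_append, ev_winv, hτ, map_pow, Lamplighter.r, map_mul, map_inv]

theorem ev_right {τ : List (α ⊕ α)} (hτ : ev f τ = ψ Lamplighter.t) (n : ℕ) :
    ev f (wrep (τ ++ τ) n) = ψ ((Lamplighter.t * Lamplighter.t) ^ n) := by
  rw [ev_wrep, ev_append, hτ, map_pow, map_mul]

end Pool.Agent.Helper81.RT
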