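import Pool.Agent.Helper81.RT.Arith
import Pool.Agent.Helper81.RT.Words
import Pool.Agent.Helper81.RT.Free

/-!
# The lower bound: `L * H` is not real-time with one work tape (MP_eaa19d_lc)
-/

set_option autoImplicit false

namespace Pool.Agent.Helper81.RT

open Monoid

section data

variable {α : Type} (σ τ η : List (α ⊕ α)) (d n' : ℕ)

/-- the word of one level -/
def lev (x : (Fin d → Bool) × (Fin n' → Bool)) : List (α ⊕ α) :=
  wl σ τ (List.ofFn x.1) ++ wl σ τ (List.ofFn x.2) ++ wrep (winv τ ++ winv τ) (d + n')

theorem length_lev (x : (Fin d → Bool) × (Fin n' → Bool)) :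
    (lev σ τ d n' x).length = (σ.length + 4 * τ.length) * (d + n') := by
  simp only [lev, List.length_append, length_wl, length_wrep, length_winv, List.length_ofFn]
  ring

/-- the word of all levels -/
def full (bs : List ((Fin d → Bool) × (Fin n' → Bool))) : List (α ⊕ α) :=
  (bs.map (fun x => lev σ τ d n' x ++ η)).flatten

theorem full_snoc (bs : List ((Fin d → Bool) × (Fin n' → Bool))) (x : (Fin d → Bool) × (Fin n' → Bool)) :
    full σ τ η d n' (bs ++ [x]) = full σ τ η d n' bs ++ (lev σ τ d n' x ++ η) := by
  simp [full]

theorem length_full (bs : List ((Fin d → Bool) × (Fin n' → Bool))) :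
    (full σ τ η d n' bs).length = bs.length * ((σ.length + 4 * τ.length) * (d + n') + η.length) := by
  induction bs with
  | nil => simp [full]
  | cons x bs ih =>
    have : full σ τ η d n' (x :: bs) = (lev σ τ d n' x ++ η) ++ full σ τ η d n' bs := by simp [full]
    rw [this, List.length_append, List.length_append, ih, length_lev, List.length_cons]
    ring

variable {G H : Type} [Group G] [Group H] (φ : Lamplighter →* G) (f : α → Coprod G H)
  (hσ : ev f σ = (Coprod.inl.comp φ) Lamplighter.s) (hτ : ev f τ = (Coprod.inl.comp φ) Lamplighter.t)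
  {h : H} (hη : ev f η = Coprod.inr h)

include hσ hτ

theorem ev_lev (x : (Fin d → Bool) × (Fin n' → Bool)) :
    ev f (lev σ τ d n' x) = Coprod.inl (φ (Lamplighter.E (List.ofFn x.1) (List.ofFn x.2))) := by
  rw [lev, ev_append, ev_append, ev_wl f (Coprod.inl.comp φ) hσ hτ, ev_wl f (Coprod.inl.comp φ) hσ hτ,
    ev_left f (Coprod.inl.comp φ) hτ, ← map_mul, ← map_mul, Lamplighter.E, List.length_ofFn, List.length_ofFn]
  rfl

include hη

theorem ev_full (bs : List ((Fin d → Bool) × (Fin n' → Bool))) :
    ev f (full σ τ η d n' bs) =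
      alt h (bs.map (fun x => φ (Lamplighter.E (List.ofFn x.1) (List.ofFn x.2)))) := by
  induction bs with
  | nil => rfl
  | cons x bs ih =>
    have : full σ τ η d n' (x :: bs) = (lev σ τ d n' x ++ η) ++ full σ τ η d n' bs := by simp [full]
    rw [this, ev_append, ev_append, ih, ev_lev σ τ d n' φ f hσ hτ, hη]
    simp [alt]

end data

/-- the core of the lower bound -/
theorem lower_core {G H : Type} [Group G] [Group H] (φ : Lamplighter →* G) (hφ : Function.Injective φ) {h : H}
    (hh : h ≠ 1) {α : Type} (f : α → Coprod G H) (hf : Subgroup.closure (Set.range f) = ⊤) (nQ m : ℕ)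
    (q0 : Fin nQ) (F : Set (Fin nQ)) (δ : Fin nQ → (α ⊕ α) → Fin (m + 1) → Fin nQ × Fin (m + 1) × ℤ)
    (hδ : ∀ q a r, |(δ q a r).2.2| ≤ 1) (hL : ∀ w : List (α ⊕ α), ev f w = 1 ↔ (conf δ q0 0 w).1 ∈ F) :
    False := by
  classical
  obtain ⟨σ, hσ⟩ := exists_word f hf ((Coprod.inl.comp φ) Lamplighter.s)
  obtain ⟨τ, hτ⟩ := exists_word f hf ((Coprod.inl.comp φ) Lamplighter.t)
  obtain ⟨η, hη⟩ := exists_word f hf (Coprod.inr h)
  -- the constants
  obtain ⟨lm, hlm⟩ : ∃ lm, lm = σ.length + 2 * τ.length := ⟨_, rfl⟩
  obtain ⟨K, hK⟩ : ∃ K, K = σ.length + 4 * τ.length + η.length := ⟨_, rfl⟩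
  obtain ⟨C0, hC0⟩ : ∃ C0, C0 = 2 * lm + 1 + η.length + K := ⟨_, rfl⟩
  obtain ⟨M, hM⟩ : ∃ M, M = 2 * (nQ + (m + 1 + 1) * (2 * C0 + 1)) + 2 := ⟨_, rfl⟩
  obtain ⟨c, hc⟩ : ∃ c, c = (2 * M + 4) * K * M + 1 := ⟨_, rfl⟩
  have hnQ : 1 ≤ nQ := by
    have := q0.2
    omega
  obtain ⟨d, hd⟩ := keys_le c nQ (by omega) hnQ
  have hd := hd d le_rfl
  obtain ⟨hd0, hkeys⟩ := hd
  have hM1 : 2 ≤ M := by omega
  obtain ⟨n', hn'⟩ : ∃ n', n' = (M - 1) * d := ⟨_, rfl⟩
  have hnb : d + n' = M * d := by
    rw [hn']
    calc d + (M - 1) * d = (M - 1 + 1) * d := by ring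
      _ = M * d := by rw [Nat.sub_add_cancel (by omega)]
  -- good levels
  let good : List ((Fin d → Bool) × (Fin n' → Bool)) → (Fin d → Bool) × (Fin n' → Bool) → Prop := fun bs x =>
    |pos δ q0 0 (full σ τ η d n' bs ++ lev σ τ d n' x) - pos δ q0 0 (full σ τ η d n' bs)| ≤
      ((2 * (lm * d) + d : ℕ) : ℤ)
  -- few bad levels
  have hbad : ∀ bs : List ((Fin d → Bool) × (Fin n' → Bool)), bs.length ≤ M →
      2 ^ (M * d - 1) ≤ (Finset.univ.filter (good bs)).card := by
    intro bs hbs
    have h1 : (Finset.univ.filter (fun x => ¬ good bs x)).card ≤ 2 ^ (d - 1) * 2 ^ n' := by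
      have h2 := Finset.card_le_mul_card_image_of_maps_to (f := Prod.snd)
        (s := Finset.univ.filter (fun x => ¬ good bs x)) (t := (Finset.univ : Finset (Fin n' → Bool)))
        (fun _ _ => Finset.mem_univ _) (2 ^ (d - 1)) ?_
      · have h3 : (Finset.univ : Finset (Fin n' → Bool)).card = 2 ^ n' := by simp
        rw [h3] at h2
        exact h2
      · intro v _
        have hinj : Set.InjOn Prod.fst
            (((Finset.univ.filter (fun x => ¬ good bs x)).filter (fun x => x.2 = v) :
              Finset ((Fin d → Bool) × (Fin n' → Bool))) : Set ((Fin d → Bool) × (Fin n' → Bool))) := by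
          rintro ⟨u1, v1⟩ h1 ⟨u2, v2⟩ h2 he
          rw [Finset.mem_coe, Finset.mem_filter] at h1 h2
          have e1 : v1 = v := h1.2
          have e2 : v2 = v := h2.2
          have e3 : u1 = u2 := he
          rw [e1, e2, e3]
        rw [← Finset.card_image_of_injOn hinj]
        refine le_trans ?_ hkeys
        have hfb := few_bad δ q0 0 F hδ (U := Fin d → Bool) (fun u => wl σ τ (List.ofFn u)) (lm * d)
          (fun u => by rw [length_wl, List.length_ofFn, hlm]) (full σ τ η d n' bs)
          (wl σ τ (List.ofFn v) ++ wrep (winv τ ++ winv τ) (d + n'))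
          (wrep (winv τ ++ winv τ) d ++
            (winv (wrep (τ ++ τ) d ++ wl σ τ (List.ofFn v) ++ wrep (winv τ ++ winv τ) (d + n')) ++
              winv (full σ τ η d n' bs))) d (c * d) hd0 ?_ ?_ ?_
          ((Finset.image Prod.fst ((Finset.univ.filter (fun x => ¬ good bs x)).filter (fun x => x.2 = v)))) ?_
        · rwa [Fintype.card_fin] at hfb
        · -- the length
          simp only [List.length_append, length_wl, length_wrep, length_winv, List.length_ofFn, length_full]
          have e1 : bs.length * ((σ.length + 4 * τ.length) * (d + n') + η.length) ≤ M * (K * (d + n')) := by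
            refine Nat.mul_le_mul hbs ?_
            have : η.length ≤ η.length * (d + n') := Nat.le_mul_of_pos_right _ (by omega)
            calc (σ.length + 4 * τ.length) * (d + n') + η.length ≤
                (σ.length + 4 * τ.length) * (d + n') + η.length * (d + n') := by omega
              _ = K * (d + n') := by rw [hK]; ring
          have e2 : lm * d + ((σ.length + 2 * τ.length) * n' + (τ.length + τ.length) * (d + n')) + lm * d +
              ((τ.length + τ.length) * d + ((τ.length + τ.length) * d + (σ.length + 2 * τ.length) * n' +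
                (τ.length + τ.length) * (d + n'))) ≤ 4 * (K * (d + n')) := by
            rw [hlm, hK]
            nlinarith [Nat.zero_le (σ.length * d), Nat.zero_le (σ.length * n'), Nat.zero_le (τ.length * d),
              Nat.zero_le (τ.length * n'), Nat.zero_le (η.length * d), Nat.zero_le (η.length * n')]
          have e3 : 2 * (M * (K * (d + n'))) + 4 * (K * (d + n')) ≤ c * d := by
            rw [hnb, hc]
            have : 2 * (M * (K * (M * d))) + 4 * (K * (M * d)) = (2 * M + 4) * K * M * d := by ring
            rw [this]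
            exact Nat.mul_le_mul_right _ (by omega)
          omega
        · -- accepted
          intro u
          rw [← hL]
          have e1 : full σ τ η d n' bs ++ wl σ τ (List.ofFn u) ++
              (wl σ τ (List.ofFn v) ++ wrep (winv τ ++ winv τ) (d + n')) =
              full σ τ η d n' bs ++ lev σ τ d n' (u, v) := by
            simp only [lev, List.append_assoc]
          rw [e1]
          simp only [ev_append, ev_winv]
          rw [ev_lev σ τ d n' φ f hσ hτ, ev_wl f (Coprod.inl.comp φ) hσ hτ, ev_wl f (Coprod.inl.comp φ) hσ hτ,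
            ev_left f (Coprod.inl.comp φ) hτ, ev_left f (Coprod.inl.comp φ) hτ,
            ev_right f (Coprod.inl.comp φ) hτ]
          have e2 := (Lamplighter.cancel_iff (List.ofFn u) (List.ofFn u) (List.ofFn v) rfl).2 rfl
          rw [List.length_ofFn, List.length_ofFn] at e2
          have e3 := congrArg (Coprod.inl.comp φ : Lamplighter →* Coprod G H) e2
          simp only [map_mul] at e3
          have e4 : (Coprod.inl (φ (Lamplighter.E (List.ofFn u) (List.ofFn v))) : Coprod G H) =
            (Coprod.inl.comp φ : Lamplighter →* Coprod G H) (Lamplighter.E (List.ofFn u) (List.ofFn v)) := rfl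
          rw [e4]
          have e5 : ∀ a b c e g k : Coprod G H, b * (c * e) = k → a * b * c * (e * (k⁻¹ * a⁻¹)) = 1 := by
            intro a b c e g k hk
            rw [← hk]
            group
          exact e5 _ _ _ _ 1 _ e3
        · -- rejected
          intro u u' huu hacc
          rw [← hL] at hacc
          have e1 : full σ τ η d n' bs ++ wl σ τ (List.ofFn u) ++
              (wl σ τ (List.ofFn v) ++ wrep (winv τ ++ winv τ) (d + n')) =
              full σ τ η d n' bs ++ lev σ τ d n' (u, v) := by
            simp only [lev, List.append_assoc]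
          rw [e1] at hacc
          simp only [ev_append, ev_winv] at hacc
          rw [ev_lev σ τ d n' φ f hσ hτ, ev_wl f (Coprod.inl.comp φ) hσ hτ, ev_wl f (Coprod.inl.comp φ) hσ hτ,
            ev_left f (Coprod.inl.comp φ) hτ, ev_left f (Coprod.inl.comp φ) hτ,
            ev_right f (Coprod.inl.comp φ) hτ] at hacc
          have e4 : (Coprod.inl (φ (Lamplighter.E (List.ofFn u) (List.ofFn v))) : Coprod G H) =
            (Coprod.inl.comp φ : Lamplighter →* Coprod G H) (Lamplighter.E (List.ofFn u) (List.ofFn v)) := rfl
          rw [e4] at hacc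
          have e5 : ∀ a b c e k : Coprod G H, a * b * c * (e * (k⁻¹ * a⁻¹)) = 1 → b * (c * e) = k := by
            intro a b c e k hk
            have h1 : a * (b * (c * e)) * k⁻¹ * a⁻¹ = 1 := by
              rw [← hk]
              group
            have h2 : a * ((b * (c * e)) * k⁻¹) * a⁻¹ = 1 := by
              rw [← h1]
              group
            have h3 : (b * (c * e)) * k⁻¹ = 1 := by
              have := conj_eq_one_iff.1 h2
              exact this
            exact mul_inv_eq_one.1 h3
          have e6 := e5 _ _ _ _ _ hacc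
          simp only [← map_mul] at e6
          have hinj : Function.Injective (Coprod.inl.comp φ : Lamplighter →* Coprod G H) :=
            Coprod.inl_injective.comp hφ
          have e7 := hinj e6
          have e8 := (Lamplighter.cancel_iff (List.ofFn u) (List.ofFn u') (List.ofFn v) (by simp)).1 (by
            rw [List.length_ofFn, List.length_ofFn, List.length_ofFn]
            exact e7)
          exact huu (List.ofFn_injective e8)
        · -- bad
          intro u hu
          rw [Finset.mem_image] at hu
          obtain ⟨⟨u1, v1⟩, h1, rfl⟩ := hu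
          rw [Finset.mem_filter, Finset.mem_filter] at h1
          obtain ⟨⟨-, h2⟩, h3⟩ := h1
          have h3 : v1 = v := h3
          subst h3
          have e1 : full σ τ η d n' bs ++ wl σ τ (List.ofFn u1) ++
              (wl σ τ (List.ofFn v1) ++ wrep (winv τ ++ winv τ) (d + n')) =
              full σ τ η d n' bs ++ lev σ τ d n' (u1, v1) := by
            simp only [lev, List.append_assoc]
          rw [e1]
          exact not_le.1 h2
    have h4 : (Finset.univ.filter (good bs)).card + (Finset.univ.filter (fun x => ¬ good bs x)).card =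
        2 ^ (M * d) := by
      rw [Finset.card_filter_add_card_filter_not, Finset.card_univ, Fintype.card_prod, Fintype.card_fun,
        Fintype.card_fun, Fintype.card_bool, Fintype.card_fin, Fintype.card_fin, ← pow_add, hnb]
    have h5 : 2 ^ (d - 1) * 2 ^ n' = 2 ^ (M * d - 1) := by
      rw [← pow_add]
      congr 1
      omega
    have h6 : 2 ^ (M * d) = 2 ^ (M * d - 1) + 2 ^ (M * d - 1) := by
      have h7 : M * d = (M * d - 1) + 1 := by
        have : 0 < M * d := by positivity
        omega
      rw [h7, pow_succ]
      simp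
      ring
    omega
  -- the sets of good lists
  obtain ⟨L1, hL1⟩ : ∃ L1, L1 = (σ.length + 4 * τ.length) * (d + n') + η.length := ⟨_, rfl⟩
  obtain ⟨κ, hκ⟩ : ∃ κ, κ = 2 * (lm * d) + d + η.length := ⟨_, rfl⟩
  have hset : ∀ k, k ≤ M → ∃ Gk : Finset (List ((Fin d → Bool) × (Fin n' → Bool))),
      (2 ^ (M * d - 1)) ^ k ≤ Gk.card ∧ ∀ bs ∈ Gk, bs.length = k ∧
        |pos δ q0 0 (full σ τ η d n' bs)| ≤ ((k * κ : ℕ) : ℤ) ∧
        ∀ t ≤ (full σ τ η d n' bs).length, |pos δ q0 0 ((full σ τ η d n' bs).take t)| ≤ ((k * κ + L1 : ℕ) : ℤ) := by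
    intro k
    induction k with
    | zero =>
      intro _
      refine ⟨{[]}, by simp, ?_⟩
      intro bs hbs
      rw [Finset.mem_singleton] at hbs
      subst hbs
      refine ⟨rfl, ?_, ?_⟩
      · have : full σ τ η d n' [] = [] := rfl
        rw [this, pos_nil]
        simp
      · intro t ht
        have : full σ τ η d n' [] = [] := rfl
        rw [this, List.take_nil, pos_nil, abs_zero]
        positivity
    | succ k ih =>
      intro hk
      obtain ⟨Gk, hG1, hG2⟩ := ih (by omega)
      refine ⟨(Gk.sigma (fun bs => Finset.univ.filter (good bs))).image (fun y => y.1 ++ [y.2]), ?_, ?_⟩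
      · rw [Finset.card_image_of_injective, Finset.card_sigma]
        · rw [pow_succ]
          calc (2 ^ (M * d - 1)) ^ k * 2 ^ (M * d - 1) ≤ Gk.card * 2 ^ (M * d - 1) := Nat.mul_le_mul_right _ hG1
            _ = ∑ _bs ∈ Gk, 2 ^ (M * d - 1) := by rw [Finset.sum_const, smul_eq_mul]
            _ ≤ _ := Finset.sum_le_sum (fun bs hbs => hbad bs (by rw [(hG2 bs hbs).1]; omega))
        · rintro ⟨b1, x1⟩ ⟨b2, x2⟩ he
          have := List.append_inj' he rfl
          have e1 : b1 = b2 := this.1
          have e2 : x1 = x2 := List.cons.inj this.2 |>.1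
          rw [e1, e2]
      · intro bs' hbs'
        rw [Finset.mem_image] at hbs'
        obtain ⟨⟨bs, x⟩, hy, rfl⟩ := hbs'
        rw [Finset.mem_sigma, Finset.mem_filter] at hy
        obtain ⟨hbs, -, hg⟩ := hy
        obtain ⟨g1, g2, g3⟩ := hG2 bs hbs
        simp only
        have hpos : |pos δ q0 0 (full σ τ η d n' (bs ++ [x]))| ≤ (((k + 1) * κ : ℕ) : ℤ) := by
          rw [full_snoc, ← List.append_assoc]
          have h1 := pos_append δ q0 0 hδ (full σ τ η d n' bs ++ lev σ τ d n' x) η
          have h2 : |pos δ q0 0 (full σ τ η d n' bs ++ lev σ τ d n' x) - pos δ q0 0 (full σ τ η d n' bs)| ≤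
            ((2 * (lm * d) + d : ℕ) : ℤ) := hg
          have h3 := abs_le.1 h1
          have h4 := abs_le.1 h2
          have h5 := abs_le.1 g2
          rw [abs_le]
          rw [hκ]
          rw [hκ] at h5
          push_cast at h3 h4 h5 ⊢
          constructor <;> nlinarith [h3.1, h3.2, h4.1, h4.2, h5.1, h5.2]
        refine ⟨by rw [List.length_append, g1]; rfl, hpos, ?_⟩
        intro t ht
        rw [full_snoc] at ht ⊢
        rcases le_total t (full σ τ η d n' bs).length with h1 | h1
        · rw [List.take_append_of_le_length h1]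
          refine (g3 t h1).trans ?_
          have : k * κ + L1 ≤ (k + 1) * κ + L1 := by nlinarith [Nat.zero_le κ]
          exact_mod_cast this
        · have h2 := pos_take_sub δ q0 0 hδ (full σ τ η d n' bs ++ (lev σ τ d n' x ++ η))
            (full σ τ η d n' bs).length t h1
          rw [List.take_left] at h2
          have h3 : t - (full σ τ η d n' bs).length ≤ L1 := by
            rw [List.length_append, List.length_append, length_lev] at ht
            omega
          have h3' : ((t - (full σ τ η d n' bs).length : ℕ) : ℤ) ≤ (L1 : ℤ) := by exact_mod_cast h3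
          have h4 := abs_le.1 (h2.trans h3')
          have h5 := abs_le.1 g2
          rw [abs_le]
          have hκ0 : (0 : ℤ) ≤ κ := by positivity
          push_cast at h5 ⊢
          constructor <;> nlinarith
  obtain ⟨GM, hG1, hG2⟩ := hset M le_rfl
  -- the number of configurations
  obtain ⟨P, hP⟩ : ∃ P, P = M * κ + L1 := ⟨_, rfl⟩
  have hPle : P ≤ C0 * (M * d) := by
    rw [hP, hκ, hL1, hnb, hC0, hK]
    have e1 : M * η.length ≤ M * d * η.length := by
      calc M * η.length = M * 1 * η.length := by ring
        _ ≤ M * d * η.length := Nat.mul_le_mul_right _ (Nat.mul_le_mul_left _ hd0)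
    have e2 : η.length ≤ M * d * η.length := by
      calc η.length = 1 * η.length := (one_mul _).symm
        _ ≤ M * d * η.length := Nat.mul_le_mul_right _ (by nlinarith)
    nlinarith
  refine final_false nQ (m + 1) C0 M d P hd0 (by omega) hM hPle ?_
  have hcard : GM.card ≤ nQ * ((m + 1) ^ (2 * P + 1) * (2 * P + 1)) := by
    let code : List ((Fin d → Bool) × (Fin n' → Bool)) →
        Fin nQ × (Fin (2 * P + 1) → Fin (m + 1)) × Fin (2 * P + 1) := fun bs =>
      ((conf δ q0 0 (full σ τ η d n' bs)).1,
        fun i => (conf δ q0 0 (full σ τ η d n' bs)).2.1 ((i : ℤ) - P),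
        Fin.ofNat (2 * P + 1) (pos δ q0 0 (full σ τ η d n' bs) + P).toNat)
    have hinj : Set.InjOn code GM := by
      intro bs hbs bs' hbs' he
      simp only [code, Prod.mk.injEq] at he
      obtain ⟨e1, e2, e3⟩ := he
      obtain ⟨g1, g2, g3⟩ := hG2 bs hbs
      obtain ⟨g1', g2', g3'⟩ := hG2 bs' hbs'
      have hb : |pos δ q0 0 (full σ τ η d n' bs)| ≤ (P : ℤ) := by
        refine g2.trans ?_
        have : M * κ ≤ P := by omega
        exact_mod_cast this
      have hb' : |pos δ q0 0 (full σ τ η d n' bs')| ≤ (P : ℤ) := by
        refine g2'.trans ?_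
        have : M * κ ≤ P := by omega
        exact_mod_cast this
      have hpos : pos δ q0 0 (full σ τ η d n' bs) = pos δ q0 0 (full σ τ η d n' bs') := by
        have h1 := abs_le.1 hb
        have h2 := abs_le.1 hb'
        have h3 := congrArg Fin.val e3
        simp only [Fin.val_ofNat] at h3
        rw [Nat.mod_eq_of_lt (by omega), Nat.mod_eq_of_lt (by omega)] at h3
        omega
      have htape : (conf δ q0 0 (full σ τ η d n' bs)).2.1 = (conf δ q0 0 (full σ τ η d n' bs')).2.1 := by
        funext i
        by_cases hi : |i| ≤ (P : ℤ)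
        · have h1 := abs_le.1 hi
          have h2 := congrFun e2 ⟨(i + P).toNat, by omega⟩
          simp only at h2
          have h3 : (((i + P).toNat : ℕ) : ℤ) - P = i := by omega
          rw [h3] at h2
          exact h2
        · rw [tape_blank δ q0 0 hδ, tape_blank δ q0 0 hδ]
          · intro t ht h1
            refine hi ?_
            rw [← h1, hP]
            exact g3' t ht.le
          · intro t ht h1
            refine hi ?_
            rw [← h1, hP]
            exact g3 t ht.le
      have hconf : conf δ q0 0 (full σ τ η d n' bs) = conf δ q0 0 (full σ τ η d n' bs') :=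
        Prod.ext e1 (Prod.ext htape hpos)
      have hacc : ev f (full σ τ η d n' bs ++ winv (full σ τ η d n' bs)) = 1 := by
        rw [ev_append, ev_winv, mul_inv_cancel]
      rw [hL, conf_append, hconf, ← conf_append, ← hL, ev_append, ev_winv] at hacc
      have he := mul_inv_eq_one.1 hacc
      rw [ev_full σ τ η d n' φ f hσ hτ hη, ev_full σ τ η d n' φ f hσ hτ hη] at he
      have hne : ∀ bs : List ((Fin d → Bool) × (Fin n' → Bool)),
          ∀ g ∈ bs.map (fun x => φ (Lamplighter.E (List.ofFn x.1) (List.ofFn x.2))), g ≠ 1 := by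
        intro bs g hg h1
        rw [List.mem_map] at hg
        obtain ⟨x, -, rfl⟩ := hg
        have h2 := hφ (h1.trans (map_one φ).symm)
        refine Lamplighter.E_ne_one _ _ ?_ h2
        intro h3
        have := congrArg List.length h3
        rw [List.length_append, List.length_ofFn, List.length_nil] at this
        omega
      have h4 := alt_injective h hh (hne bs') (hne bs) he
      have hinjmap : Function.Injective
          (fun x : (Fin d → Bool) × (Fin n' → Bool) => φ (Lamplighter.E (List.ofFn x.1) (List.ofFn x.2))) := by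
        intro x y hxy
        have h5 := Lamplighter.E_injective _ _ _ _ (by simp) (hφ hxy)
        exact Prod.ext (List.ofFn_injective h5.1) (List.ofFn_injective h5.2)
      exact (List.map_injective_iff.2 hinjmap h4).symm
    have h1 := Finset.card_le_card_of_injOn code (t := Finset.univ) (fun _ _ => Finset.mem_coe.2 (Finset.mem_univ _)) hinj
    refine h1.trans (le_of_eq ?_)
    rw [Finset.card_univ, Fintype.card_prod, Fintype.card_prod, Fintype.card_fun, Fintype.card_fin,
      Fintype.card_fin, Fintype.card_fin]
  exact hG1.trans hcard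

end Pool.Agent.Helper81.RT
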