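import Pool.Agent.Helper81.RT.Base

/-!
# Machines with `k` stacks and bounded look-ahead are real-time with `k` work tapes (MP_eaa19d_lc)
-/

set_option autoImplicit false

namespace Pool.Agent.Helper81.RT

/-- a machine with `k` tapes over arbitrary finite types is real-time with `k` tapes -/
theorem realTime_of {Q A C : Type} [Finite Q] [Finite C] (k : ℕ) (L : Set (List A)) (q0 : Q) (c0 : C) (F : Set Q)
    (δ : Q → A → (Fin k → C) → Q × (Fin k → C) × (Fin k → ℤ)) (hδ : ∀ q a r i, |(δ q a r).2.2 i| ≤ 1)
    (hL : ∀ w : List A, w ∈ L ↔ (List.foldl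
        (fun (c : Q × (Fin k → ℤ → C) × (Fin k → ℤ)) (a : A) =>
          ((δ c.1 a (fun i => c.2.1 i (c.2.2 i))).1,
           fun i => Function.update (c.2.1 i) (c.2.2 i)
             ((δ c.1 a (fun j => c.2.1 j (c.2.2 j))).2.1 i),
           fun i => c.2.2 i + (δ c.1 a (fun j => c.2.1 j (c.2.2 j))).2.2 i))
        (q0, fun _ _ => c0, fun _ => 0) w).1 ∈ F) : RealTimeK k A L := by
  classical
  obtain ⟨n, ⟨eQ⟩⟩ := Finite.exists_equiv_fin Q
  obtain ⟨m', ⟨eC'⟩⟩ := Finite.exists_equiv_fin C
  obtain ⟨m, rfl⟩ : ∃ m, m' = m + 1 := by
    cases m' with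
    | zero => exact (eC' c0).elim0
    | succ m => exact ⟨m, rfl⟩
  let eC : C ≃ Fin (m + 1) := eC'.trans (Equiv.swap (eC' c0) 0)
  have hc0 : eC c0 = 0 := by simp [eC]
  refine ⟨n, m, eQ q0, eQ '' F, fun q a r => (eQ (δ (eQ.symm q) a (fun i => eC.symm (r i))).1,
    fun i => eC ((δ (eQ.symm q) a (fun i => eC.symm (r i))).2.1 i),
    fun i => (δ (eQ.symm q) a (fun i => eC.symm (r i))).2.2 i), ?_, ?_⟩
  · intro q a r i
    exact hδ _ _ _ _
  · intro w
    rw [hL]
    have key : ∀ (w : List A) (c : Q × (Fin k → ℤ → C) × (Fin k → ℤ)), List.foldl
        (fun (c : Fin n × (Fin k → ℤ → Fin (m + 1)) × (Fin k → ℤ)) (a : A) =>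
          ((eQ (δ (eQ.symm c.1) a (fun i => eC.symm (c.2.1 i (c.2.2 i)))).1,
           fun i => Function.update (c.2.1 i) (c.2.2 i)
             (eC ((δ (eQ.symm c.1) a (fun i => eC.symm (c.2.1 i (c.2.2 i)))).2.1 i)),
           fun i => c.2.2 i + (δ (eQ.symm c.1) a (fun i => eC.symm (c.2.1 i (c.2.2 i)))).2.2 i) :
             Fin n × (Fin k → ℤ → Fin (m + 1)) × (Fin k → ℤ)))
        (eQ c.1, fun j i => eC (c.2.1 j i), c.2.2) w =
        (eQ (List.foldl
        (fun (c : Q × (Fin k → ℤ → C) × (Fin k → ℤ)) (a : A) =>
          ((δ c.1 a (fun i => c.2.1 i (c.2.2 i))).1,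
           fun i => Function.update (c.2.1 i) (c.2.2 i)
             ((δ c.1 a (fun j => c.2.1 j (c.2.2 j))).2.1 i),
           fun i => c.2.2 i + (δ c.1 a (fun j => c.2.1 j (c.2.2 j))).2.2 i)) c w).1,
          fun j i => eC ((List.foldl
        (fun (c : Q × (Fin k → ℤ → C) × (Fin k → ℤ)) (a : A) =>
          ((δ c.1 a (fun i => c.2.1 i (c.2.2 i))).1,
           fun i => Function.update (c.2.1 i) (c.2.2 i)
             ((δ c.1 a (fun j => c.2.1 j (c.2.2 j))).2.1 i),
           fun i => c.2.2 i + (δ c.1 a (fun j => c.2.1 j (c.2.2 j))).2.2 i)) c w).2.1 j i),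
          (List.foldl
        (fun (c : Q × (Fin k → ℤ → C) × (Fin k → ℤ)) (a : A) =>
          ((δ c.1 a (fun i => c.2.1 i (c.2.2 i))).1,
           fun i => Function.update (c.2.1 i) (c.2.2 i)
             ((δ c.1 a (fun j => c.2.1 j (c.2.2 j))).2.1 i),
           fun i => c.2.2 i + (δ c.1 a (fun j => c.2.1 j (c.2.2 j))).2.2 i)) c w).2.2) := by
      intro w
      induction w with
      | nil => intro c; rfl
      | cons a w ih =>
        intro c
        rw [List.foldl_cons, List.foldl_cons, ← ih]
        congr 1
        simp only [Equiv.symm_apply_apply]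
        refine Prod.ext rfl (Prod.ext ?_ rfl)
        funext j i
        simp only [Function.update_apply]
        split_ifs <;> rfl
    have := key w (q0, fun _ _ => c0, fun _ => 0)
    simp only [hc0] at this
    rw [this]
    simp

section stack

variable {Q A Γ : Type} {k : ℕ}

/-- one step of a machine with `k` stacks which sees and replaces the top `c` symbols of each stack -/
def sstep (c : ℕ) (δ : Q → A → (Fin k → List Γ) → Q × (Fin k → List Γ)) (x : Q × (Fin k → List Γ)) (a : A) :
    Q × (Fin k → List Γ) :=
  ((δ x.1 a (fun i => (x.2 i).take c)).1,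
    fun i => (δ x.1 a (fun i => (x.2 i).take c)).2 i ++ (x.2 i).drop c)

/-! ### one stack on one tape -/

/-- the state of the simulation of one stack: the buffer and whether a block is being fetched -/
abbrev Bf (Γ : Type) (B : ℕ) : Type := {l : List Γ // l.length ≤ 4 * B} × Bool

/-- the invariant: the stack `s` consists of the buffer and of the blocks on the tape -/
structure SInv {Γ : Type} (c B : ℕ) (s : List Γ) (b : List Γ) (fetch : Bool) (T : ℤ → Option (Fin B → Γ)) (p : ℤ)
    (bs : List (Fin B → Γ)) : Prop where
  hs : s = b ++ bs.reverse.flatMap List.ofFn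
  hT : ∀ j : ℕ, T j = bs[j]?
  hneg : ∀ j : ℤ, j < 0 → T j = none
  hp : p = if fetch then (bs.length : ℤ) - 1 else bs.length
  hlen : b.length ≤ 3 * B + 2 * c
  hlow : bs = [] ∨ (if fetch then 2 * B - c else 2 * B) ≤ b.length
  hfet : fetch = true → b.length < 2 * B

/-- the operation: the new buffer `b'` after the replacement of the top, the read symbol `x`; output: buffer, mode,
written symbol, move -/
def bop (B : ℕ) (b' : List Γ) (fetch : Bool) (x : Option (Fin B → Γ)) :
    List Γ × Bool × Option (Fin B → Γ) × ℤ :=
  match fetch with
  | true =>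
    match x with
    | some t => (b' ++ List.ofFn t, false, none, 0)
    | none => (b', false, none, 1)
  | false =>
    if h : 3 * B ≤ b'.length then
      (b'.take (b'.length - B), false,
        some (fun i => (b'.drop (b'.length - B)).get ⟨i, by rw [List.length_drop]; omega⟩), 1)
    else if b'.length < 2 * B then (b', true, none, -1)
    else (b', false, none, 0)


theorem bop_move (B : ℕ) (b' : List Γ) (fetch : Bool) (x : Option (Fin B → Γ)) : |(bop B b' fetch x).2.2.2| ≤ 1 := by
  unfold bop
  cases fetch
  · simp only
    split_ifs <;> simp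
  · cases x <;> simp

theorem SInv.take {c B : ℕ} (hB : 4 * c ≤ B) {s b : List Γ} {fetch : Bool} {T : ℤ → Option (Fin B → Γ)} {p : ℤ}
    {bs : List (Fin B → Γ)} (h : SInv c B s b fetch T p bs) : s.take c = b.take c := by
  rcases h.hlow with h1 | h1
  · rw [h.hs, h1]
    simp
  · rw [h.hs, List.take_append_of_le_length]
    split_ifs at h1 <;> omega

theorem SInv.drop {c B : ℕ} (hB : 4 * c ≤ B) {s b : List Γ} {fetch : Bool} {T : ℤ → Option (Fin B → Γ)} {p : ℤ}
    {bs : List (Fin B → Γ)} (h : SInv c B s b fetch T p bs) :
    s.drop c = b.drop c ++ bs.reverse.flatMap List.ofFn := by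
  rcases h.hlow with h1 | h1
  · rw [h.hs, h1]
    simp
  · rw [h.hs, List.drop_append_of_le_length]
    split_ifs at h1 <;> omega

theorem SInv.step {c B : ℕ} (hB : 4 * c ≤ B) {s b : List Γ} {fetch : Bool} {T : ℤ → Option (Fin B → Γ)} {p : ℤ}
    {bs : List (Fin B → Γ)} (h : SInv c B s b fetch T p bs) (r : List Γ) (hr : r.length ≤ 2 * c) :
    (bop B (r ++ b.drop c) fetch (T p)).1.length ≤ 4 * B ∧
    ∃ bs', SInv c B (r ++ s.drop c) (bop B (r ++ b.drop c) fetch (T p)).1 (bop B (r ++ b.drop c) fetch (T p)).2.1
      (Function.update T p (bop B (r ++ b.drop c) fetch (T p)).2.2.1)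
      (p + (bop B (r ++ b.drop c) fetch (T p)).2.2.2) bs' := by
  have hdrop := h.drop hB
  obtain ⟨hs, hT, hneg, hp, hlen, hlow, hfet⟩ := h
  rw [hdrop]
  have hl1 : (r ++ b.drop c).length = r.length + (b.length - c) := by simp
  have hl2 : (r ++ b.drop c).length ≤ b.length + 2 * c := by omega
  have hl3 : b.length - c ≤ (r ++ b.drop c).length := by omega
  have hl4 : c ≤ b.length → (r ++ b.drop c).length ≤ b.length + c := by omega
  rw [← List.append_assoc]
  generalize r ++ b.drop c = b' at *
  cases fetch
  · simp only [Bool.false_eq_true, if_false, false_imp_iff] at hp hlow hfet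
    unfold bop
    simp only
    split_ifs with h3 h2
    · -- a block is written
      refine ⟨by simp only [List.length_take]; omega, ?_⟩
      refine ⟨bs ++ [fun i : Fin B => (b'.drop (b'.length - B)).get ⟨i, by rw [List.length_drop]; omega⟩], ?_⟩
      refine ⟨?_, ?_, ?_, ?_, ?_, ?_, ?_⟩
      · simp only
        rw [List.reverse_append, List.reverse_singleton, List.singleton_append, List.flatMap_cons,
          ← List.append_assoc]
        congr 1
        have e : List.ofFn (fun i : Fin B => (b'.drop (b'.length - B)).get ⟨i, by rw [List.length_drop]; omega⟩)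
            = b'.drop (b'.length - B) := by
          apply List.ext_get
          · simp only [List.length_ofFn, List.length_drop]; omega
          · intro j h1 h2
            simp
        rw [e, List.take_append_drop]
      · intro j
        by_cases hj : j = bs.length
        · subst hj
          rw [hp, Function.update_self]
          simp
        · rw [Function.update_of_ne (by rw [hp]; exact_mod_cast hj), hT]
          by_cases hj2 : j < bs.length
          · rw [List.getElem?_append_left hj2]
          · rw [List.getElem?_eq_none (by omega), List.getElem?_eq_none (by simp; omega)]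
      · intro j hj
        rw [Function.update_of_ne (by omega)]
        exact hneg j hj
      · simp [hp]
      · simp only [List.length_take]; omega
      · right
        simp only [List.length_take, Bool.false_eq_true, if_false]
        omega
      · simp
    · refine ⟨by simp only; omega, bs, ?_, ?_, ?_, ?_, ?_, ?_, ?_⟩
      · rfl
      · intro j
        by_cases hj : j = bs.length
        · subst hj
          rw [hp, Function.update_self]
          simp
        · rw [Function.update_of_ne (by rw [hp]; exact_mod_cast hj), hT]
      · intro j hj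
        rw [Function.update_of_ne (by omega)]
        exact hneg j hj
      · simp only [hp, if_true]; ring
      · simp only; omega
      · simp only [if_true]
        rcases hlow with h1 | h1
        · exact Or.inl h1
        · right; omega
      · intro _; exact h2
    · refine ⟨by simp only; omega, bs, ?_, ?_, ?_, ?_, ?_, ?_, ?_⟩
      · rfl
      · intro j
        by_cases hj : j = bs.length
        · subst hj
          rw [hp, Function.update_self]
          simp
        · rw [Function.update_of_ne (by rw [hp]; exact_mod_cast hj), hT]
      · intro j hj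
        rw [Function.update_of_ne (by omega)]
        exact hneg j hj
      · simp [hp]
      · simp only; omega
      · simp only [Bool.false_eq_true, if_false]
        right; omega
      · simp
  · simp only [if_true, true_imp_iff] at hp hlow hfet
    unfold bop
    rcases List.eq_nil_or_concat bs with hbs | ⟨bs', t, hbs⟩
    · -- nothing to fetch
      subst hbs
      have hTp : T p = none := by
        apply hneg
        rw [hp]; simp
      rw [hTp]
      simp only
      refine ⟨by omega, [], ?_, ?_, ?_, ?_, ?_, ?_, ?_⟩
      · simp
      · intro j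
        rw [Function.update_of_ne (by rw [hp]; simp), hT]
      · intro j hj
        by_cases hj2 : j = p
        · rw [hj2, Function.update_self]
        · rw [Function.update_of_ne hj2]
          exact hneg j hj
      · simp [hp]
      · omega
      · exact Or.inl rfl
      · simp
    · rw [List.concat_eq_append] at hbs
      subst hbs
      have hp2 : p = bs'.length := by
        rw [hp]; simp
      have hTp : T p = some t := by
        rw [hp2, hT]
        simp
      rw [hTp]
      have hlow' : 2 * B - c ≤ b.length := by
        rcases hlow with h1 | h1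
        · simp at h1
        · exact h1
      refine ⟨by simp only [List.length_append, List.length_ofFn]; omega, bs', ?_, ?_, ?_, ?_, ?_, ?_, ?_⟩
      · simp only
        rw [List.reverse_append, List.reverse_singleton, List.singleton_append, List.flatMap_cons,
          ← List.append_assoc]
      · intro j
        by_cases hj : j = bs'.length
        · subst hj
          rw [hp2, Function.update_self]
          simp
        · rw [Function.update_of_ne (by rw [hp2]; exact_mod_cast hj), hT]
          by_cases hj2 : j < bs'.length
          · rw [List.getElem?_append_left hj2]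
          · rw [List.getElem?_eq_none (by simp; omega), List.getElem?_eq_none (by omega)]
      · intro j hj
        rw [Function.update_of_ne (by omega)]
        exact hneg j hj
      · simp [hp2]
      · simp only [List.length_append, List.length_ofFn]; omega
      · right
        simp only [List.length_append, List.length_ofFn, Bool.false_eq_true, if_false]; omega
      · simp

end stack

end Pool.Agent.Helper81.RT
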