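import Pool.Agent.Helper81.RT.Base
import Pool.Agent.Helper81.RT.Lamp

/-!
# The lamplighter group is real-time with one work tape (MP_eaa19d_lc)

The tape holds the lamps.  Cell `j` also holds the marks `something lit to the left of j` (valid when the head is to the
right of `j`), `something lit to the right of j` (valid when the head is to the left of `j`) and a flag saying whether `j`
is the origin or one of its neighbours.
-/

set_option autoImplicit false

namespace Pool.Agent.Helper81.RT

namespace Machine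

/-- states: what is known about the cell below the head (left mark, right mark, flag), whether all lamps are off, and
whether the head is at the origin -/
structure St where
  kL : Option Bool
  kR : Option Bool
  kF : Option (Fin 4)
  z : Bool
  o : Bool
deriving DecidableEq, Fintype

/-- cells: lamp, left mark, right mark, flag -/
structure Cell where
  lamp : Bool
  mL : Bool
  mR : Bool
  fl : Fin 4
deriving DecidableEq, Fintype

/-- the flag of a cell: `1` for the origin, `2` for `1`, `3` for `-1`, `0` for the others -/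
def fl (j : ℤ) : Fin 4 := if j = 0 then 1 else if j = 1 then 2 else if j = -1 then 3 else 0

/-- what the head knows about the flag after a move to the right -/
def nextR : Fin 4 → Option (Fin 4)
  | 0 => none
  | 1 => some 2
  | 2 => some 0
  | 3 => some 1

/-- what the head knows about the flag after a move to the left -/
def nextL : Fin 4 → Option (Fin 4)
  | 0 => none
  | 1 => some 3
  | 2 => some 1
  | 3 => some 0

/-- the machine; the letters are the switch (`false`) and the step (`true`) and their inverses -/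
def tr (q : St) (a : Bool ⊕ Bool) (c : Cell) : St × Cell × ℤ :=
  match a with
  | Sum.inl false => (⟨none, none, none, !(q.kL.getD c.mL || !c.lamp || q.kR.getD c.mR), q.o⟩,
      ⟨!c.lamp, q.kL.getD c.mL, q.kR.getD c.mR, q.kF.getD c.fl⟩, 0)
  | Sum.inr false => (⟨none, none, none, !(q.kL.getD c.mL || !c.lamp || q.kR.getD c.mR), q.o⟩,
      ⟨!c.lamp, q.kL.getD c.mL, q.kR.getD c.mR, q.kF.getD c.fl⟩, 0)
  | Sum.inl true => (⟨some (q.kL.getD c.mL || c.lamp), none, nextR (q.kF.getD c.fl), q.z,
      decide (q.kF.getD c.fl = 3)⟩, ⟨c.lamp, q.kL.getD c.mL, q.kR.getD c.mR, q.kF.getD c.fl⟩, 1)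
  | Sum.inr true => (⟨none, some (q.kR.getD c.mR || c.lamp), nextL (q.kF.getD c.fl), q.z,
      decide (q.kF.getD c.fl = 2)⟩, ⟨c.lamp, q.kL.getD c.mL, q.kR.getD c.mR, q.kF.getD c.fl⟩, -1)

/-- the invariant -/
structure Inv (c : St × (ℤ → Cell) × ℤ) (g : Wr) : Prop where
  hp : c.2.2 = g.p
  hA : ∀ j, ((c.2.1 j).lamp = true ↔ g.f j ≠ 0)
  hB : ∀ j, j < g.p → ((c.2.1 j).mL = true ↔ ∃ i, i < j ∧ g.f i ≠ 0)
  hC : ∀ j, g.p < j → ((c.2.1 j).mR = true ↔ ∃ i, j < i ∧ g.f i ≠ 0)
  hD : c.1.kL.getD (c.2.1 g.p).mL = true ↔ ∃ i, i < g.p ∧ g.f i ≠ 0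
  hE : c.1.kR.getD (c.2.1 g.p).mR = true ↔ ∃ i, g.p < i ∧ g.f i ≠ 0
  hz : c.1.z = true ↔ ∀ i, g.f i = 0
  ho : c.1.o = true ↔ g.p = 0
  hH : c.1.kF.getD (c.2.1 g.p).fl = fl g.p
  hI : ∃ a b : ℤ, a ≤ 0 ∧ 0 ≤ b ∧ a ≤ g.p ∧ g.p ≤ b ∧
    (∀ j, a ≤ j → j ≤ b → j ≠ g.p → (c.2.1 j).fl = fl j) ∧ ∀ j, j < a ∨ b < j → (c.2.1 j).fl = 0

theorem inv_init : Inv (⟨none, none, some 1, true, true⟩, fun _ => ⟨false, false, false, 0⟩, 0) 1 where
  hp := rfl
  hA := by intro j; simp
  hB := by intro j _; simp
  hC := by intro j _; simp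
  hD := by simp
  hE := by simp
  hz := by simp
  ho := by simp
  hH := by simp [fl]
  hI := ⟨0, 0, le_rfl, le_rfl, le_rfl, le_rfl, by
    intro j h1 h2 h3
    exact absurd (le_antisymm h2 h1) h3, by intro j _; rfl⟩

theorem zm_toggle (x : ZMod 2) : x + 1 ≠ 0 ↔ ¬ x ≠ 0 := by revert x; decide

theorem inv_toggle {c : St × (ℤ → Cell) × ℤ} {g : Wr} (h : Inv c g) :
    Inv (step tr c (Sum.inl false)) (g * Wr.s) := by
  obtain ⟨q, T, p⟩ := c
  obtain ⟨hp, hA, hB, hC, hD, hE, hz, ho, hH, hI⟩ := h
  simp only at hp hA hB hC hD hE hz ho hH hI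
  subst hp
  have hf : ∀ i, (g * Wr.s).f i = g.f i + (if i = g.p then 1 else 0) := by
    intro i
    simp only [Wr.mul_f, Wr.s]
    congr 1
    by_cases hi : i = g.p
    · simp [hi]
    · rw [if_neg (by omega), if_neg hi]
  have hp' : (g * Wr.s).p = g.p := by simp [Wr.s]
  have hfo : ∀ i, i ≠ g.p → (g * Wr.s).f i = g.f i := by
    intro i hi
    rw [hf, if_neg hi, add_zero]
  have hfp : (g * Wr.s).f g.p ≠ 0 ↔ ¬ g.f g.p ≠ 0 := by
    rw [hf, if_pos rfl]
    exact zm_toggle _
  have hst : step tr (q, T, g.p) (Sum.inl false) = (⟨none, none, none,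
      !(q.kL.getD (T g.p).mL || !(T g.p).lamp || q.kR.getD (T g.p).mR), q.o⟩,
      Function.update T g.p ⟨!(T g.p).lamp, q.kL.getD (T g.p).mL, q.kR.getD (T g.p).mR, q.kF.getD (T g.p).fl⟩,
      g.p + 0) := rfl
  rw [hst]
  refine ⟨?_, ?_, ?_, ?_, ?_, ?_, ?_, ?_, ?_, ?_⟩
  · simp [hp']
  · intro j
    simp only
    by_cases hj : j = g.p
    · subst hj
      rw [Function.update_self, hfp, ← hA]
      simp
    · rw [Function.update_of_ne hj, hfo j hj]
      exact hA j
  · intro j hj
    rw [hp'] at hj
    simp only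
    rw [Function.update_of_ne hj.ne, hB j hj]
    constructor
    · rintro ⟨i, h1, h2⟩
      exact ⟨i, h1, by rwa [hfo i (by omega)]⟩
    · rintro ⟨i, h1, h2⟩
      exact ⟨i, h1, by rwa [hfo i (by omega)] at h2⟩
  · intro j hj
    rw [hp'] at hj
    simp only
    rw [Function.update_of_ne hj.ne', hC j hj]
    constructor
    · rintro ⟨i, h1, h2⟩
      exact ⟨i, h1, by rwa [hfo i (by omega)]⟩
    · rintro ⟨i, h1, h2⟩
      exact ⟨i, h1, by rwa [hfo i (by omega)] at h2⟩
  · rw [hp']
    simp only [Function.update_self, Option.getD_none]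
    rw [hD]
    constructor
    · rintro ⟨i, h1, h2⟩
      exact ⟨i, h1, by rwa [hfo i (by omega)]⟩
    · rintro ⟨i, h1, h2⟩
      exact ⟨i, h1, by rwa [hfo i (by omega)] at h2⟩
  · rw [hp']
    simp only [Function.update_self, Option.getD_none]
    rw [hE]
    constructor
    · rintro ⟨i, h1, h2⟩
      exact ⟨i, h1, by rwa [hfo i (by omega)]⟩
    · rintro ⟨i, h1, h2⟩
      exact ⟨i, h1, by rwa [hfo i (by omega)] at h2⟩
  · simp only
    rw [Bool.not_eq_true', Bool.or_eq_false_iff, Bool.or_eq_false_iff, Bool.not_eq_false', hA]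
    constructor
    · rintro ⟨⟨h1, h2⟩, h3⟩ i
      rcases lt_trichotomy i g.p with hi | hi | hi
      · by_contra hne
        rw [hfo i hi.ne] at hne
        have := hD.2 ⟨i, hi, hne⟩
        rw [h1] at this
        exact Bool.false_ne_true this
      · subst hi
        by_contra hne
        exact (hfp.1 hne) h2
      · by_contra hne
        rw [hfo i hi.ne'] at hne
        have := hE.2 ⟨i, hi, hne⟩
        rw [h3] at this
        exact Bool.false_ne_true this
    · intro hall
      refine ⟨⟨?_, ?_⟩, ?_⟩
      · rw [← Bool.not_eq_true, hD]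
        rintro ⟨i, h1, h2⟩
        exact h2 (by rw [← hfo i h1.ne]; exact hall i)
      · by_contra hne
        exact (hfp.2 (not_not.2 hne)) (hall _)
      · rw [← Bool.not_eq_true, hE]
        rintro ⟨i, h1, h2⟩
        exact h2 (by rw [← hfo i h1.ne']; exact hall i)
  · simp only
    rw [hp']
    exact ho
  · rw [hp']
    simp only [Function.update_self, Option.getD_none]
    exact hH
  · obtain ⟨a, b, h1, h2, h3, h4, h5, h6⟩ := hI
    rw [hp']
    refine ⟨a, b, h1, h2, h3, h4, ?_, ?_⟩
    · intro j g1 g2 g3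
      simp only
      rw [Function.update_of_ne g3]
      exact h5 j g1 g2 g3
    · intro j g1
      simp only
      rw [Function.update_of_ne (by omega)]
      exact h6 j g1

theorem inv_right {c : St × (ℤ → Cell) × ℤ} {g : Wr} (h : Inv c g) :
    Inv (step tr c (Sum.inl true)) (g * Wr.t) := by
  obtain ⟨q, T, p⟩ := c
  obtain ⟨hp, hA, hB, hC, hD, hE, hz, ho, hH, hI⟩ := h
  simp only at hp hA hB hC hD hE hz ho hH hI
  subst hp
  have hf : ∀ i, (g * Wr.t).f i = g.f i := by
    intro i
    simp [Wr.t]
  have hp' : (g * Wr.t).p = g.p + 1 := by simp [Wr.t]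
  have hst : step tr (q, T, g.p) (Sum.inl true) = (⟨some (q.kL.getD (T g.p).mL || (T g.p).lamp), none,
      nextR (q.kF.getD (T g.p).fl), q.z, decide (q.kF.getD (T g.p).fl = 3)⟩,
      Function.update T g.p ⟨(T g.p).lamp, q.kL.getD (T g.p).mL, q.kR.getD (T g.p).mR, q.kF.getD (T g.p).fl⟩,
      g.p + 1) := rfl
  rw [hst]
  refine ⟨?_, ?_, ?_, ?_, ?_, ?_, ?_, ?_, ?_, ?_⟩
  · simp [hp']
  · intro j
    simp only [hf]
    by_cases hj : j = g.p
    · subst hj
      rw [Function.update_self]
      exact hA _
    · rw [Function.update_of_ne hj]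
      exact hA j
  · intro j hj
    rw [hp'] at hj
    simp only [hf]
    rcases lt_or_eq_of_le (Int.lt_add_one_iff.1 hj) with h1 | h1
    · rw [Function.update_of_ne h1.ne]
      exact hB j h1
    · subst h1
      rw [Function.update_self]
      exact hD
  · intro j hj
    rw [hp'] at hj
    simp only [hf]
    rw [Function.update_of_ne (by omega)]
    exact hC j (by omega)
  · simp only [hp', hf, Option.getD_some]
    rw [Bool.or_eq_true, hD, hA]
    constructor
    · rintro (⟨i, h1, h2⟩ | h1)
      · exact ⟨i, by omega, h2⟩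
      · exact ⟨g.p, by omega, h1⟩
    · rintro ⟨i, h1, h2⟩
      rcases lt_or_eq_of_le (Int.lt_add_one_iff.1 h1) with h3 | h3
      · exact Or.inl ⟨i, h3, h2⟩
      · exact Or.inr (h3 ▸ h2)
  · simp only [hp', hf, Option.getD_none]
    rw [Function.update_of_ne (by omega)]
    exact hC _ (by omega)
  · simp only [hf]
    exact hz
  · simp only [hp']
    rw [decide_eq_true_iff, hH]
    unfold fl
    split_ifs <;> simp <;> omega
  · simp only [hp']
    rw [hH, Function.update_of_ne (by omega)]
    obtain ⟨a, b, h1, h2, h3, h4, h5, h6⟩ := hI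
    by_cases c0 : g.p = 0
    · rw [c0]; rfl
    · by_cases c1 : g.p = 1
      · rw [c1]; rfl
      · by_cases c2 : g.p = -1
        · rw [c2]; rfl
        · have e : fl g.p = 0 := by
            unfold fl
            rw [if_neg c0, if_neg c1, if_neg c2]
          rw [e]
          show (T (g.p + 1)).fl = fl (g.p + 1)
          by_cases hb : g.p + 1 ≤ b
          · exact h5 _ (by omega) hb (by omega)
          · rw [h6 _ (Or.inr (by omega))]
            unfold fl
            rw [if_neg (by omega), if_neg (by omega), if_neg (by omega)]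
  · obtain ⟨a, b, h1, h2, h3, h4, h5, h6⟩ := hI
    rw [hp']
    refine ⟨a, max b (g.p + 1), h1, by omega, by omega, by omega, ?_, ?_⟩
    · intro j g1 g2 g3
      simp only
      by_cases hj : j = g.p
      · subst hj
        rw [Function.update_self]
        exact hH
      · rw [Function.update_of_ne hj]
        exact h5 j g1 (by omega) hj
    · intro j g1
      simp only
      rw [Function.update_of_ne (by omega)]
      exact h6 j (by omega)

theorem inv_left {c : St × (ℤ → Cell) × ℤ} {g : Wr} (h : Inv c g) :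
    Inv (step tr c (Sum.inr true)) (g * Wr.t⁻¹) := by
  obtain ⟨q, T, p⟩ := c
  obtain ⟨hp, hA, hB, hC, hD, hE, hz, ho, hH, hI⟩ := h
  simp only at hp hA hB hC hD hE hz ho hH hI
  subst hp
  have hf : ∀ i, (g * Wr.t⁻¹).f i = g.f i := by
    intro i
    simp [Wr.t]
  have hp' : (g * Wr.t⁻¹).p = g.p + -1 := by simp [Wr.t]
  have hst : step tr (q, T, g.p) (Sum.inr true) = (⟨none, some (q.kR.getD (T g.p).mR || (T g.p).lamp),
      nextL (q.kF.getD (T g.p).fl), q.z, decide (q.kF.getD (T g.p).fl = 2)⟩,
      Function.update T g.p ⟨(T g.p).lamp, q.kL.getD (T g.p).mL, q.kR.getD (T g.p).mR, q.kF.getD (T g.p).fl⟩,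
      g.p + -1) := rfl
  rw [hst]
  refine ⟨?_, ?_, ?_, ?_, ?_, ?_, ?_, ?_, ?_, ?_⟩
  · simp [hp']
  · intro j
    simp only [hf]
    by_cases hj : j = g.p
    · subst hj
      rw [Function.update_self]
      exact hA _
    · rw [Function.update_of_ne hj]
      exact hA j
  · intro j hj
    rw [hp'] at hj
    simp only [hf]
    rw [Function.update_of_ne (by omega)]
    exact hB j (by omega)
  · intro j hj
    rw [hp'] at hj
    simp only [hf]
    by_cases h1 : j = g.p
    · subst h1
      rw [Function.update_self]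
      exact hE
    · rw [Function.update_of_ne h1]
      exact hC j (by omega)
  · simp only [hp', hf, Option.getD_none]
    rw [Function.update_of_ne (by omega)]
    exact hB _ (by omega)
  · simp only [hp', hf, Option.getD_some]
    rw [Bool.or_eq_true, hE, hA]
    constructor
    · rintro (⟨i, h1, h2⟩ | h1)
      · exact ⟨i, by omega, h2⟩
      · exact ⟨g.p, by omega, h1⟩
    · rintro ⟨i, h1, h2⟩
      by_cases h3 : i = g.p
      · exact Or.inr (h3 ▸ h2)
      · exact Or.inl ⟨i, by omega, h2⟩
  · simp only [hf]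
    exact hz
  · simp only [hp']
    rw [decide_eq_true_iff, hH]
    unfold fl
    split_ifs <;> simp <;> omega
  · simp only [hp']
    rw [hH, Function.update_of_ne (by omega)]
    obtain ⟨a, b, h1, h2, h3, h4, h5, h6⟩ := hI
    by_cases c0 : g.p = 0
    · rw [c0]; rfl
    · by_cases c1 : g.p = 1
      · rw [c1]; rfl
      · by_cases c2 : g.p = -1
        · rw [c2]; rfl
        · have e : fl g.p = 0 := by
            unfold fl
            rw [if_neg c0, if_neg c1, if_neg c2]
          rw [e]
          show (T (g.p + -1)).fl = fl (g.p + -1)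
          by_cases hb : a ≤ g.p + -1
          · exact h5 _ hb (by omega) (by omega)
          · rw [h6 _ (Or.inl (by omega))]
            unfold fl
            rw [if_neg (by omega), if_neg (by omega), if_neg (by omega)]
  · obtain ⟨a, b, h1, h2, h3, h4, h5, h6⟩ := hI
    rw [hp']
    refine ⟨min a (g.p + -1), b, by omega, h2, by omega, by omega, ?_, ?_⟩
    · intro j g1 g2 g3
      simp only
      by_cases hj : j = g.p
      · subst hj
        rw [Function.update_self]
        exact hH
      · rw [Function.update_of_ne hj]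
        exact h5 j (by omega) g2 hj
    · intro j g1
      simp only
      rw [Function.update_of_ne (by omega)]
      exact h6 j (by omega)

/-- the generators -/
def gen (b : Bool) : Lamplighter := if b then Lamplighter.t else Lamplighter.s

theorem s_inv : (Wr.s)⁻¹ = Wr.s := by
  ext i
  · simp [Wr.s]
  · simp [Wr.s]

theorem inv_step {c : St × (ℤ → Cell) × ℤ} {g : Wr} (h : Inv c g) (a : Bool ⊕ Bool) :
    Inv (step tr c a) (g * ((Sum.elim gen (fun b => (gen b)⁻¹) a : Lamplighter) : Wr)) := by
  match a with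
  | Sum.inl false => exact inv_toggle h
  | Sum.inl true => exact inv_right h
  | Sum.inr false =>
    have e : (((gen false)⁻¹ : Lamplighter) : Wr) = Wr.s := s_inv
    show Inv (step tr c (Sum.inr false)) (g * (((gen false)⁻¹ : Lamplighter) : Wr))
    rw [e]
    exact inv_toggle h
  | Sum.inr true =>
    have e : (((gen true)⁻¹ : Lamplighter) : Wr) = Wr.t⁻¹ := rfl
    show Inv (step tr c (Sum.inr true)) (g * (((gen true)⁻¹ : Lamplighter) : Wr))
    rw [e]
    exact inv_left h

theorem inv_run (w : List (Bool ⊕ Bool)) : ∀ {c : St × (ℤ → Cell) × ℤ} {g : Wr}, Inv c g →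
    Inv (w.foldl (step tr) c)
      (g * (((w.map (Sum.elim gen (fun b => (gen b)⁻¹))).prod : Lamplighter) : Wr)) := by
  induction w with
  | nil =>
    intro c g h
    simpa using h
  | cons a w ih =>
    intro c g h
    rw [List.foldl_cons, List.map_cons, List.prod_cons, Subgroup.coe_mul, ← mul_assoc]
    exact ih (inv_step h a)

end Machine

open Machine in
/-- the lamplighter group is real-time with one work tape -/
theorem lamplighter_one : RealTimeGroupK 1 Lamplighter := by
  refine ⟨Bool, inferInstance, gen, ?_, ?_⟩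
  · have h := Subgroup.closure_closure_coe_preimage (k := ({Wr.s, Wr.t} : Set Wr))
    have e : (((↑) : Lamplighter → Wr) ⁻¹' ({Wr.s, Wr.t} : Set Wr)) = Set.range gen := by
      ext x
      constructor
      · intro hx
        rcases hx with hx | hx
        · exact ⟨false, Subtype.ext hx.symm⟩
        · exact ⟨true, Subtype.ext hx.symm⟩
      · rintro ⟨b, rfl⟩
        cases b
        · exact Or.inl rfl
        · exact Or.inr rfl
    rw [← e]
    exact h
  · refine realTime_one_of _ (⟨none, none, some 1, true, true⟩ : St) (⟨false, false, false, 0⟩ : Cell)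
      {q | q.z = true ∧ q.o = true} tr ?_ ?_
    · intro q a r
      match a with
      | Sum.inl false => simp [tr]
      | Sum.inl true => simp [tr]
      | Sum.inr false => simp [tr]
      | Sum.inr true => simp [tr]
    · intro w
      have h := inv_run w inv_init
      rw [one_mul] at h
      show (w.map (Sum.elim gen (fun b => (gen b)⁻¹))).prod = 1 ↔ _ ∧ _
      have h1 := h.hz
      have h2 := h.ho
      rw [show conf tr (⟨none, none, some 1, true, true⟩ : St) (⟨false, false, false, 0⟩ : Cell) w =
        w.foldl (step tr) (⟨none, none, some 1, true, true⟩, fun _ => ⟨false, false, false, 0⟩, 0) from rfl,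
        h1, h2]
      constructor
      · intro e
        rw [e]
        exact ⟨fun _ => rfl, rfl⟩
      · rintro ⟨e1, e2⟩
        apply Subtype.ext
        ext i
        · exact e1 i
        · exact e2

end Pool.Agent.Helper81.RT
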