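import Pool.Agent.Helper81.RT.Lamp

/-!
# Zippers for the lamplighter group (MP_eaa19d_lc)
-/

set_option autoImplicit false

namespace Pool.Agent.Helper81.RT

/-- a cell: the lamp and whether it is the origin -/
structure Cel where
  lamp : Bool
  org : Bool
deriving DecidableEq, Fintype

namespace Cel

def blank : Cel := ⟨false, false⟩
def orig : Cel := ⟨false, true⟩

end Cel

/-- a zipper: the cells to the left of the head, the cell below the head, the cells to the right of the head -/
structure Zip where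
  l : List Cel
  c : Cel
  r : List Cel

/-- the cell at `j` -/
def cell (g : Wr) (j : ℤ) : Cel := ⟨decide (g.f j ≠ 0), decide (j = 0)⟩

/-- the last element is not blank -/
def Canon (l : List Cel) : Prop := l = [] ∨ ∃ m x, l = m ++ [x] ∧ x ≠ Cel.blank

/-- put a cell on a stack; a blank cell is not put on the empty stack -/
def psh (x : Cel) (l : List Cel) : List Cel := if l = [] ∧ x = Cel.blank then [] else x :: l

theorem psh_zero (x : Cel) (l : List Cel) : (psh x l)[0]?.getD Cel.blank = x := by
  unfold psh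
  split_ifs with h
  · simp [h.2]
  · simp

theorem psh_succ (x : Cel) (l : List Cel) (i : ℕ) : (psh x l)[i + 1]?.getD Cel.blank = l[i]?.getD Cel.blank := by
  unfold psh
  split_ifs with h
  · simp [h.1]
  · simp

theorem psh_canon {x : Cel} {l : List Cel} (h : Canon l) : Canon (psh x l) := by
  unfold psh
  split_ifs with h1
  · exact Or.inl rfl
  · rcases h with rfl | ⟨m, y, rfl, hy⟩
    · right
      refine ⟨[], x, rfl, fun h2 => h1 ⟨rfl, h2⟩⟩
    · exact Or.inr ⟨x :: m, y, rfl, hy⟩

theorem tail_canon {l : List Cel} (h : Canon l) : Canon l.tail := by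
  rcases h with rfl | ⟨m, y, rfl, hy⟩
  · exact Or.inl rfl
  · cases m with
    | nil => exact Or.inl rfl
    | cons x m => exact Or.inr ⟨m, y, rfl, hy⟩

/-- the zipper represents the group element -/
structure Rel (z : Zip) (g : Wr) : Prop where
  hl : ∀ i : ℕ, z.l[i]?.getD Cel.blank = cell g (g.p - 1 - i)
  hc : z.c = cell g g.p
  hr : ∀ i : ℕ, z.r[i]?.getD Cel.blank = cell g (g.p + 1 + i)
  cl : Canon z.l
  cr : Canon z.r

theorem rel_one : Rel ⟨[], Cel.orig, []⟩ 1 where
  hl := by
    intro i
    have : (-1 - (i : ℤ)) ≠ 0 := by omega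
    simp [cell, Cel.blank, this]
  hc := by simp [cell, Cel.orig]
  hr := by
    intro i
    have : (1 + (i : ℤ)) ≠ 0 := by omega
    simp [cell, Cel.blank, this]
  cl := Or.inl rfl
  cr := Or.inl rfl

theorem cell_t (g : Wr) (j : ℤ) : cell (g * Wr.t) j = cell g j := by
  simp [cell, Wr.t]

theorem cell_t' (g : Wr) (j : ℤ) : cell (g * Wr.t⁻¹) j = cell g j := by
  simp [cell, Wr.t]

theorem cell_s (g : Wr) (j : ℤ) (hj : j ≠ g.p) : cell (g * Wr.s) j = cell g j := by
  have : j - g.p ≠ 0 := by omega
  simp [cell, Wr.s, this]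

theorem cell_s' (g : Wr) : cell (g * Wr.s) g.p = ⟨!(cell g g.p).lamp, (cell g g.p).org⟩ := by
  have : ∀ x : ZMod 2, decide (x + 1 ≠ 0) = !decide (x ≠ 0) := by decide
  simp only [cell, Wr.s, Wr.mul_f, sub_self, if_true]
  rw [this]

theorem Rel.toggle {z : Zip} {g : Wr} (h : Rel z g) : Rel ⟨z.l, ⟨!z.c.lamp, z.c.org⟩, z.r⟩ (g * Wr.s) := by
  have hp : (g * Wr.s).p = g.p := by simp [Wr.s]
  refine ⟨?_, ?_, ?_, h.cl, h.cr⟩
  · intro i
    rw [hp, cell_s _ _ (by omega)]
    exact h.hl i
  · rw [hp, cell_s', h.hc]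
  · intro i
    rw [hp, cell_s _ _ (by omega)]
    exact h.hr i

theorem getD_headD (l : List Cel) : l[0]?.getD Cel.blank = l.headD Cel.blank := by
  cases l <;> rfl

theorem getD_tail (l : List Cel) (i : ℕ) : l.tail[i]?.getD Cel.blank = l[i + 1]?.getD Cel.blank := by
  cases l <;> simp

theorem Rel.right {z : Zip} {g : Wr} (h : Rel z g) :
    Rel ⟨psh z.c z.l, z.r.headD Cel.blank, z.r.tail⟩ (g * Wr.t) := by
  have hp : (g * Wr.t).p = g.p + 1 := by simp [Wr.t]
  refine ⟨?_, ?_, ?_, psh_canon h.cl, tail_canon h.cr⟩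
  · intro i
    rw [hp, cell_t]
    cases i with
    | zero =>
      rw [psh_zero, h.hc]
      congr 1
      push_cast
      ring
    | succ i =>
      rw [psh_succ, h.hl]
      congr 1
      push_cast
      ring
  · rw [hp, cell_t]
    show z.r.headD Cel.blank = _
    rw [← getD_headD, h.hr]
    congr 1
    push_cast
    ring
  · intro i
    rw [hp, cell_t]
    show z.r.tail[i]?.getD Cel.blank = _
    rw [getD_tail, h.hr]
    congr 1
    push_cast
    ring

theorem Rel.left {z : Zip} {g : Wr} (h : Rel z g) :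
    Rel ⟨z.l.tail, z.l.headD Cel.blank, psh z.c z.r⟩ (g * Wr.t⁻¹) := by
  have hp : (g * Wr.t⁻¹).p = g.p - 1 := by simp [Wr.t]; ring
  refine ⟨?_, ?_, ?_, tail_canon h.cl, psh_canon h.cr⟩
  · intro i
    rw [hp, cell_t']
    show z.l.tail[i]?.getD Cel.blank = _
    rw [getD_tail, h.hl]
    congr 1
    push_cast
    ring
  · rw [hp, cell_t']
    show z.l.headD Cel.blank = _
    rw [← getD_headD, h.hl]
    congr 1
    push_cast
    ring
  · intro i
    rw [hp, cell_t']
    cases i with
    | zero =>
      rw [psh_zero, h.hc]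
      congr 1
      push_cast
      ring
    | succ i =>
      rw [psh_succ, h.hr]
      congr 1
      push_cast
      ring

theorem canon_blank {l : List Cel} (h : Canon l) (hb : ∀ i : ℕ, l[i]?.getD Cel.blank = Cel.blank) : l = [] := by
  rcases h with rfl | ⟨m, y, rfl, hy⟩
  · rfl
  · exfalso
    apply hy
    have := hb m.length
    simpa using this

theorem Rel.eq_one_iff {z : Zip} {g : Wr} (h : Rel z g) : (z.l = [] ∧ z.r = [] ∧ z.c = Cel.orig) ↔ g = 1 := by
  constructor
  · rintro ⟨h1, h2, h3⟩
    have hp : g.p = 0 := by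
      have e := h.hc
      rw [h3] at e
      have := congrArg Cel.org e
      simpa [Cel.orig, cell] using this
    ext j
    · rw [Wr.one_f]
      have key : (cell g j).lamp = false := by
        rcases lt_trichotomy j 0 with hj | hj | hj
        · obtain ⟨i, hi⟩ : ∃ i : ℕ, j = g.p - 1 - i := ⟨(-1 - j).toNat, by omega⟩
          rw [hi, ← h.hl, h1]
          rfl
        · rw [hj, ← hp, ← h.hc, h3]
          rfl
        · obtain ⟨i, hi⟩ : ∃ i : ℕ, j = g.p + 1 + i := ⟨(j - 1).toNat, by omega⟩
          rw [hi, ← h.hr, h2]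
          rfl
      simpa [cell] using key
    · rw [hp]; rfl
  · rintro rfl
    refine ⟨canon_blank h.cl ?_, canon_blank h.cr ?_, ?_⟩
    · intro i
      rw [h.hl]
      exact (rel_one.hl i).symm
    · intro i
      rw [h.hr]
      exact (rel_one.hr i).symm
    · rw [h.hc]
      exact rel_one.hc.symm

end Pool.Agent.Helper81.RT
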