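import Pool.Agent.Helper81.RT.Stack2
import Pool.Agent.Helper81.RT.Free2
import Pool.Agent.Helper81.RT.Zipp
import Pool.Agent.Helper81.RT.Upper

/-!
# Free products of the lamplighter group and finite groups are real-time with two work tapes (MP_eaa19d_lc)
-/

set_option autoImplicit false

namespace Pool.Agent.Helper81.RT

namespace TwoTape

open Monoid
open Machine (gen)

/-- the kinds of letters -/
inductive Op (H : Type)
  | tog
  | right
  | left
  | hh (x : H)

/-- stack symbols: cells and marks (with the current cell of the level below and the letter in between) -/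
abbrev Sym (H : Type) : Type := Cel ⊕ (Cel × H)

section spec

variable {H : Type}

def headCell : List (Sym H) → Cel
  | Sum.inl x :: _ => x
  | _ => Cel.blank

def restCell : List (Sym H) → List (Sym H)
  | Sum.inl _ :: _ => []
  | v => v

def isCell : List (Sym H) → Bool
  | Sum.inl _ :: _ => true
  | _ => false

def pushCell (c : Cel) (u : List (Sym H)) : List (Sym H) :=
  if isCell u = false ∧ c = Cel.blank then u else Sum.inl c :: u

/-- the list does not start with a cell -/
def Bot (E : List (Sym H)) : Prop := E = [] ∨ ∃ s E', E = Sum.inr s :: E'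

theorem headCell_spec (l : List Cel) (E : List (Sym H)) (hE : Bot E) :
    headCell ((l.map Sum.inl ++ E).take 1) = l.headD Cel.blank := by
  cases l with
  | nil =>
    rcases hE with rfl | ⟨s, E', rfl⟩
    · rfl
    · rfl
  | cons x l => rfl

theorem restCell_spec (l : List Cel) (E : List (Sym H)) (hE : Bot E) :
    restCell ((l.map Sum.inl ++ E).take 1) ++ (l.map Sum.inl ++ E).drop 1 = l.tail.map Sum.inl ++ E := by
  cases l with
  | nil =>
    rcases hE with rfl | ⟨s, E', rfl⟩
    · rfl
    · rfl
  | cons x l => rfl

theorem isCell_spec (l : List Cel) (E : List (Sym H)) (hE : Bot E) :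
    isCell ((l.map Sum.inl ++ E).take 1) = false ↔ l = [] := by
  cases l with
  | nil =>
    rcases hE with rfl | ⟨s, E', rfl⟩
    · simp [isCell]
    · simp [isCell]
  | cons x l => simp [isCell]

theorem pushCell_spec (c : Cel) (l : List Cel) (E : List (Sym H)) (hE : Bot E) :
    pushCell c ((l.map Sum.inl ++ E).take 1) ++ (l.map Sum.inl ++ E).drop 1 = (psh c l).map Sum.inl ++ E := by
  unfold pushCell psh
  have hs := isCell_spec l E hE
  by_cases h : l = [] ∧ c = Cel.blank
  · rw [if_pos ⟨hs.2 h.1, h.2⟩, if_pos h, List.take_append_drop, h.1]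
  · rw [if_neg (fun h' => h ⟨hs.1 h'.1, h'.2⟩), if_neg h, List.cons_append, List.take_append_drop]
    rfl

theorem restCell_length (v : List (Sym H)) (hv : v.length ≤ 1) : (restCell v).length ≤ 1 := by
  cases v with
  | nil => simp [restCell]
  | cons x v =>
    cases x with
    | inl x => simp [restCell]
    | inr x => exact hv

theorem pushCell_length (c : Cel) (v : List (Sym H)) (hv : v.length ≤ 1) : (pushCell c v).length ≤ 2 := by
  unfold pushCell
  split_ifs
  · omega
  · simp only [List.length_cons]; omega

end spec

variable {H : Type} [Group H]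

open Classical in
/-- the machine: the new current cell and the new tops of the two stacks -/
noncomputable def dl (c : Cel) (o : Op H) (u v : List (Sym H)) : Cel × List (Sym H) × List (Sym H) :=
  match o with
  | .tog => (⟨!c.lamp, c.org⟩, u, v)
  | .right => (headCell v, pushCell c u, restCell v)
  | .left => (headCell u, restCell u, pushCell c v)
  | .hh y =>
    match u with
    | Sum.inr (c', h) :: _ =>
      if c = Cel.orig ∧ isCell v = false then
        if h * y = 1 then (c', [], []) else (c, [Sum.inr (c', h * y)], v)
      else if y = 1 then (c, u, v) else (Cel.orig, Sum.inr (c, y) :: u, Sum.inr (Cel.blank, 1) :: v)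
    | _ => if y = 1 then (c, u, v) else (Cel.orig, Sum.inr (c, y) :: u, Sum.inr (Cel.blank, 1) :: v)

theorem dl_length (c : Cel) (o : Op H) (u v : List (Sym H)) (hu : u.length ≤ 1) (hv : v.length ≤ 1) :
    (dl c o u v).2.1.length ≤ 2 ∧ (dl c o u v).2.2.length ≤ 2 := by
  unfold dl
  split
  · simp only; omega
  · exact ⟨pushCell_length _ _ hu, by have := restCell_length v hv; simp only; omega⟩
  · exact ⟨by have := restCell_length u hu; simp only; omega, pushCell_length _ _ hv⟩
  · split
    · split_ifs
      · simp
      · simp only [List.length_singleton]; omega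
      · simp only; omega
      · simp only [List.length_cons] at *; omega
    · split_ifs
      · simp only; omega
      · simp only [List.length_cons] at *; omega

abbrev Lev (H : Type) : Type := (Zip × Lamplighter) × H

def encL : List (Lev H) → List (Sym H)
  | [] => []
  | e :: zs => Sum.inr (e.1.1.c, e.2) :: (e.1.1.l.map Sum.inl ++ encL zs)

def encR : List (Lev H) → List (Sym H)
  | [] => []
  | e :: zs => Sum.inr (Cel.blank, 1) :: (e.1.1.r.map Sum.inl ++ encR zs)

omit [Group H] in
theorem bot_encL (zs : List (Lev H)) : Bot (encL zs) := by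
  cases zs with
  | nil => exact Or.inl rfl
  | cons e zs => exact Or.inr ⟨_, _, rfl⟩

theorem bot_encR (zs : List (Lev H)) : Bot (encR zs) := by
  cases zs with
  | nil => exact Or.inl rfl
  | cons e zs => exact Or.inr ⟨_, _, rfl⟩

/-- the invariant -/
def TInv (c : Cel) (u v : List (Sym H)) (g : Coprod Lamplighter H) : Prop :=
  ∃ (l r : List Cel) (x : Lamplighter) (zs : List (Lev H)), Rel ⟨l, c, r⟩ (x : Wr) ∧
    (∀ e ∈ zs, Rel e.1.1 (e.1.2 : Wr) ∧ e.2 ≠ 1) ∧ (∀ e ∈ zs.dropLast, e.1.2 ≠ 1) ∧
    u = l.map Sum.inl ++ encL zs ∧ v = r.map Sum.inl ++ encR zs ∧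
    g = low (zs.map (fun e => (e.1.2, e.2))) * Coprod.inl x

theorem tinv_init : TInv (H := H) Cel.orig [] [] 1 :=
  ⟨[], [], 1, [], rel_one, by simp, by simp, rfl, rfl, by simp [low_nil]⟩

theorem TInv.accept {c : Cel} {u v : List (Sym H)} {g : Coprod Lamplighter H} (h : TInv c u v g) :
    (c = Cel.orig ∧ u.take 1 = [] ∧ v.take 1 = []) ↔ g = 1 := by
  obtain ⟨l, r, x, zs, h1, h2, h3, h4, h5, h6⟩ := h
  have key : g = 1 ↔ zs = [] ∧ x = 1 := by
    rw [h6, low_eq_one_iff]
    · simp
    · intro e he
      obtain ⟨e', he', rfl⟩ := List.mem_map.1 he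
      exact (h2 e' he').2
    · intro e he
      rw [← List.map_dropLast] at he
      obtain ⟨e', he', rfl⟩ := List.mem_map.1 he
      exact h3 e' he'
  have hx : (x : Wr) = 1 ↔ x = 1 := by
    constructor
    · intro e; exact Subtype.ext e
    · rintro rfl; rfl
  rw [key, ← hx, ← h1.eq_one_iff]
  have take_nil : ∀ u : List (Sym H), u.take 1 = [] ↔ u = [] := by
    intro u
    cases u <;> simp
  rw [take_nil, take_nil, h4, h5, List.append_eq_nil_iff, List.append_eq_nil_iff, List.map_eq_nil_iff,
    List.map_eq_nil_iff]
  constructor
  · rintro ⟨e1, ⟨e2, e3⟩, e4, e5⟩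
    refine ⟨?_, e2, e4, e1⟩
    cases zs with
    | nil => rfl
    | cons e zs => simp [encL] at e3
  · rintro ⟨rfl, e2, e4, e1⟩
    exact ⟨e1, ⟨e2, rfl⟩, e4, rfl⟩

/-- the value of a kind of letters -/
noncomputable def val : Op H → Coprod Lamplighter H
  | .tog => Coprod.inl Lamplighter.s
  | .right => Coprod.inl Lamplighter.t
  | .left => Coprod.inl (Lamplighter.t)⁻¹
  | .hh y => Coprod.inr y

theorem TInv.step_l {c : Cel} {u v : List (Sym H)} {g : Coprod Lamplighter H} (h : TInv c u v g) (y : Lamplighter)
    (c' : Cel) (f1 f2 : List Cel → List Cel) (u' v' : List (Sym H))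
    (hR : ∀ (l r : List Cel) (x : Lamplighter) (zs : List (Lev H)), u = l.map Sum.inl ++ encL zs →
      v = r.map Sum.inl ++ encR zs → Rel ⟨l, c, r⟩ (x : Wr) → Rel ⟨f1 l, c', f2 r⟩ ((x * y : Lamplighter) : Wr))
    (hu : ∀ l zs, u = l.map Sum.inl ++ encL zs → u' = (f1 l).map Sum.inl ++ encL zs)
    (hv : ∀ r zs, v = r.map Sum.inl ++ encR zs → v' = (f2 r).map Sum.inl ++ encR zs) :
    TInv c' u' v' (g * Coprod.inl y) := by
  obtain ⟨l, r, x, zs, h1, h2, h3, h4, h5, h6⟩ := h
  refine ⟨f1 l, f2 r, x * y, zs, hR l r x zs h4 h5 h1, h2, h3, hu l zs h4, hv r zs h5, ?_⟩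
  rw [h6, map_mul, mul_assoc]

theorem TInv.step {c : Cel} {u v : List (Sym H)} {g : Coprod Lamplighter H} (h : TInv c u v g) (o : Op H) :
    TInv (dl c o (u.take 1) (v.take 1)).1 ((dl c o (u.take 1) (v.take 1)).2.1 ++ u.drop 1)
      ((dl c o (u.take 1) (v.take 1)).2.2 ++ v.drop 1) (g * val o) := by
  classical
  cases o with
  | tog =>
    refine h.step_l Lamplighter.s _ id id _ _ ?_ ?_ ?_
    · intro l r x zs _ _ hx
      exact hx.toggle
    · intro l zs hu
      show u.take 1 ++ u.drop 1 = _
      rw [List.take_append_drop]
      exact hu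
    · intro l zs hv
      show v.take 1 ++ v.drop 1 = _
      rw [List.take_append_drop]
      exact hv
  | right =>
    refine h.step_l Lamplighter.t _ (psh c) List.tail _ _ ?_ ?_ ?_
    · intro l r x zs _ hv hx
      show Rel ⟨psh c l, headCell (v.take 1), r.tail⟩ _
      rw [hv, headCell_spec r _ (bot_encR zs)]
      exact hx.right
    · intro l zs hu
      show pushCell c (u.take 1) ++ u.drop 1 = _
      rw [hu]
      exact pushCell_spec c l _ (bot_encL zs)
    · intro l zs hv
      show restCell (v.take 1) ++ v.drop 1 = _
      rw [hv]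
      exact restCell_spec l _ (bot_encR zs)
  | left =>
    refine h.step_l (Lamplighter.t)⁻¹ _ List.tail (psh c) _ _ ?_ ?_ ?_
    · intro l r x zs hu _ hx
      show Rel ⟨l.tail, headCell (u.take 1), psh c r⟩ _
      rw [hu, headCell_spec l _ (bot_encL zs)]
      exact hx.left
    · intro l zs hu
      show restCell (u.take 1) ++ u.drop 1 = _
      rw [hu]
      exact restCell_spec l _ (bot_encL zs)
    · intro l zs hv
      show pushCell c (v.take 1) ++ v.drop 1 = _
      rw [hv]
      exact pushCell_spec c l _ (bot_encR zs)
  | hh y =>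
    obtain ⟨l, r, x, zs, h1, h2, h3, h4, h5, h6⟩ := h
    -- the push case
    have push : (x ≠ 1 ∨ zs = []) → dl c (.hh y) (u.take 1) (v.take 1) = (if y = 1 then (c, u.take 1, v.take 1) else
        (Cel.orig, Sum.inr (c, y) :: u.take 1, Sum.inr (Cel.blank, 1) :: v.take 1)) →
        TInv (dl c (.hh y) (u.take 1) (v.take 1)).1 ((dl c (.hh y) (u.take 1) (v.take 1)).2.1 ++ u.drop 1)
      ((dl c (.hh y) (u.take 1) (v.take 1)).2.2 ++ v.drop 1) (g * val (.hh y)) := by
      intro hx e
      rw [e]
      split_ifs with hy
      · subst hy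
        simp only [List.take_append_drop]
        refine ⟨l, r, x, zs, h1, h2, h3, h4, h5, ?_⟩
        rw [h6]
        simp [val]
      · refine ⟨[], [], 1, ((⟨l, c, r⟩, x), y) :: zs, rel_one, ?_, ?_, ?_, ?_, ?_⟩
        · intro e he
          rcases List.mem_cons.1 he with rfl | he
          · exact ⟨h1, hy⟩
          · exact h2 e he
        · cases zs with
          | nil => intro e he; simp at he
          | cons e' zs =>
            intro e he
            rw [List.dropLast_cons_cons] at he
            rcases List.mem_cons.1 he with rfl | he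
            · rcases hx with hx | hx
              · exact hx
              · simp at hx
            · exact h3 e he
        · simp only [List.cons_append, List.take_append_drop, h4]
          rfl
        · simp only [List.cons_append, List.take_append_drop, h5]
          rfl
        · rw [h6, List.map_cons, low_cons, map_one, mul_one, mul_assoc]
          rfl
    cases zs with
    | nil =>
      refine push (Or.inr rfl) ?_
      have hu : u = l.map Sum.inl := by rw [h4]; simp [encL]
      cases l with
      | nil => rw [hu]; rfl
      | cons a l => rw [hu]; rfl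
    | cons e zs =>
      cases l with
      | cons a l =>
        have hx : x ≠ 1 := by
          intro hx
          have := (h1.eq_one_iff.2 (by rw [hx]; rfl)).1
          simp at this
        refine push (Or.inl hx) ?_
        rw [h4]
        rfl
      | nil =>
        have hu : u = Sum.inr (e.1.1.c, e.2) :: (e.1.1.l.map Sum.inl ++ encL zs) := by
          rw [h4]; rfl
        have hd : dl c (.hh y) (u.take 1) (v.take 1) = if c = Cel.orig ∧ isCell (v.take 1) = false then
            (if e.2 * y = 1 then (e.1.1.c, [], []) else (c, [Sum.inr (e.1.1.c, e.2 * y)], v.take 1))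
            else if y = 1 then (c, u.take 1, v.take 1) else
              (Cel.orig, Sum.inr (c, y) :: u.take 1, Sum.inr (Cel.blank, 1) :: v.take 1) := by
          rw [hu]; rfl
        by_cases hc : c = Cel.orig ∧ isCell (v.take 1) = false
        · rw [hd, if_pos hc]
          have hr : r = [] := by
            rw [h5, isCell_spec r _ (bot_encR _)] at hc
            exact hc.2
          subst hr
          have hx : x = 1 := by
            apply Subtype.ext
            exact h1.eq_one_iff.1 ⟨rfl, rfl, hc.1⟩
          subst hx
          have hv : v = Sum.inr (Cel.blank, 1) :: (e.1.1.r.map Sum.inl ++ encR zs) := by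
            rw [h5]; rfl
          have hdl : ∀ e' ∈ zs.dropLast, e'.1.2 ≠ 1 := by
            intro e' he'
            apply h3
            cases zs with
            | nil => simp at he'
            | cons e'' zs =>
              rw [List.dropLast_cons_cons]
              exact List.mem_cons_of_mem _ he'
          split_ifs with hy
          · refine ⟨e.1.1.l, e.1.1.r, e.1.2, zs, (h2 e List.mem_cons_self).1,
              fun e' he' => h2 e' (List.mem_cons_of_mem _ he'), hdl, by rw [hu]; rfl, by rw [hv]; rfl, ?_⟩
            rw [h6, List.map_cons, low_cons, map_one, mul_one]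
            show _ * (Coprod.inl e.1.2 * Coprod.inr e.2) * Coprod.inr y = _
            rw [mul_assoc, mul_assoc, ← map_mul, hy, map_one, mul_one]
          · refine ⟨[], [], 1, (e.1, e.2 * y) :: zs, h1, ?_, ?_, by rw [hu]; rfl, ?_, ?_⟩
            · intro e' he'
              rcases List.mem_cons.1 he' with rfl | he'
              · exact ⟨(h2 e List.mem_cons_self).1, hy⟩
              · exact h2 e' (List.mem_cons_of_mem _ he')
            · cases zs with
              | nil => intro e' he'; simp at he'
              | cons e'' zs =>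
                intro e' he'
                rw [List.dropLast_cons_cons] at he'
                rcases List.mem_cons.1 he' with rfl | he'
                · exact h3 e (by rw [List.dropLast_cons_cons]; exact List.mem_cons_self)
                · exact h3 e' (by rw [List.dropLast_cons_cons]; exact List.mem_cons_of_mem _ he')
            · simp only [List.take_append_drop]
              rw [hv]
              rfl
            · rw [h6, List.map_cons, List.map_cons, low_cons, low_cons, map_one, mul_one, mul_one]
              show _ * (Coprod.inl e.1.2 * Coprod.inr e.2) * Coprod.inr y = _ * (Coprod.inl e.1.2 * Coprod.inr (e.2 * y))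
              rw [map_mul, mul_assoc, mul_assoc]
        · refine push (Or.inl ?_) ?_
          · intro hx
            apply hc
            have := h1.eq_one_iff.2 (by rw [hx]; rfl)
            refine ⟨this.2.2, ?_⟩
            rw [h5, isCell_spec r _ (bot_encR _)]
            exact this.2.1
          · rw [hd, if_neg hc]

/-- the kind of a letter -/
def op : (Bool ⊕ H) ⊕ (Bool ⊕ H) → Op H
  | Sum.inl (Sum.inl false) => .tog
  | Sum.inl (Sum.inl true) => .right
  | Sum.inl (Sum.inr y) => .hh y
  | Sum.inr (Sum.inl false) => .tog
  | Sum.inr (Sum.inl true) => .left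
  | Sum.inr (Sum.inr y) => .hh y⁻¹

/-- the generators -/
noncomputable def gens : Bool ⊕ H → Coprod Lamplighter H :=
  Sum.elim (fun b => Coprod.inl (gen b)) (fun y => Coprod.inr y)

theorem s_inv' : (Lamplighter.s)⁻¹ = Lamplighter.s := Subtype.ext Machine.s_inv

theorem val_op (a : (Bool ⊕ H) ⊕ (Bool ⊕ H)) : val (op a) = Sum.elim gens (fun a => (gens a)⁻¹) a := by
  match a with
  | Sum.inl (Sum.inl false) => rfl
  | Sum.inl (Sum.inl true) => rfl
  | Sum.inl (Sum.inr y) => rfl
  | Sum.inr (Sum.inl false) =>
    show Coprod.inl Lamplighter.s = (Coprod.inl (Lamplighter.s))⁻¹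
    rw [← map_inv, s_inv']
  | Sum.inr (Sum.inl true) =>
    show Coprod.inl (Lamplighter.t)⁻¹ = (Coprod.inl (Lamplighter.t))⁻¹
    rw [map_inv]
  | Sum.inr (Sum.inr y) =>
    show Coprod.inr y⁻¹ = (Coprod.inr y)⁻¹
    rw [map_inv]

theorem closure_gens : Subgroup.closure (Set.range (gens (H := H))) = ⊤ := by
  rw [← Coprod.closure_range_inl_union_inr]
  apply le_antisymm
  · apply Subgroup.closure_mono
    rintro x ⟨a | a, rfl⟩
    · exact Or.inl ⟨_, rfl⟩
    · exact Or.inr ⟨_, rfl⟩
  · rw [Subgroup.closure_le]
    rintro x (⟨a, rfl⟩ | ⟨a, rfl⟩)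
    · have hg : Subgroup.closure (Set.range gen) = ⊤ := by
        have h := Subgroup.closure_closure_coe_preimage (k := ({Wr.s, Wr.t} : Set Wr))
        have e : (((↑) : Lamplighter → Wr) ⁻¹' ({Wr.s, Wr.t} : Set Wr)) = Set.range gen := by
          ext x
          constructor
          · intro hx
            rcases hx with hx | hx
            · exact ⟨false, Subtype.ext hx.symm⟩
            · exact ⟨true, Subtype.ext hx.symm⟩
          · rintro ⟨b, rfl⟩
            cases b
            · exact Or.inl rfl
            · exact Or.inr rfl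
        rw [← e]
        exact h
      have ha : a ∈ Subgroup.closure (Set.range gen) := by rw [hg]; trivial
      have : Coprod.inl a ∈ (Subgroup.closure (Set.range gen)).map (Coprod.inl : Lamplighter →* Coprod Lamplighter H) :=
        Subgroup.mem_map_of_mem _ ha
      rw [MonoidHom.map_closure] at this
      refine Subgroup.closure_mono ?_ this
      rintro y ⟨z, ⟨b, rfl⟩, rfl⟩
      exact ⟨Sum.inl b, rfl⟩
    · exact Subgroup.subset_closure ⟨Sum.inr a, rfl⟩

end TwoTape

open TwoTape in
/-- the free product of the lamplighter group and a finite group is real-time with two work tapes -/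
theorem coprod_two (H : Type) [Group H] [Finite H] : RealTimeGroupK 2 (Monoid.Coprod Lamplighter H) := by
  refine ⟨Bool ⊕ H, inferInstance, gens, closure_gens, ?_⟩
  refine realTime_of_stack (k := 2) (Γ := Sym H) 1 _ Cel.orig (fun _ => [])
    {x | x.1 = Cel.orig ∧ x.2 0 = [] ∧ x.2 1 = []}
    (fun q a t => ((dl q (op a) ((t 0).take 1) ((t 1).take 1)).1,
      fun i => if i = 0 then (dl q (op a) ((t 0).take 1) ((t 1).take 1)).2.1 else
        (dl q (op a) ((t 0).take 1) ((t 1).take 1)).2.2)) ?_ ?_ ?_
  · intro q a t i
    have h := dl_length q (op a) ((t 0).take 1) ((t 1).take 1) (by simp) (by simp)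
    simp only
    split_ifs
    · exact h.1
    · exact h.2
  · intro i
    simp
  · intro w
    have key : ∀ (w : List ((Bool ⊕ H) ⊕ (Bool ⊕ H))) (x : Cel × (Fin 2 → List (Sym H)))
        (g : Monoid.Coprod Lamplighter H), TInv x.1 (x.2 0) (x.2 1) g →
        let x' := w.foldl (sstep 1 (fun (q : Cel) (a : (Bool ⊕ H) ⊕ (Bool ⊕ H)) (t : Fin 2 → List (Sym H)) =>
          ((dl q (op a) ((t 0).take 1) ((t 1).take 1)).1,
            fun i => if i = 0 then (dl q (op a) ((t 0).take 1) ((t 1).take 1)).2.1 else
              (dl q (op a) ((t 0).take 1) ((t 1).take 1)).2.2))) x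
        TInv x'.1 (x'.2 0) (x'.2 1) (g * (w.map (Sum.elim gens (fun a => (gens a)⁻¹))).prod) := by
      intro w
      induction w with
      | nil =>
        intro x g h
        simpa using h
      | cons a w ih =>
        intro x g h
        rw [List.foldl_cons, List.map_cons, List.prod_cons, ← mul_assoc]
        apply ih
        have := h.step (op a)
        rw [val_op] at this
        have e0 : ((x.2 0).take 1).take 1 = (x.2 0).take 1 := by simp
        have e1 : ((x.2 1).take 1).take 1 = (x.2 1).take 1 := by simp
        simpa only [sstep, e0, e1, if_true, Fin.isValue, one_ne_zero, if_false] using this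
    have h := key w (Cel.orig, fun _ => []) 1 tinv_init
    rw [one_mul] at h
    exact h.accept.symm

end Pool.Agent.Helper81.RT
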